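import Pool.Agent.LibRO74.Def

/-!
[RO74 A1] Levels of the cube `G → A`. Elementary.

`hits_plant`: by `ext`. `lev_rec`: from the formula
`(lev G top i).card = (card G).choose i * (card A - 1) ^ (card G - i)` (sum over the sets `H` of
`i` places; functions with hit set exactly `H` are a product of `{top}` and `univ.erase top`).
-/

namespace Pool.Agent.LibRO74

open Finset

variable {G A : Type} [Fintype G] [DecidableEq G] [Fintype A] [DecidableEq A]

theorem mem_hits {top : A} {f : G → A} {g : G} : g ∈ hits top f ↔ f g = top := by
  simp [hits]

theorem mem_lev {top : A} {i : ℕ} {f : G → A} : f ∈ lev G top i ↔ (hits top f).card = i := by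
  simp [lev]

theorem hits_plant (top : A) (D : Finset G) (f : G → A) :
    hits top (plant top D f) = hits top f ∪ D := by
  ext g
  simp only [mem_hits, plant, mem_union]
  by_cases h : g ∈ D <;> simp [h]

private theorem A1_fib (top : A) (H : Finset G) :
    ((univ : Finset (G → A)).filter fun f => hits top f = H).card =
      (Fintype.card A - 1) ^ (Fintype.card G - H.card) := by
  have h1 : ((univ : Finset (G → A)).filter fun f => hits top f = H) =
      Fintype.piFinset (fun g : G => if g ∈ H then ({top} : Finset A) else univ.erase top) := by
    ext f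
    simp only [mem_filter, mem_univ, true_and, Fintype.mem_piFinset]
    constructor
    · rintro rfl g
      by_cases h : f g = top
      · rw [if_pos (mem_hits.2 h), mem_singleton]; exact h
      · rw [if_neg (fun h' => h (mem_hits.1 h'))]
        exact mem_erase.2 ⟨h, mem_univ _⟩
    · intro h
      ext g
      rw [mem_hits]
      have hg := h g
      by_cases hH : g ∈ H
      · rw [if_pos hH, mem_singleton] at hg
        exact ⟨fun _ => hH, fun _ => hg⟩
      · rw [if_neg hH] at hg
        exact ⟨fun h' => absurd h' (mem_erase.1 hg).1, fun h' => absurd h' hH⟩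
  rw [h1, Fintype.card_piFinset]
  have h2 : ∀ g : G, (if g ∈ H then ({top} : Finset A) else univ.erase top).card =
      if g ∈ H then 1 else (Fintype.card A - 1) := by
    intro g
    by_cases hH : g ∈ H
    · rw [if_pos hH, if_pos hH, card_singleton]
    · rw [if_neg hH, if_neg hH, card_erase_of_mem (mem_univ _), card_univ]
  rw [prod_congr rfl fun g _ => h2 g, prod_ite]
  simp only [prod_const_one, one_mul, prod_const]
  congr 1
  have h3 : (univ.filter fun g : G => g ∉ H) = Hᶜ := by
    ext g; simp
  rw [h3, card_compl]

private theorem A1_card (top : A) (i : ℕ) : (lev G top i).card =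
    (Fintype.card G).choose i * (Fintype.card A - 1) ^ (Fintype.card G - i) := by
  have hm : ∀ f ∈ lev G top i, hits top f ∈ powersetCard i (univ : Finset G) := by
    intro f hf
    exact mem_powersetCard.2 ⟨subset_univ _, mem_lev.1 hf⟩
  rw [card_eq_sum_card_fiberwise hm]
  have h1 : ∀ H ∈ powersetCard i (univ : Finset G),
      ((lev G top i).filter fun f => hits top f = H).card =
        (Fintype.card A - 1) ^ (Fintype.card G - i) := by
    intro H hH
    have hc : H.card = i := (mem_powersetCard.1 hH).2
    have h2 : ((lev G top i).filter fun f => hits top f = H) =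
        (univ : Finset (G → A)).filter fun f => hits top f = H := by
      ext f
      simp only [mem_filter, mem_univ, true_and, mem_lev]
      constructor
      · exact fun h => h.2
      · intro h
        exact ⟨by rw [h, hc], h⟩
    rw [h2, A1_fib, hc]
  rw [sum_congr rfl h1, sum_const, card_powersetCard, card_univ, smul_eq_mul]

theorem lev_rec (top : A) (i : ℕ) : (lev G top (i + 1)).card * ((i + 1) * (Fintype.card A - 1)) =
    (lev G top i).card * (Fintype.card G - i) := by
  rw [A1_card, A1_card]
  rcases Nat.lt_or_ge i (Fintype.card G) with h | h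
  · have h1 : Fintype.card G - i = (Fintype.card G - (i + 1)) + 1 := by omega
    have h2 := Nat.choose_succ_right_eq (Fintype.card G) i
    have h3 : (Fintype.card A - 1) ^ (Fintype.card G - i) =
        (Fintype.card A - 1) ^ (Fintype.card G - (i + 1)) * (Fintype.card A - 1) := by
      rw [h1, pow_succ]
    calc (Fintype.card G).choose (i + 1) * (Fintype.card A - 1) ^ (Fintype.card G - (i + 1)) *
          ((i + 1) * (Fintype.card A - 1))
        = ((Fintype.card G).choose (i + 1) * (i + 1)) *
          ((Fintype.card A - 1) ^ (Fintype.card G - (i + 1)) * (Fintype.card A - 1)) := by ring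
      _ = ((Fintype.card G).choose i * (Fintype.card G - i)) *
          (Fintype.card A - 1) ^ (Fintype.card G - i) := by rw [h2, h3]
      _ = (Fintype.card G).choose i * (Fintype.card A - 1) ^ (Fintype.card G - i) *
          (Fintype.card G - i) := by ring
  · rw [Nat.choose_eq_zero_of_lt (by omega), Nat.sub_eq_zero_of_le h]
    simp

theorem lev_pos (top : A) {i : ℕ} (hi : i ≤ Fintype.card G) (hA : 2 ≤ Fintype.card A) :
    0 < (lev G top i).card := by
  rw [A1_card]
  exact Nat.mul_pos (Nat.choose_pos hi) (Nat.pow_pos (by omega))

theorem sum_lev (top : A) : ∑ i ∈ range (Fintype.card G + 1), (lev G top i).card =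
    Fintype.card A ^ Fintype.card G := by
  have hm : ∀ f ∈ (univ : Finset (G → A)), (hits top f).card ∈ range (Fintype.card G + 1) := by
    intro f _
    rw [mem_range]
    exact Nat.lt_succ_of_le (card_le_univ _)
  have h := card_eq_sum_card_fiberwise hm
  rw [card_univ, Fintype.card_fun] at h
  exact h.symm

end Pool.Agent.LibRO74
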