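import Pool.Agent.LibRO74.A1

/-!
[RO74 A2] Double counting between two levels.

Pairs `(f, g)` with `f ∈ R`, `f g ≠ top`, `g ∉ B f`: at least `card R * (card G - i - T)`; the map
`(f, g) ↦ (plant top {g} f, g, f g)` is injective into the triples `(u, g, a)`, `u ∈ U`,
`g ∈ hits top u` (there are `i + 1`), `a ≠ top` (there are `card A - 1`).
-/

namespace Pool.Agent.LibRO74

open Finset

variable {G A : Type} [Fintype G] [DecidableEq G] [Fintype A] [DecidableEq A]

private theorem A2_count (top : A) {i e : ℕ} {S U : Finset (G → A)} {E : (G → A) → Finset G}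
    (hE : ∀ f ∈ S, e ≤ (E f).card) (hd : ∀ f ∈ S, ∀ g ∈ E f, f g ≠ top)
    (hU : ∀ u ∈ U, (hits top u).card = i + 1)
    (hSU : ∀ f ∈ S, ∀ g ∈ E f, Function.update f g top ∈ U) :
    S.card * e ≤ U.card * ((i + 1) * (Fintype.card A - 1)) := by
  have h1 : S.card * e ≤ (S.sigma fun f => E f).card := by
    rw [card_sigma, card_eq_sum_ones, sum_mul]
    exact sum_le_sum fun f hf => by simpa using hE f hf
  have h2 : (U.sigma fun u => (hits top u) ×ˢ (univ.erase top : Finset A)).card =
      U.card * ((i + 1) * (Fintype.card A - 1)) := by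
    rw [card_sigma, card_eq_sum_ones, sum_mul]
    refine sum_congr rfl fun u hu => ?_
    rw [card_product, hU u hu, card_erase_of_mem (mem_univ _), card_univ, one_mul]
  rw [← h2]
  refine h1.trans (card_le_card_of_injOn
    (fun x => (⟨Function.update x.1 x.2 top, (x.2, x.1 x.2)⟩ : Σ _ : G → A, G × A)) ?_ ?_)
  · rintro ⟨f, g⟩ hx
    simp only [mem_coe, mem_sigma] at hx
    simp only [mem_coe, mem_sigma, mem_product, mem_erase, mem_univ, and_true]
    exact ⟨hSU f hx.1 g hx.2, by rw [mem_hits]; simp, hd f hx.1 g hx.2⟩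
  · rintro ⟨f, g⟩ - ⟨f', g'⟩ - h
    simp only [Sigma.mk.injEq, heq_eq_eq, Prod.mk.injEq] at h
    obtain ⟨h1, rfl, h3⟩ := h
    have : f = f' := by
      funext k
      by_cases hk : k = g
      · rw [hk]; exact h3
      · have := congrFun h1 k
        simpa [Function.update_of_ne hk] using this
    subst this
    rfl

theorem up_card (top : A) {i T : ℕ} {R U : Finset (G → A)} (hR : R ⊆ lev G top i)
    (hU : U ⊆ lev G top (i + 1))
    (h : ∀ f ∈ R, ∃ B : Finset G, B.card ≤ T ∧ ∀ g, f g ≠ top → g ∉ B → plant top {g} f ∈ U) :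
    R.card * (Fintype.card G - i - T) ≤ U.card * ((i + 1) * (Fintype.card A - 1)) := by
  classical
  choose! B hB using h
  refine A2_count top (E := fun f => univ.filter fun g => f g ≠ top ∧ g ∉ B f) ?_ ?_
    (fun u hu => mem_lev.1 (hU hu)) ?_
  · intro f hf
    have h1 : (univ : Finset G) ⊆ (hits top f ∪ B f) ∪
        univ.filter fun g => f g ≠ top ∧ g ∉ B f := by
      intro g _
      simp only [mem_union, mem_hits, mem_filter, mem_univ, true_and]
      tauto
    have h2 := card_le_card h1
    have h3 := card_union_le (hits top f ∪ B f) (univ.filter fun g => f g ≠ top ∧ g ∉ B f)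
    have h4 := card_union_le (hits top f) (B f)
    have h5 := mem_lev.1 (hR hf)
    have h6 := (hB f hf).1
    rw [card_univ] at h2
    omega
  · intro f _ g hg
    exact (mem_filter.1 hg).2.1
  · intro f hf g hg
    have h1 := (hB f hf).2 g (mem_filter.1 hg).2.1 (mem_filter.1 hg).2.2
    have h2 : Function.update f g top = plant top {g} f := by
      funext x
      unfold plant
      by_cases hx : x = g
      · subst hx; simp
      · simp [Function.update_of_ne hx, hx]
    rw [h2]
    exact h1

end Pool.Agent.LibRO74
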