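import Pool.Agent.LibRO74.A2

/-!
[RO74 A3] The same as densities. From `up_card` and `lev_rec` (and `lev_pos`): with `N_i` the size of
level `i`, `|U| / N_(i+1) ≥ |R| (M-i-T) / ((i+1)(a-1) N_(i+1)) = |R| (M-i-T) / ((M-i) N_i)`.
-/

namespace Pool.Agent.LibRO74

open Finset

variable {G A : Type} [Fintype G] [DecidableEq G] [Fintype A] [DecidableEq A]

theorem step (top : A) {i T : ℕ} (hi : i < Fintype.card G) (hA : 2 ≤ Fintype.card A)
    {R U : Finset (G → A)} (hR : R ⊆ lev G top i) (hU : U ⊆ lev G top (i + 1))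
    (h : ∀ f ∈ R, ∃ B : Finset G, B.card ≤ T ∧ ∀ g, f g ≠ top → g ∉ B → plant top {g} f ∈ U) :
    (R.card : ℝ) / (lev G top i).card * (1 - T / ((Fintype.card G : ℝ) - i)) ≤
      (U.card : ℝ) / (lev G top (i + 1)).card := by
  have hM : 0 < (Fintype.card G : ℝ) - i := by
    have : (i : ℝ) < Fintype.card G := by exact_mod_cast hi
    linarith
  have hN : 0 < (lev G top i).card := lev_pos top hi.le hA
  have hN' : 0 < (lev G top (i + 1)).card := lev_pos top hi hA
  have hNr : (0 : ℝ) < (lev G top i).card := by exact_mod_cast hN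
  have hNr' : (0 : ℝ) < (lev G top (i + 1)).card := by exact_mod_cast hN'
  have hup := up_card top hR hU h
  have hrec := lev_rec (G := G) top i
  rcases le_or_gt (Fintype.card G - i) T with hT | hT
  · have h1 : (Fintype.card G : ℝ) - i ≤ T := by
      have h0 : Fintype.card G ≤ T + i := by omega
      have h0' : (Fintype.card G : ℝ) ≤ T + i := by exact_mod_cast h0
      linarith
    have h2 : 1 - (T : ℝ) / ((Fintype.card G : ℝ) - i) ≤ 0 := by
      rw [sub_nonpos, le_div_iff₀ hM]
      linarith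
    have h3 : (R.card : ℝ) / (lev G top i).card * (1 - T / ((Fintype.card G : ℝ) - i)) ≤ 0 :=
      mul_nonpos_of_nonneg_of_nonpos (by positivity) h2
    exact h3.trans (by positivity)
  · have hA1 : 1 ≤ Fintype.card A := by omega
    have hrecR : ((lev G top (i + 1)).card : ℝ) * (((i : ℝ) + 1) * ((Fintype.card A : ℝ) - 1)) =
        (lev G top i).card * ((Fintype.card G : ℝ) - i) := by
      have h0 := congrArg (Nat.cast : ℕ → ℝ) hrec
      rw [Nat.cast_mul, Nat.cast_mul, Nat.cast_mul, Nat.cast_sub hA1, Nat.cast_sub hi.le] at h0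
      push_cast at h0
      exact h0
    have hupR : (R.card : ℝ) * ((Fintype.card G : ℝ) - i - T) ≤
        U.card * (((i : ℝ) + 1) * ((Fintype.card A : ℝ) - 1)) := by
      have h0 := (Nat.cast_le (α := ℝ)).2 hup
      rw [Nat.cast_mul, Nat.cast_mul, Nat.cast_mul, Nat.cast_sub hT.le, Nat.cast_sub hi.le,
        Nat.cast_sub hA1] at h0
      push_cast at h0
      exact h0
    have h1 : 1 - (T : ℝ) / ((Fintype.card G : ℝ) - i) =
        ((Fintype.card G : ℝ) - i - T) / ((Fintype.card G : ℝ) - i) := by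
      field_simp
    rw [h1, div_mul_div_comm, div_le_div_iff₀ (mul_pos hNr hM) hNr', ← hrecR]
    calc (R.card : ℝ) * ((Fintype.card G : ℝ) - i - T) * (lev G top (i + 1)).card
        ≤ U.card * (((i : ℝ) + 1) * ((Fintype.card A : ℝ) - 1)) * (lev G top (i + 1)).card :=
          mul_le_mul_of_nonneg_right hupR hNr'.le
      _ = U.card * ((lev G top (i + 1)).card * (((i : ℝ) + 1) * ((Fintype.card A : ℝ) - 1))) := by
          ring

end Pool.Agent.LibRO74
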