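import Pool.Agent.LibRO74.A3

/-!
[RO74 A4] The chain inequality (LYM with holes).

`R_i` = the functions of level `lo + i` of the form `plant top D f`, `f ∈ F`, `D` (maybe empty)
disjoint from `hits top f` and `C f`. Then `R_(i+1)` contains the DISJOINT sets `F_(i+1)` (take
`D = ∅`) and `U` = all `plant top {g} f'`, `f' = plant top D f ∈ R_i`, `f' g ≠ top`, `g ∉ C f`
(it is `plant top (D ∪ {g}) f`, not in `F` by `hF`). By `step` (with `B f' = C f`), the density
`ρ_i = |R_i| / N_(lo+i)` satisfies `1 ≥ ρ_(i+1) ≥ F_(i+1)/N_(lo+i+1) + ρ_i (1 - δ)` with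
`δ = T / (card G - lo - J)`. Induction: `∑ i ≤ s, F_i/N_(lo+i) * (1 - δ)^(s - i) ≤ ρ_s ≤ 1`, hence
`(1 - δ)^J ∑ ≤ 1`, and `(1 - δ)^J ≥ 1 - J δ ≥ 1/2` (`one_add_mul_le_pow`).
(simplest induction: `(1-δ)^s * ∑ i ≤ s, F_i/N ≤ ρ_s`.)
-/

namespace Pool.Agent.LibRO74

open Finset

variable {G A : Type} [Fintype G] [DecidableEq G] [Fintype A] [DecidableEq A]

private theorem A4_plant_plant (top : A) (D : Finset G) (g : G) (f : G → A) :
    plant top {g} (plant top D f) = plant top (insert g D) f := by
  funext x
  simp only [plant, mem_singleton, mem_insert]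
  by_cases hx : x = g
  · simp [hx]
  · simp [hx]

private theorem A4_plant_empty (top : A) (f : G → A) : plant top ∅ f = f := by
  funext x
  simp [plant]

theorem chain (top : A) {T lo J : ℕ} (hA : 2 ≤ Fintype.card A)
    (hG : 2 * J * T + lo + J ≤ Fintype.card G) {F : Finset (G → A)}
    (hw : ∀ f ∈ F, lo ≤ (hits top f).card ∧ (hits top f).card < lo + J)
    (C : (G → A) → Finset G) (hC : ∀ f ∈ F, (C f).card ≤ T)
    (hF : ∀ f ∈ F, ∀ D : Finset G, D.Nonempty → Disjoint D (hits top f) → Disjoint D (C f) →
      plant top D f ∉ F) :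
    ∑ i ∈ range J, ((F.filter fun f => (hits top f).card = lo + i).card : ℝ) /
      (lev G top (lo + i)).card ≤ 2 := by
  classical
  rcases Nat.eq_zero_or_pos J with hJ | hJ
  · subst hJ
    simp
  -- the sets `R_i`
  set R : ℕ → Finset (G → A) := fun i => univ.filter fun h => (hits top h).card = lo + i ∧
    ∃ f ∈ F, ∃ D : Finset G, Disjoint D (hits top f) ∧ Disjoint D (C f) ∧ h = plant top D f
    with hRdef
  set Fi : ℕ → Finset (G → A) := fun i => F.filter fun f => (hits top f).card = lo + i with hFi
  set N : ℕ → ℝ := fun i => ((lev G top (lo + i)).card : ℝ) with hN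
  have hRlev : ∀ i, R i ⊆ lev G top (lo + i) := by
    intro i h hh
    simp only [hRdef, mem_filter, mem_univ, true_and] at hh
    exact mem_lev.2 hh.1
  have hFR : ∀ i, Fi i ⊆ R i := by
    intro i f hf
    simp only [hFi, mem_filter] at hf
    simp only [hRdef, mem_filter, mem_univ, true_and]
    exact ⟨hf.2, f, hf.1, ∅, disjoint_empty_left _, disjoint_empty_left _,
      (A4_plant_empty top f).symm⟩
  have hNpos : ∀ i, i < J → 0 < N i := by
    intro i hi
    have : 0 < (lev G top (lo + i)).card := lev_pos top (by omega) hA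
    simpa [hN] using this
  have hJr : (0 : ℝ) < J := by exact_mod_cast hJ
  set δ : ℝ := 1 / (2 * J) with hδ
  have hδ0 : 0 ≤ δ := by positivity
  have hδ1 : δ ≤ 1 / 2 := by
    rw [hδ]
    apply one_div_le_one_div_of_le (by norm_num)
    have : (1 : ℝ) ≤ J := by exact_mod_cast hJ
    linarith
  -- one step
  have hstep : ∀ i, i + 1 < J →
      ((Fi (i + 1)).card : ℝ) / N (i + 1) + (R i).card / N i * (1 - δ) ≤
        (R (i + 1)).card / N (i + 1) := by
    intro i hi
    have hU : R (i + 1) \ Fi (i + 1) ⊆ lev G top (lo + i + 1) := by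
      intro h hh
      exact hRlev (i + 1) (mem_sdiff.1 hh).1
    have key := step top (i := lo + i) (T := T) (by omega) hA (hRlev i) hU (by
      intro f' hf'
      simp only [hRdef, mem_filter, mem_univ, true_and] at hf'
      obtain ⟨hcard, f, hfF, D, hD1, hD2, rfl⟩ := hf'
      refine ⟨C f, hC f hfF, ?_⟩
      intro g hg hgC
      have hgD : g ∉ D := by
        intro h
        apply hg
        simp [plant, h]
      have hgf : f g ≠ top := by
        intro h
        apply hg
        simp [plant, hgD, h]
      have hD1' : Disjoint (insert g D) (hits top f) := by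
        rw [disjoint_insert_left]
        exact ⟨fun h => hgf (mem_hits.1 h), hD1⟩
      have hD2' : Disjoint (insert g D) (C f) := by
        rw [disjoint_insert_left]
        exact ⟨hgC, hD2⟩
      rw [A4_plant_plant]
      rw [mem_sdiff]
      constructor
      · simp only [hRdef, mem_filter, mem_univ, true_and]
        refine ⟨?_, f, hfF, insert g D, hD1', hD2', rfl⟩
        rw [hits_plant] at hcard ⊢
        have : hits top f ∪ insert g D = insert g (hits top f ∪ D) := by
          ext x
          simp only [mem_union, mem_insert]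
          tauto
        rw [this, card_insert_of_notMem, hcard]
        · ring
        · rw [mem_union]
          rintro (h | h)
          · exact hgf (mem_hits.1 h)
          · exact hgD h
      · intro h
        have h2 : plant top (insert g D) f ∈ F := (mem_filter.1 h).1
        exact hF f hfF (insert g D) (insert_nonempty _ _) hD1' hD2' h2)
    have hNi1 : 0 < N (i + 1) := hNpos (i + 1) hi
    have hNi : 0 < N i := hNpos i (by omega)
    have hcardU : ((R (i + 1) \ Fi (i + 1)).card : ℝ) + (Fi (i + 1)).card =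
        (R (i + 1)).card := by
      have := card_sdiff_add_card_eq_card (hFR (i + 1))
      exact_mod_cast this
    have hMi : (0 : ℝ) < (Fintype.card G : ℝ) - ((lo + i : ℕ) : ℝ) := by
      have : lo + i < Fintype.card G := by omega
      have h2 : ((lo + i : ℕ) : ℝ) < (Fintype.card G : ℝ) := by exact_mod_cast this
      linarith
    have hTd : (T : ℝ) / ((Fintype.card G : ℝ) - ((lo + i : ℕ) : ℝ)) ≤ δ := by
      rw [hδ, div_le_div_iff₀ hMi (by positivity)]
      have h3 : T * (2 * J) + (lo + i) ≤ Fintype.card G := by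
        have : T * (2 * J) = 2 * J * T := by ring
        omega
      have h4 : (T : ℝ) * (2 * J) + ((lo + i : ℕ) : ℝ) ≤ (Fintype.card G : ℝ) := by
        exact_mod_cast h3
      linarith
    have hρ0 : (0 : ℝ) ≤ (R i).card / N i := by positivity
    have h5 : ((R i).card : ℝ) / N i * (1 - δ) ≤
        ((R (i + 1) \ Fi (i + 1)).card : ℝ) / N (i + 1) := by
      refine le_trans (mul_le_mul_of_nonneg_left (by linarith) hρ0) key
    calc ((Fi (i + 1)).card : ℝ) / N (i + 1) + (R i).card / N i * (1 - δ)
        ≤ ((Fi (i + 1)).card : ℝ) / N (i + 1) +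
          ((R (i + 1) \ Fi (i + 1)).card : ℝ) / N (i + 1) := by linarith
      _ = (R (i + 1)).card / N (i + 1) := by
          rw [← add_div, ← hcardU]
          ring
  -- induction
  have hind : ∀ s, s < J → (1 - δ) ^ s * ∑ i ∈ range (s + 1), ((Fi i).card : ℝ) / N i ≤
      (R s).card / N s := by
    intro s
    induction s with
    | zero =>
      intro h0
      have hN0 : 0 < N 0 := hNpos 0 h0
      have h1 : ((Fi 0).card : ℝ) ≤ (R 0).card := by exact_mod_cast card_le_card (hFR 0)
      simp only [zero_add, range_one, sum_singleton, pow_zero, one_mul]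
      exact div_le_div_of_nonneg_right h1 hN0.le
    | succ s ih =>
      intro hs
      have ih' := ih (by omega)
      have h1 := hstep s hs
      rw [sum_range_succ, mul_add]
      have h2 : (1 - δ) ^ (s + 1) * ∑ i ∈ range (s + 1), ((Fi i).card : ℝ) / N i =
          (1 - δ) * ((1 - δ) ^ s * ∑ i ∈ range (s + 1), ((Fi i).card : ℝ) / N i) := by ring
      have h3 : (1 - δ) * ((1 - δ) ^ s * ∑ i ∈ range (s + 1), ((Fi i).card : ℝ) / N i) ≤
          (1 - δ) * ((R s).card / N s) := mul_le_mul_of_nonneg_left ih' (by linarith)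
      have h4 : (1 - δ) ^ (s + 1) * (((Fi (s + 1)).card : ℝ) / N (s + 1)) ≤
          ((Fi (s + 1)).card : ℝ) / N (s + 1) := by
        have hnn : (0 : ℝ) ≤ ((Fi (s + 1)).card : ℝ) / N (s + 1) := by
          have := (hNpos (s + 1) hs).le
          positivity
        have hp : (1 - δ) ^ (s + 1) ≤ 1 := pow_le_one₀ (by linarith) (by linarith)
        nlinarith
      rw [h2]
      linarith
  have hlast := hind (J - 1) (by omega)
  have hJ1 : J - 1 + 1 = J := by omega
  rw [hJ1] at hlast
  have hNJ : 0 < N (J - 1) := hNpos (J - 1) (by omega)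
  have hR1 : ((R (J - 1)).card : ℝ) / N (J - 1) ≤ 1 := by
    rw [div_le_one hNJ]
    have h0 : ((R (J - 1)).card : ℝ) ≤ ((lev G top (lo + (J - 1))).card : ℝ) :=
      Nat.cast_le.2 (card_le_card (hRlev (J - 1)))
    exact h0
  have hb : (1 : ℝ) / 2 ≤ (1 - δ) ^ (J - 1) := by
    have h1 : (1 - δ) ^ J ≤ (1 - δ) ^ (J - 1) :=
      pow_le_pow_of_le_one (by linarith) (by linarith) (by omega)
    have h2 : 1 + (J : ℝ) * (-δ) ≤ (1 + (-δ)) ^ J := one_add_mul_le_pow (by linarith) J
    have h3 : (J : ℝ) * δ = 1 / 2 := by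
      rw [hδ]
      field_simp
    have h4 : (1 + (-δ)) = 1 - δ := by ring
    rw [h4] at h2
    linarith
  have hSnn : (0 : ℝ) ≤ ∑ i ∈ range J, ((Fi i).card : ℝ) / N i := by
    apply sum_nonneg
    intro i hi
    have := (hNpos i (mem_range.1 hi)).le
    positivity
  have hfin : (1 / 2 : ℝ) * ∑ i ∈ range J, ((Fi i).card : ℝ) / N i ≤ 1 :=
    le_trans (le_trans (mul_le_mul_of_nonneg_right hb hSnn) hlast) hR1
  have : ∑ i ∈ range J, ((Fi i).card : ℝ) / N i ≤ 2 := by linarith
  simpa [hFi, hN] using this

end Pool.Agent.LibRO74
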