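import Pool.Agent.LibRO74.A1

/-!
[RO74 B1] The most likely level. `N_i = (lev G top i).card`, `M = card G = lam * a`, `a = card A`,
`N_(i+1) (i+1)(a-1) = N_i (M-i)` (`lev_rec`).

`mode`: `(i+1)(a-1) ≤ M - i` for `i + 1 ≤ lam` (so `N_i ≤ N_(i+1)`), and `M - i ≤ (i+1)(a-1)` for
`lam ≤ i`. Two inductions.

`peak`: for `lam = 4^r` and `s ≤ 2^(r-1)`: `N_(lam+s) ≥ N_lam (1 - s²/lam)`, by induction from
`N_(lam+s+1)/N_(lam+s) = (lam(a-1)-s)/((lam+s+1)(a-1)) ≥ 1 - (2s+1)/lam`. So `N_(lam+s) ≥ 3/4 N_lam`,
and the sum over `s < 2^(r-1)` is at most `card A ^ card G` (`sum_lev`). (`r = 0`: trivial,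
`N_lam ≤ card A ^ card G`.) The levels `lam + s` are `≤ card G` as `4^r * a ≥ 2 * 4^r`.
-/

namespace Pool.Agent.LibRO74

open Finset

variable {G A : Type} [Fintype G] [DecidableEq G] [Fintype A] [DecidableEq A]

theorem mode (top : A) {lam : ℕ} (hG : Fintype.card G = lam * Fintype.card A)
    (hA : 2 ≤ Fintype.card A) (i : ℕ) : (lev G top i).card ≤ (lev G top lam).card := by
  obtain ⟨b, hb⟩ : ∃ b, Fintype.card A = b + 2 := ⟨Fintype.card A - 2, by omega⟩
  have key : ∀ j, (lev G top (j + 1)).card * ((j + 1) * (b + 1)) =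
      (lev G top j).card * (lam * (b + 2) - j) := by
    intro j
    have h := lev_rec (G := G) top j
    rw [hG, hb] at h
    have e : b + 2 - 1 = b + 1 := by omega
    rw [e] at h
    exact h
  rcases Nat.le_total i lam with h | h
  · have up : ∀ j, i ≤ j → j ≤ lam → (lev G top i).card ≤ (lev G top j).card := by
      intro j hij
      induction j, hij using Nat.le_induction with
      | base => intro _; exact le_rfl
      | succ j hij ih =>
        intro hj
        refine (ih (by omega)).trans ?_
        have h1 := key j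
        have h2 : (j + 1) * (b + 1) ≤ lam * (b + 2) - j := by
          have h3 : (j + 1) * (b + 2) ≤ lam * (b + 2) := Nat.mul_le_mul_right _ hj
          have h4 : (j + 1) * (b + 2) = (j + 1) * (b + 1) + (j + 1) := by ring
          omega
        have h5 : (lev G top j).card * ((j + 1) * (b + 1)) ≤
            (lev G top (j + 1)).card * ((j + 1) * (b + 1)) := by
          rw [h1]; exact Nat.mul_le_mul_left _ h2
        exact Nat.le_of_mul_le_mul_right h5 (by positivity)
    exact up lam h le_rfl
  · induction i, h using Nat.le_induction with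
    | base => exact le_rfl
    | succ j hij ih =>
      refine le_trans ?_ ih
      have h1 := key j
      have h2 : lam * (b + 2) - j ≤ (j + 1) * (b + 1) := by
        have h3 : lam * (b + 2) ≤ j * (b + 2) := Nat.mul_le_mul_right _ hij
        have h4 : j * (b + 2) = j * (b + 1) + j := by ring
        have h5 : (j + 1) * (b + 1) = j * (b + 1) + (b + 1) := by ring
        omega
      have h5 : (lev G top (j + 1)).card * ((j + 1) * (b + 1)) ≤
          (lev G top j).card * ((j + 1) * (b + 1)) := by
        rw [h1]; exact Nat.mul_le_mul_left _ h2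
      exact Nat.le_of_mul_le_mul_right h5 (by positivity)

private theorem B1_low (top : A) {lam K : ℕ} (hG : Fintype.card G = lam * Fintype.card A)
    (hA : 2 ≤ Fintype.card A) (hK : K ≤ lam) (s : ℕ) (hs : 2 * s ≤ K) :
    (lev G top lam).card * lam ≤ (lev G top (lam + s)).card * lam +
      (lev G top lam).card * (s * s) := by
  obtain ⟨b, hb⟩ : ∃ b, Fintype.card A = b + 2 := ⟨Fintype.card A - 2, by omega⟩
  induction s with
  | zero => simp
  | succ s ih =>
    have ih' := ih (by omega)
    have h := lev_rec (G := G) top (lam + s)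
    rw [hG, hb] at h
    have e : b + 2 - 1 = b + 1 := by omega
    rw [e] at h
    have hle : lam + s ≤ lam * (b + 2) := by nlinarith
    obtain ⟨E, hE⟩ : ∃ E, lam * (b + 2) - (lam + s) = E := ⟨_, rfl⟩
    rw [hE] at h
    have hE' : (E : ℝ) = lam * (b + 1) - s := by
      have : E + (lam + s) = lam * (b + 2) := by omega
      have h2 : ((E + (lam + s) : ℕ) : ℝ) = ((lam * (b + 2) : ℕ) : ℝ) := by rw [this]
      push_cast at h2
      linarith
    have eadd : lam + (s + 1) = lam + s + 1 := rfl
    rw [eadd]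
    set N := (lev G top lam).card
    set X := (lev G top (lam + s)).card
    set Y := (lev G top (lam + s + 1)).card
    have hR : (Y : ℝ) * ((lam + s + 1) * (b + 1)) = X * (lam * (b + 1) - s) := by
      have h2 : ((Y * ((lam + s + 1) * (b + 1)) : ℕ) : ℝ) = ((X * E : ℕ) : ℝ) := by rw [h]
      push_cast at h2
      rw [hE'] at h2
      exact h2
    have ihR : (N : ℝ) * lam ≤ X * lam + N * (s * s) := by exact_mod_cast ih'
    have hs2 : (2 * s + 2 : ℝ) ≤ lam := by
      have : 2 * s + 2 ≤ lam := by omega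
      exact_mod_cast this
    have hN : (0 : ℝ) ≤ N := Nat.cast_nonneg _
    have hX : (0 : ℝ) ≤ X := Nat.cast_nonneg _
    have hY : (0 : ℝ) ≤ Y := Nat.cast_nonneg _
    have hb0 : (0 : ℝ) ≤ b := Nat.cast_nonneg _
    have hs0 : (0 : ℝ) ≤ s := Nat.cast_nonneg _
    have hl0 : (0 : ℝ) < lam := by linarith
    -- Y lam >= X (lam - 2 s - 1)
    have hD : (0 : ℝ) < (lam + s + 1) * (b + 1) := by positivity
    have hYX : (X : ℝ) * (lam - 2 * s - 1) ≤ Y * lam := by
      have h3 : (X : ℝ) * (lam - 2 * s - 1) * ((lam + s + 1) * (b + 1)) ≤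
          Y * lam * ((lam + s + 1) * (b + 1)) := by
        have h4 : (Y : ℝ) * lam * ((lam + s + 1) * (b + 1)) = X * ((lam * (b + 1) - s) * lam) := by
          calc (Y : ℝ) * lam * ((lam + s + 1) * (b + 1))
              = (Y * ((lam + s + 1) * (b + 1))) * lam := by ring
            _ = (X * (lam * (b + 1) - s)) * lam := by rw [hR]
            _ = X * ((lam * (b + 1) - s) * lam) := by ring
        rw [h4, mul_assoc]
        refine mul_le_mul_of_nonneg_left ?_ hX
        have h5 : ((lam : ℝ) * (b + 1) - s) * lam -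
            (lam - 2 * s - 1) * ((lam + s + 1) * (b + 1)) =
            b * (s * lam + 2 * s * s + 3 * s + 1) + (2 * s * s + 3 * s + 1) := by ring
        have h6 : 0 ≤ (b : ℝ) * (s * lam + 2 * s * s + 3 * s + 1) + (2 * s * s + 3 * s + 1) := by
          positivity
        linarith
      exact le_of_mul_le_mul_right h3 hD
    have hfin : (N : ℝ) * lam ≤ Y * lam + N * ((s + 1) * (s + 1)) := by
      -- multiply by lam
      have h7 : (N : ℝ) * (lam - s * s) ≤ X * lam := by linarith
      have h8 : (0 : ℝ) ≤ lam - 2 * s - 1 := by linarith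
      have h9 := mul_le_mul_of_nonneg_right h7 h8
      have h10 := mul_le_mul_of_nonneg_right hYX hl0.le
      have h11 : (N : ℝ) * (lam - s * s) * (lam - 2 * s - 1) ≤ Y * lam * lam := by
        calc (N : ℝ) * (lam - s * s) * (lam - 2 * s - 1) ≤ X * lam * (lam - 2 * s - 1) := h9
          _ = X * (lam - 2 * s - 1) * lam := by ring
          _ ≤ Y * lam * lam := h10
      have h12 : (N : ℝ) * (lam - (s + 1) * (s + 1)) * lam ≤
          N * (lam - s * s) * (lam - 2 * s - 1) := by
        have h13 : (N : ℝ) * (lam - s * s) * (lam - 2 * s - 1) -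
            N * (lam - (s + 1) * (s + 1)) * lam = N * (s * s * (2 * s + 1)) := by ring
        have h14 : (0 : ℝ) ≤ N * (s * s * (2 * s + 1)) := by positivity
        linarith
      have h15 : (N : ℝ) * (lam - (s + 1) * (s + 1)) ≤ Y * lam :=
        le_of_mul_le_mul_right (h12.trans h11) hl0
      linarith
    exact_mod_cast hfin

theorem peak (top : A) {r : ℕ} (hG : Fintype.card G = 4 ^ r * Fintype.card A)
    (hA : 2 ≤ Fintype.card A) :
    (lev G top (4 ^ r)).card * 2 ^ r ≤ 4 * Fintype.card A ^ Fintype.card G := by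
  rcases Nat.eq_zero_or_pos r with hr | hr
  · subst hr
    have h1 : (lev G top (4 ^ 0)).card ≤ Fintype.card A ^ Fintype.card G := by
      rw [← sum_lev (G := G) top]
      refine Finset.single_le_sum (f := fun i => (lev G top i).card) (fun _ _ => Nat.zero_le _) ?_
      rw [Finset.mem_range, hG]
      have : 1 ≤ 4 ^ 0 * Fintype.card A := by rw [pow_zero, one_mul]; omega
      rw [pow_zero] at this ⊢
      omega
    rw [pow_zero, pow_zero] at *
    omega
  obtain ⟨q, rfl⟩ : ∃ q, r = q + 1 := ⟨r - 1, by omega⟩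
  have hlow := B1_low top hG hA (Nat.pow_le_pow_left (by norm_num : 2 ≤ 4) (q + 1))
  have hsum : ∑ s ∈ range (2 ^ q), (lev G top (4 ^ (q + 1) + s)).card ≤
      Fintype.card A ^ Fintype.card G := by
    rw [← sum_lev (G := G) top]
    have hinj : Function.Injective (fun s : ℕ => 4 ^ (q + 1) + s) := fun x y h => by
      simpa using h
    have h1 : ∑ s ∈ range (2 ^ q), (lev G top (4 ^ (q + 1) + s)).card =
        ∑ i ∈ (range (2 ^ q)).image (fun s => 4 ^ (q + 1) + s), (lev G top i).card := by
      rw [Finset.sum_image (fun x _ y _ h => hinj h)]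
    rw [h1]
    refine Finset.sum_le_sum_of_subset ?_
    intro i hi
    rw [Finset.mem_image] at hi
    obtain ⟨s, hs, rfl⟩ := hi
    rw [Finset.mem_range] at hs ⊢
    rw [hG]
    have h2 : 2 ^ q ≤ 4 ^ (q + 1) :=
      (Nat.pow_le_pow_left (by norm_num) q).trans (Nat.pow_le_pow_right (by norm_num) (by omega))
    have h3 : 4 ^ (q + 1) * 2 ≤ 4 ^ (q + 1) * Fintype.card A := Nat.mul_le_mul_left _ hA
    omega
  have h34 : ∀ s ∈ range (2 ^ q), 3 * (lev G top (4 ^ (q + 1))).card ≤
      4 * (lev G top (4 ^ (q + 1) + s)).card := by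
    intro s hs
    rw [Finset.mem_range] at hs
    have h1 := hlow s (by rw [pow_succ]; omega)
    have h2 : s * s ≤ 2 ^ q * 2 ^ q := Nat.mul_le_mul hs.le hs.le
    have h3 : (2 : ℕ) ^ q * 2 ^ q = 4 ^ q := by
      rw [← mul_pow]; norm_num
    rw [h3] at h2
    set N := (lev G top (4 ^ (q + 1))).card
    set N' := (lev G top (4 ^ (q + 1) + s)).card
    have h4 : (4 : ℕ) ^ (q + 1) = 4 * 4 ^ q := by rw [pow_succ]; ring
    rw [h4] at h1
    set Q := (4 : ℕ) ^ q with hQ
    have hQ0 : 0 < Q := by positivity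
    have h5 : N * (4 * Q) ≤ N' * (4 * Q) + N * Q := h1.trans (by
      exact Nat.add_le_add_left (Nat.mul_le_mul_left _ h2) _)
    have h6 : (3 * N) * Q ≤ (4 * N') * Q := by nlinarith
    exact Nat.le_of_mul_le_mul_right h6 hQ0
  have h7 := Finset.sum_le_sum h34
  rw [Finset.sum_const, Finset.card_range, ← Finset.mul_sum, smul_eq_mul] at h7
  have h8 := h7.trans (Nat.mul_le_mul_left 4 hsum)
  have h9 : (2 : ℕ) ^ (q + 1) = 2 * 2 ^ q := by rw [pow_succ]; ring
  rw [h9]
  set N := (lev G top (4 ^ (q + 1))).card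
  set P := (2 : ℕ) ^ q
  set W := Fintype.card A ^ Fintype.card G
  have h10 : P * (3 * N) = 3 * (N * P) := by ring
  have h11 : N * (2 * P) = 2 * (N * P) := by ring
  rw [h10] at h8
  rw [h11]
  omega

end Pool.Agent.LibRO74
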