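import Pool.Agent.LibRO74.A1

/-!
[RO74 B2] Chebyshev's inequality for the number of hits. `N_i = (lev G top i).card`,
`M = card G = lam * a`, `a = card A`, tot = `a ^ M`. From `lev_rec` (in ℝ, for `i ≤ M`):
`∑ (i+1) N_(i+1) (a-1) = ∑ (M-i) N_i` gives `∑ i N_i = lam tot`; with the weight `i`:
`∑ i(i+1) N_(i+1) (a-1) = ∑ i(M-i) N_i` gives `a ∑ i² N_i = (M + a - 1) ∑ i N_i`, so
`∑ (i-lam)² N_i = lam (1 - 1/a) tot ≤ lam tot`. (Or directly: `∑_f (hits f)` and `∑_f (hits f)²` by
counting the `f` with `f g = top`, and with `f g = f g' = top`.)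
-/

namespace Pool.Agent.LibRO74

open Finset

variable {G A : Type} [Fintype G] [DecidableEq G] [Fintype A] [DecidableEq A]

private theorem B2_sum (top : A) (F : ℕ → ℝ) :
    ∑ f : G → A, F (hits top f).card =
      ∑ i ∈ range (Fintype.card G + 1), ((lev G top i).card : ℝ) * F i := by
  have hmap : ∀ f ∈ (univ : Finset (G → A)),
      (hits top f).card ∈ range (Fintype.card G + 1) := by
    intro f _
    rw [mem_range, Nat.lt_succ_iff]
    exact Finset.card_le_univ _
  rw [← Finset.sum_fiberwise_of_maps_to hmap]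
  refine Finset.sum_congr rfl fun i _ => ?_
  have h1 : ∀ f ∈ univ.filter (fun f : G → A => (hits top f).card = i),
      F (hits top f).card = F i := by
    intro f hf
    rw [(Finset.mem_filter.1 hf).2]
  rw [Finset.sum_congr rfl h1, Finset.sum_const, nsmul_eq_mul]
  rfl

private theorem B2_rec (top : A) (i : ℕ) (hi : i ≤ Fintype.card G) :
    ((lev G top (i + 1)).card : ℝ) * (((i : ℝ) + 1) * ((Fintype.card A : ℝ) - 1)) =
      ((lev G top i).card : ℝ) * ((Fintype.card G : ℝ) - i) := by
  have h := lev_rec (G := G) top i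
  have ha : 1 ≤ Fintype.card A := Fintype.card_pos_iff.2 ⟨top⟩
  have h2 := congrArg (Nat.cast : ℕ → ℝ) h
  push_cast [Nat.cast_sub ha, Nat.cast_sub hi] at h2
  exact h2

private theorem B2_last (top : A) : (lev G top (Fintype.card G + 1)).card = 0 := by
  rw [Finset.card_eq_zero, Finset.eq_empty_iff_forall_notMem]
  intro f hf
  rw [mem_lev] at hf
  have := Finset.card_le_univ (hits top f)
  omega

private theorem B2_shift (top : A) (w : ℕ → ℝ) (hw : w 0 = 0) :
    ∑ i ∈ range (Fintype.card G + 1), ((lev G top (i + 1)).card : ℝ) * w (i + 1) =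
      ∑ i ∈ range (Fintype.card G + 1), ((lev G top i).card : ℝ) * w i := by
  have h1 := Finset.sum_range_succ' (fun i => ((lev G top i).card : ℝ) * w i)
    (Fintype.card G + 1)
  have h2 := Finset.sum_range_succ (fun i => ((lev G top i).card : ℝ) * w i)
    (Fintype.card G + 1)
  simp only [B2_last, hw, Nat.cast_zero, zero_mul, mul_zero, add_zero] at h1 h2
  rw [← h1, h2]

private theorem B2_main (top : A) {lam : ℕ} (hG : Fintype.card G = lam * Fintype.card A) :
    ∑ i ∈ range (Fintype.card G + 1), ((lev G top i).card : ℝ) * ((i : ℝ) - lam) ^ 2 ≤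
      lam * (Fintype.card A : ℝ) ^ Fintype.card G := by
  have ha : 1 ≤ Fintype.card A := Fintype.card_pos_iff.2 ⟨top⟩
  have haR : (1 : ℝ) ≤ (Fintype.card A : ℝ) := by exact_mod_cast ha
  have hM : (Fintype.card G : ℝ) = lam * (Fintype.card A : ℝ) := by
    rw [hG]; push_cast; ring
  have h0 : ∑ i ∈ range (Fintype.card G + 1), ((lev G top i).card : ℝ) =
      (Fintype.card A : ℝ) ^ Fintype.card G := by
    have := sum_lev (G := G) top
    exact_mod_cast this
  set a : ℝ := (Fintype.card A : ℝ) with hadef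
  set M : ℝ := (Fintype.card G : ℝ) with hMdef
  set T : ℝ := a ^ Fintype.card G with hT
  have hT0 : 0 ≤ T := by positivity
  set S1 : ℝ := ∑ i ∈ range (Fintype.card G + 1), ((lev G top i).card : ℝ) * (i : ℝ) with hS1
  set S2 : ℝ := ∑ i ∈ range (Fintype.card G + 1), ((lev G top i).card : ℝ) * (i : ℝ) ^ 2 with hS2
  -- first moment
  have e1 : (a - 1) * S1 = M * T - S1 := by
    have hs := B2_shift (G := G) top (fun i => (i : ℝ)) (by simp)
    have : (a - 1) * S1 = ∑ i ∈ range (Fintype.card G + 1),
        ((lev G top i).card : ℝ) * (M - i) := by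
      rw [hS1, ← hs, Finset.mul_sum]
      refine Finset.sum_congr rfl fun i hi => ?_
      have hi' : i ≤ Fintype.card G := Nat.lt_succ_iff.1 (mem_range.1 hi)
      rw [← B2_rec top i hi']
      push_cast
      ring
    rw [this, ← h0, hS1, Finset.mul_sum, ← Finset.sum_sub_distrib]
    refine Finset.sum_congr rfl fun i _ => ?_
    ring
  have e2 : (a - 1) * (S2 - S1) = M * S1 - S2 := by
    have hs := B2_shift (G := G) top (fun i => (i : ℝ) ^ 2 - i) (by simp)
    have h3 : S2 - S1 = ∑ i ∈ range (Fintype.card G + 1),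
        ((lev G top i).card : ℝ) * ((i : ℝ) ^ 2 - i) := by
      rw [hS1, hS2, ← Finset.sum_sub_distrib]
      refine Finset.sum_congr rfl fun i _ => ?_
      ring
    have : (a - 1) * (S2 - S1) = ∑ i ∈ range (Fintype.card G + 1),
        ((lev G top i).card : ℝ) * (M - i) * i := by
      rw [h3, ← hs, Finset.mul_sum]
      refine Finset.sum_congr rfl fun i hi => ?_
      have hi' : i ≤ Fintype.card G := Nat.lt_succ_iff.1 (mem_range.1 hi)
      rw [← B2_rec top i hi']
      push_cast
      ring
    rw [this, hS1, hS2, Finset.mul_sum, ← Finset.sum_sub_distrib]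
    refine Finset.sum_congr rfl fun i _ => ?_
    ring
  have f1 : S1 = lam * T := by
    have : a * S1 = a * (lam * T) := by
      rw [hM] at e1
      linarith
    exact mul_left_cancel₀ (by linarith) this
  have hV : ∑ i ∈ range (Fintype.card G + 1), ((lev G top i).card : ℝ) * ((i : ℝ) - lam) ^ 2 =
      S2 - 2 * lam * S1 + lam ^ 2 * T := by
    rw [← h0, hS1, hS2, Finset.mul_sum, Finset.mul_sum, ← Finset.sum_sub_distrib,
      ← Finset.sum_add_distrib]
    refine Finset.sum_congr rfl fun i _ => ?_
    ring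
  rw [hV]
  have hl : (0 : ℝ) ≤ lam := by positivity
  have hk : a * (S2 - 2 * lam * S1 + lam ^ 2 * T) = (a - 1) * (lam * T) := by
    have e3 : a * S2 = (M + a - 1) * S1 := by linarith
    rw [hM] at e3
    calc a * (S2 - 2 * lam * S1 + lam ^ 2 * T) = a * S2 - 2 * lam * a * S1 + lam ^ 2 * a * T := by
          ring
      _ = (a - 1) * (lam * T) := by rw [e3, f1]; ring
  have hlT : 0 ≤ lam * T := mul_nonneg hl hT0
  have : a * (S2 - 2 * lam * S1 + lam ^ 2 * T) ≤ a * (lam * T) := by
    rw [hk]; nlinarith
  exact le_of_mul_le_mul_left this (by linarith)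

theorem cheb (top : A) {lam d : ℕ} (hG : Fintype.card G = lam * Fintype.card A) :
    (univ.filter fun f : G → A =>
      ¬ (lam < (hits top f).card + d ∧ (hits top f).card < lam + d)).card * d ^ 2 ≤
      lam * Fintype.card A ^ Fintype.card G := by
  have h1 := B2_sum (G := G) top (fun i => ((i : ℝ) - lam) ^ 2)
  have h2 := B2_main (G := G) top hG
  rw [← h1] at h2
  have h3 : ((univ.filter fun f : G → A =>
      ¬ (lam < (hits top f).card + d ∧ (hits top f).card < lam + d)).card : ℝ) * (d : ℝ) ^ 2 ≤
      ∑ f : G → A, (((hits top f).card : ℝ) - lam) ^ 2 := by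
    rw [← nsmul_eq_mul, ← Finset.sum_const]
    refine le_trans (Finset.sum_le_sum ?_)
      (Finset.sum_le_sum_of_subset_of_nonneg (Finset.filter_subset _ _)
        (fun f _ _ => sq_nonneg _))
    intro f hf
    have hf' := (Finset.mem_filter.1 hf).2
    have hor : (hits top f).card + d ≤ lam ∨ lam + d ≤ (hits top f).card := by
      by_contra hc
      push Not at hc
      exact hf' hc
    have hd : (0 : ℝ) ≤ d := by positivity
    rcases hor with h | h
    · have : ((hits top f).card : ℝ) + d ≤ lam := by exact_mod_cast h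
      nlinarith
    · have : (lam : ℝ) + d ≤ ((hits top f).card : ℝ) := by exact_mod_cast h
      nlinarith
  exact_mod_cast h3.trans h2

end Pool.Agent.LibRO74
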