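import Pool.Agent.LibRO74.A4
import Pool.Agent.LibRO74.B1

/-!
[RO74 C1] `|F| = ∑_i |F_i| = ∑_i (|F_i| / N_(lo+i)) N_(lo+i) ≤ 2 N_lam` (`chain`, `mode`), then `peak`.
-/

namespace Pool.Agent.LibRO74

open Finset

variable {G A : Type} [Fintype G] [DecidableEq G] [Fintype A] [DecidableEq A]

theorem cube (top : A) {r T lo J : ℕ} (hA : 2 ≤ Fintype.card A)
    (hGA : Fintype.card G = 4 ^ r * Fintype.card A)
    (hG : 2 * J * T + lo + J ≤ Fintype.card G) {F : Finset (G → A)}
    (hw : ∀ f ∈ F, lo ≤ (hits top f).card ∧ (hits top f).card < lo + J)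
    (C : (G → A) → Finset G) (hC : ∀ f ∈ F, (C f).card ≤ T)
    (hF : ∀ f ∈ F, ∀ D : Finset G, D.Nonempty → Disjoint D (hits top f) → Disjoint D (C f) →
      plant top D f ∉ F) :
    F.card * 2 ^ r ≤ 8 * Fintype.card A ^ Fintype.card G := by
  classical
  have hch := chain top hA hG hw C hC hF
  have hmode := mode (G := G) top hGA hA
  have hpeak := peak (G := G) top hGA hA
  have hsum : F.card = ∑ i ∈ range J, (F.filter fun f => (hits top f).card = lo + i).card := by
    rw [← Finset.card_biUnion]
    · congr 1
      ext f
      simp only [Finset.mem_biUnion, Finset.mem_filter, Finset.mem_range]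
      constructor
      · intro hf
        obtain ⟨h1, h2⟩ := hw f hf
        exact ⟨(hits top f).card - lo, by omega, hf, by omega⟩
      · rintro ⟨i, _, hf, _⟩
        exact hf
    · intro i _ j _ hij
      rw [Function.onFun, Finset.disjoint_left]
      intro f hf hf'
      rw [Finset.mem_filter] at hf hf'
      exact hij (by omega)
  have hle : ∀ i, (F.filter fun f => (hits top f).card = lo + i).card ≤
      (lev G top (lo + i)).card := by
    intro i
    apply Finset.card_le_card
    intro f hf
    rw [Finset.mem_filter] at hf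
    exact mem_lev.2 hf.2
  have hkey : (F.card : ℝ) ≤ 2 * (lev G top (4 ^ r)).card := by
    rw [hsum, Nat.cast_sum]
    calc ∑ i ∈ range J, ((F.filter fun f => (hits top f).card = lo + i).card : ℝ)
        ≤ ∑ i ∈ range J, ((F.filter fun f => (hits top f).card = lo + i).card : ℝ) /
            (lev G top (lo + i)).card * (lev G top (4 ^ r)).card := by
          apply Finset.sum_le_sum
          intro i _
          rcases Nat.eq_zero_or_pos (lev G top (lo + i)).card with h0 | h0
          · have h1 := hle i
            rw [h0] at h1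
            have h2 : (F.filter fun f => (hits top f).card = lo + i).card = 0 := by omega
            rw [h2]
            simp
          · have h1 : (0 : ℝ) < (lev G top (lo + i)).card := by exact_mod_cast h0
            have h2 : ((lev G top (lo + i)).card : ℝ) ≤ (lev G top (4 ^ r)).card := by
              exact_mod_cast hmode (lo + i)
            rw [div_mul_eq_mul_div, le_div_iff₀ h1]
            exact mul_le_mul_of_nonneg_left h2 (Nat.cast_nonneg _)
      _ = (∑ i ∈ range J, ((F.filter fun f => (hits top f).card = lo + i).card : ℝ) /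
            (lev G top (lo + i)).card) * (lev G top (4 ^ r)).card := by
          rw [Finset.sum_mul]
      _ ≤ 2 * (lev G top (4 ^ r)).card :=
          mul_le_mul_of_nonneg_right hch (Nat.cast_nonneg _)
  have hkey' : F.card ≤ 2 * (lev G top (4 ^ r)).card := by exact_mod_cast hkey
  calc F.card * 2 ^ r ≤ 2 * (lev G top (4 ^ r)).card * 2 ^ r := Nat.mul_le_mul_right _ hkey'
    _ = 2 * ((lev G top (4 ^ r)).card * 2 ^ r) := by ring
    _ ≤ 2 * (4 * Fintype.card A ^ Fintype.card G) := Nat.mul_le_mul_left _ hpeak
    _ = 8 * Fintype.card A ^ Fintype.card G := by ring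

end Pool.Agent.LibRO74
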