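import Pool.Agent.LibRO74.Def

/-!
[RO74 C2] Duplicates, and projections.

`dup_card`: union bound over `z` and `y ≠ y'` of `{f | f (z,y) = top ∧ f (z,y') = top}`, whose
cardinality times `a²` is `a ^ card` (e.g. bijection with restriction, or: it is a `Fintype.piFinset`
with two factors `{top}`; `Finset.prod_erase`).
`proj_le`, `proj_eq`: the set of `z` is the image of `hits top f` under `Prod.fst`.
-/

namespace Pool.Agent.LibRO74

open Finset

variable {Z Y A : Type} [Fintype Z] [DecidableEq Z] [Fintype Y] [DecidableEq Y] [Fintype A]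
  [DecidableEq A]

private theorem C2_two {G : Type} [Fintype G] [DecidableEq G] (top : A) (p p' : G) (h : p ≠ p') :
    (univ.filter fun f : G → A => f p = top ∧ f p' = top).card * Fintype.card A ^ 2 =
      Fintype.card A ^ Fintype.card G := by
  have h1 : (univ.filter fun f : G → A => f p = top ∧ f p' = top) =
      Fintype.piFinset (fun g => if g ∈ ({p, p'} : Finset G) then ({top} : Finset A) else univ) := by
    ext f
    simp only [mem_filter, mem_univ, true_and, Fintype.mem_piFinset]
    constructor
    · rintro ⟨a, b⟩ g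
      by_cases hg : g ∈ ({p, p'} : Finset G)
      · simp only [hg, if_true, mem_singleton]
        rcases mem_insert.1 hg with rfl | hg'
        · exact a
        · rw [mem_singleton.1 hg']; exact b
      · simp [hg]
    · intro hh
      have a := hh p
      have b := hh p'
      simp at a b
      exact ⟨a, b⟩
  have h2 : ∏ g : G, (if g ∈ ({p, p'} : Finset G) then ({top} : Finset A) else univ).card =
      ∏ g : G, (if g ∈ ({p, p'} : Finset G) then 1 else Fintype.card A) := by
    refine prod_congr rfl fun g _ => ?_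
    by_cases hg : g ∈ ({p, p'} : Finset G)
    · rw [if_pos hg, if_pos hg, card_singleton]
    · rw [if_neg hg, if_neg hg, card_univ]
  have h3 : ∏ g : G, (if g ∈ ({p, p'} : Finset G) then Fintype.card A else 1) =
      Fintype.card A ^ 2 := by
    rw [prod_ite_mem, univ_inter, prod_const, card_pair h]
  rw [h1, Fintype.card_piFinset, h2, ← h3, ← prod_mul_distrib]
  have h4 : ∀ g : G, (if g ∈ ({p, p'} : Finset G) then 1 else Fintype.card A) *
      (if g ∈ ({p, p'} : Finset G) then Fintype.card A else 1) = Fintype.card A := by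
    intro g
    by_cases hg : g ∈ ({p, p'} : Finset G)
    · rw [if_pos hg, if_pos hg, one_mul]
    · rw [if_neg hg, if_neg hg, mul_one]
  rw [prod_congr rfl (fun g _ => h4 g), prod_const, card_univ]

private theorem C2_image (top : A) (f : Z × Y → A) :
    (univ.filter fun z => ∃ y, f (z, y) = top) = (hits top f).image Prod.fst := by
  ext z
  simp only [mem_filter, mem_univ, true_and, hits, mem_image, Prod.exists, exists_and_right,
    exists_eq_right]

theorem dup_card (top : A) : (univ.filter fun f : Z × Y → A =>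
      ∃ z y y', f (z, y) = top ∧ f (z, y') = top ∧ y ≠ y').card * Fintype.card A ^ 2 ≤
    Fintype.card Z * Fintype.card Y ^ 2 * Fintype.card A ^ Fintype.card (Z × Y) := by
  have hsub : (univ.filter fun f : Z × Y → A =>
      ∃ z y y', f (z, y) = top ∧ f (z, y') = top ∧ y ≠ y') ⊆
      (univ.filter fun t : Z × Y × Y => t.2.1 ≠ t.2.2).biUnion
        (fun t => univ.filter fun f : Z × Y → A => f (t.1, t.2.1) = top ∧ f (t.1, t.2.2) = top) := by
    intro f hf
    obtain ⟨z, y, y', h1, h2, h3⟩ := (mem_filter.1 hf).2
    exact mem_biUnion.2 ⟨(z, y, y'), mem_filter.2 ⟨mem_univ _, h3⟩,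
      mem_filter.2 ⟨mem_univ _, h1, h2⟩⟩
  have h5 : ∀ t ∈ (univ.filter fun t : Z × Y × Y => t.2.1 ≠ t.2.2),
      (univ.filter fun f : Z × Y → A => f (t.1, t.2.1) = top ∧ f (t.1, t.2.2) = top).card *
        Fintype.card A ^ 2 = Fintype.card A ^ Fintype.card (Z × Y) := by
    intro t ht
    refine C2_two top _ _ fun hh => (mem_filter.1 ht).2 ?_
    exact (Prod.ext_iff.1 hh).2
  have h6 : (univ.filter fun t : Z × Y × Y => t.2.1 ≠ t.2.2).card ≤
      Fintype.card Z * Fintype.card Y ^ 2 := by
    refine (card_le_univ _).trans (le_of_eq ?_)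
    rw [Fintype.card_prod, Fintype.card_prod, sq]
  calc _ ≤ _ := Nat.mul_le_mul_right _ ((card_le_card hsub).trans card_biUnion_le)
    _ = ∑ t ∈ (univ.filter fun t : Z × Y × Y => t.2.1 ≠ t.2.2),
        (univ.filter fun f : Z × Y → A => f (t.1, t.2.1) = top ∧ f (t.1, t.2.2) = top).card *
          Fintype.card A ^ 2 := sum_mul _ _ _
    _ = ∑ _t ∈ (univ.filter fun t : Z × Y × Y => t.2.1 ≠ t.2.2),
        Fintype.card A ^ Fintype.card (Z × Y) := sum_congr rfl h5
    _ = (univ.filter fun t : Z × Y × Y => t.2.1 ≠ t.2.2).card *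
        Fintype.card A ^ Fintype.card (Z × Y) := by rw [sum_const, smul_eq_mul]
    _ ≤ _ := Nat.mul_le_mul_right _ h6

theorem proj_le (top : A) (f : Z × Y → A) :
    (univ.filter fun z => ∃ y, f (z, y) = top).card ≤ (hits top f).card := by
  rw [C2_image]
  exact card_image_le

theorem proj_eq (top : A) (f : Z × Y → A)
    (h : ∀ z y y', f (z, y) = top → f (z, y') = top → y = y') :
    (univ.filter fun z => ∃ y, f (z, y) = top).card = (hits top f).card := by
  rw [C2_image]
  refine card_image_of_injOn ?_
  rintro ⟨z, y⟩ hy ⟨z', y'⟩ hy' hz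
  have hz' : z = z' := hz
  subst hz'
  have h1 : f (z, y) = top := (mem_filter.1 (mem_coe.1 hy)).2
  have h2 : f (z, y') = top := (mem_filter.1 (mem_coe.1 hy')).2
  rw [h z y y' h1 h2]

end Pool.Agent.LibRO74
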