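import Pool.Agent.LibSC59.Cor

/-!
Consequences of the need of advice (adapted from `LibSC59/Cor.lean`).
-/

namespace Pool.Agent.LibRO74

open Finset Filter Pool.Agent.LibNexp Pool.Agent.LibBHN Pool.Agent.LibNexp55 Pool.Agent.LibQry85
  Pool.Agent.LibDual85

variable {O : List Bool → Bool}

/-- Every program for a nondeterministic exponential time language errs on the complement of `L`,
with every advice of length at most `n - 4 log2 n`, at infinitely many lengths `n`. -/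
def Hard (O : List Bool → Bool) (L : Lang) : Prop :=
  L ∈ NEXPLang O ∧ ∀ B ∈ NEXPLang O, ∃ᶠ n in atTop, ∀ v : List Bool,
    v.length + 4 * Nat.log 2 n ≤ n → ∃ x : List Bool, x.length = n ∧ ¬ (x ∉ L ↔ pair x v ∈ B)

/-- Polynomials are at most exponentials, up to a constant. -/
theorem poly_le (c : ℕ) : ∃ d : ℕ, ∀ n : ℕ, n ^ c + c ≤ 2 ^ (n ^ 1 + 1) + d := by
  have h := tendsto_pow_const_div_const_pow_of_one_lt c (r := (2 : ℝ)) (by norm_num)
  have h2 := h.eventually_lt_const (show (0 : ℝ) < 1 by norm_num)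
  obtain ⟨N, hN⟩ := eventually_atTop.1 h2
  refine ⟨N ^ c + c, fun n => ?_⟩
  rcases le_total N n with h3 | h3
  · have h4 := hN n h3
    rw [div_lt_one (by positivity)] at h4
    have h5 : n ^ c ≤ 2 ^ n := by exact_mod_cast h4.le
    have h6 : 2 ^ n ≤ 2 ^ (n ^ 1 + 1) := Nat.pow_le_pow_right (by norm_num) (by simp)
    omega
  · exact (Nat.add_le_add_right (Nat.pow_le_pow_left h3 _) _).trans (Nat.le_add_left _ _)

/-- `2 log n ≤ 4 log2 n` for `2 ≤ n`. -/
theorem logb_le {n : ℕ} (hn : 2 ≤ n) : (1 + 1) * Real.logb 2 n ≤ 4 * (Nat.log 2 n : ℝ) := by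
  have h1 : (n : ℝ) < 2 ^ (Nat.log 2 n + 1) := by
    exact_mod_cast Nat.lt_pow_succ_log_self (by norm_num) n
  have h2 : Real.logb 2 n ≤ ((Nat.log 2 n + 1 : ℕ) : ℝ) := by
    rw [Real.logb_le_iff_le_rpow (by norm_num) (by positivity), Real.rpow_natCast]
    exact h1.le
  have h3 : 1 ≤ Nat.log 2 n := Nat.le_log_of_pow_le (by norm_num) (by simpa using hn)
  have h4 : (1 : ℝ) ≤ Nat.log 2 n := by exact_mod_cast h3
  push_cast at h2
  linarith

theorem hard_of {L : Lang} (hL : L ∈ NEXPLang O) (h : ∀ (c : ℕ) (B : Set (List Bool)),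
      NTime O (fun n => 2 ^ (2 ^ (n ^ 1 + 1) + c)) (fun e : Fin 1 → List Bool => e 0 ∈ B) →
      (∀ ε : ℝ, 0 < ε → ∀ᶠ n : ℕ in atTop, ∀ v : List Bool,
        (v.length : ℝ) + (1 + ε) * Real.logb 2 n ≤ n →
        ∃ x : List Bool, x.length = n ∧ ¬ (x ∉ L ↔ pair x v ∈ B)) ∧
      ∃ᶠ n : ℕ in atTop, ∀ v : List Bool, v.length + 10 ≤ n →
        ∃ x : List Bool, x.length = n ∧ ¬ (x ∉ L ↔ pair x v ∈ B)) : Hard O L := by
  refine ⟨hL, fun B hB => ?_⟩
  obtain ⟨c, p, hp⟩ := hB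
  obtain ⟨d, hd⟩ := poly_le c
  have h0 := (h d B ⟨p, fun e => ⟨(hp e).1, fun he => by
    obtain ⟨t, σ', ht, h1⟩ := (hp e).2 he
    exact ⟨t, σ', ht.trans (Nat.pow_le_pow_right (by norm_num) (hd (size e))), h1⟩⟩⟩).1 1 one_pos
  refine (h0.and (eventually_ge_atTop 2)).frequently.mono fun n hn v hv => hn.1 v ?_
  have h1 := logb_le hn.2
  have h2 : (v.length : ℝ) + 4 * (Nat.log 2 n : ℝ) ≤ n := by exact_mod_cast hv
  linarith

/-- Every advice short at all large lengths is wrong. -/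
theorem no_advice {L : Lang} (h : Hard O L) {ℱ : Set (ℕ → List Bool)}
    (hℱ : ∀ f ∈ ℱ, ∀ᶠ n in atTop, (f n).length + 4 * Nat.log 2 n ≤ n) :
    Lᶜ ∉ WithAdvice (NEXPLang O) ℱ := by
  rintro ⟨B, hB, f, hf, he⟩
  obtain ⟨n, hn, hC⟩ := ((h.2 B hB).and_eventually (hℱ f hf)).exists
  obtain ⟨x, hx, hne⟩ := hn (f n) hC
  refine hne ?_
  have := Set.ext_iff.1 he x
  rw [Set.mem_compl_iff, Set.mem_ofPred_eq, hx] at this
  exact this

/-- `C (log2 n + 1) ≤ n` for large `n`. -/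
theorem log_le (C : ℕ) : ∀ᶠ n : ℕ in atTop, C * (Nat.log 2 n + 1) ≤ n := by
  filter_upwards [eventually_ge_atTop (2 ^ (4 * C + 4))] with n hn
  have h1 : 4 * C + 4 ≤ Nat.log 2 n := Nat.le_log_of_pow_le (by norm_num) hn
  have h2 : 2 ^ Nat.log 2 n ≤ n := Nat.pow_log_le_self 2 (by
    have := Nat.two_pow_pos (4 * C + 4)
    omega)
  set l := Nat.log 2 n with hl
  have h3 : l = l / 2 + (l - l / 2) := by omega
  have h4 : l / 2 < 2 ^ (l / 2) := Nat.lt_two_pow_self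
  have h5 : l - l / 2 < 2 ^ (l - l / 2) := Nat.lt_two_pow_self
  have h6 : 2 ^ l = 2 ^ (l / 2) * 2 ^ (l - l / 2) := by rw [← pow_add, ← h3]
  have h7 : (2 * C) * (l - l / 2 + 1) ≤ 2 ^ (l / 2) * 2 ^ (l - l / 2) :=
    Nat.mul_le_mul (by omega) (by omega)
  have h8 : C * (l + 1) ≤ (2 * C) * (l - l / 2 + 1) := by
    have : l + 1 ≤ 2 * (l - l / 2 + 1) := by omega
    calc C * (l + 1) ≤ C * (2 * (l - l / 2 + 1)) := Nat.mul_le_mul_left _ this
      _ = _ := by ring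
  omega

theorem bh_infinite {L : Lang} (h : Hard O L) {m : ℕ} (hm : 1 ≤ m) : BH O m ≠ BH O (m + 1) := by
  intro hbh
  have h1 := (levels O hm).out 1 4
  refine no_advice h (fun f hf => ?_) (h1.1 hbh.symm (strs m) (by
    rw [card_strs]; exact Nat.lt_two_pow_self.le) L h.1)
  filter_upwards [log_le (m + 4)] with n hn
  rw [mem_strs.1 (hf n)]
  nlinarith

/-- Doubly exponential time is not closed under complement. -/
theorem not_closed {L : Lang} (h : Hard O L) : ¬ LibDown92.Closed O fun n => 2 ^ n := by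
  intro hC
  obtain ⟨c, hc⟩ := LibDown92.top_savings hC 6 L h.1
  refine no_advice h (fun f hf => ?_) hc
  filter_upwards [log_le (c + 6), eventually_ge_atTop (2 ^ (c + 2))] with n hn hn'
  have h1 := hf n
  have h2 : c + 2 ≤ Nat.log 2 n := Nat.le_log_of_pow_le (by norm_num) (by omega)
  have h3 : Nat.log 2 n ≤ Nat.log 2 (n + 1) := Nat.log_mono_right (by omega)
  change (f n).length ≤ n - 6 * Nat.log 2 (n + 1) + c at h1
  have h4 : (f n).length ≤ n - 6 * Nat.log 2 n + c := h1.trans (by omega)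
  have h5 : 6 * Nat.log 2 n ≤ n := by nlinarith
  omega

theorem not_more {L : Lang} (h : Hard O L) : ∃ L ∈ NEXPLang O, ∀ N ∈ NEXPLang O,
    ∃ᶠ m in atTop, 2 ^ m ≤ 2 * LibAV75.err Lᶜ N m := by
  have h1 : ¬ LibAV75.More O := fun h2 => not_closed h ((LibAV75.main4 O).1 h2)
  unfold LibAV75.More at h1
  push Not at h1
  obtain ⟨L, hL, h2⟩ := h1
  refine ⟨L, hL, fun N hN => (h2 N hN).mono fun m hm => ?_⟩
  exact hm

/-- The five conditions of `LibPow85.main` fail. -/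
theorem pow_fail {L : Lang} (h : Hard O L) :
    (∀ α β : ℚ, 0 ≤ α → α < β → ∃ L ∈ PQueryF (NEXPLang O) (LibPow85.fpow β), ∀ c : ℕ,
      L ∉ PQueryF (NEXPLang O) fun n => c * LibPow85.fpow α n + c) ∧
    ∀ k : ℕ, ∃ L ∈ POracle (NEXPLang O), ∀ c : ℕ,
      L ∉ PQueryF (NEXPLang O) fun n => c * n ^ k + c := by
  have h1 := LibPow85.main O
  have h6 : ¬ ∀ ε : ℝ, 0 < ε → Pw O ε := by
    intro h2
    obtain ⟨c, hc⟩ := h2 (1 / 2) (by norm_num) L h.1
    refine no_advice h (fun f hf => ?_) hc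
    have h3 : Tendsto (fun n : ℕ => ((n : ℝ) + 1) ^ (1 / 2 : ℝ)) atTop atTop :=
      (tendsto_rpow_atTop (by norm_num)).comp
        (tendsto_atTop_add_const_right _ _ tendsto_natCast_atTop_atTop)
    filter_upwards [h3.eventually_ge_atTop (2 * |c| + 3), log_le 8] with n hn hl
    have h4 : ((f n).length : ℝ) ≤ c * ((n : ℝ) + 1) ^ (1 / 2 : ℝ) := hf n
    have h5 : ((n : ℝ) + 1) ^ (1 / 2 : ℝ) * ((n : ℝ) + 1) ^ (1 / 2 : ℝ) = (n : ℝ) + 1 := by
      rw [← Real.rpow_add (by positivity)]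
      norm_num
    have h7 : c ≤ |c| := le_abs_self c
    have h8 : 0 ≤ |c| := abs_nonneg c
    have hl' : (8 : ℝ) * ((Nat.log 2 n : ℝ) + 1) ≤ n := by exact_mod_cast hl
    have h9 : ((f n).length : ℝ) + 4 * (Nat.log 2 n : ℝ) ≤ n := by nlinarith
    exact_mod_cast h9
  refine ⟨?_, ?_⟩
  · intro α β hα hαβ
    by_contra hcon
    push Not at hcon
    have h04 := h1.out 0 4
    exact h6 (h04.1 ⟨α, β, hα, hαβ, hcon⟩)
  · intro k
    by_contra hcon
    push Not at hcon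
    have h24 := h1.out 2 4
    exact h6 (h24.1 ⟨k, hcon⟩)

end Pool.Agent.LibRO74
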