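import Pool.Agent.LibRO74.Def

/-!
Different cells are different strings.
-/

namespace Pool.Agent.LibRO74

open Finset Pool.Agent.LibNexp Pool.Agent.LibBHN

theorem cell_inj {i i' : ℕ} {y y' z z' : List Bool} (hz : z.length = z'.length)
    (h : cell i z y = cell i' z' y') : i = i' ∧ z = z' ∧ y = y' := by
  unfold cell at h
  induction i generalizing i' with
  | zero =>
    cases i' with
    | zero =>
      simp only [List.replicate_zero, List.nil_append, List.cons.injEq, true_and] at h
      obtain ⟨h1, h2⟩ := List.append_inj h hz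
      exact ⟨rfl, h1, h2⟩
    | succ i' => simp [List.replicate_succ] at h
  | succ i ih =>
    cases i' with
    | zero => simp [List.replicate_succ] at h
    | succ i' =>
      simp only [List.replicate_succ, List.cons_append, List.cons.injEq, true_and] at h
      obtain ⟨h1, h2, h3⟩ := ih h
      exact ⟨by rw [h1], h2, h3⟩

theorem io_injective (m r : ℕ) : Function.Injective (io m r) := by
  rintro ⟨⟨z, y⟩, i⟩ ⟨⟨z', y'⟩, i'⟩ h
  unfold io at h
  obtain ⟨h1, h2, h3⟩ := cell_inj (by rw [List.Vector.length_val, List.Vector.length_val]) h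
  have e1 : z = z' := Subtype.ext h2
  have e2 : y = y' := Subtype.ext h3
  have e3 : i = i' := Fin.ext (by simpa using h1)
  rw [e1, e2, e3]

theorem ov_io (m r : ℕ) (f : GG m → AA m r) (O : List Bool → Bool) (g : GG m)
    (i : Fin (kk m r)) : ov m r f O (io m r (g, i)) = f g i := by
  unfold ov
  rw [(io_injective m r).extend_apply]

theorem ov_of (m r : ℕ) (f : GG m → AA m r) (O : List Bool → Bool) {s : List Bool}
    (hs : ∀ p, io m r p ≠ s) : ov m r f O s = O s := by
  unfold ov
  rw [Function.extend_apply']
  rintro ⟨p, hp⟩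
  exact hs p hp

theorem card_GG (m : ℕ) : Fintype.card (GG m) = 2 ^ m * 2 ^ (2 ^ m) := by
  rw [Fintype.card_prod, card_vector, card_vector, Fintype.card_bool]

theorem card_AA (m r : ℕ) : Fintype.card (AA m r) = 2 ^ (2 ^ m + (m - 2 * r)) := by
  rw [Fintype.card_fun, Fintype.card_bool, Fintype.card_fin]
  rfl

end Pool.Agent.LibRO74
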