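import Pool.Agent.LibRO74.D1

/-!
The number of strings which are hit.
-/

namespace Pool.Agent.LibRO74

open Finset Pool.Agent.LibNexp Pool.Agent.LibBHN

open Classical in
theorem hit_ov (m r : ℕ) (f : GG m → AA m r) (O : List Bool → Bool) (z : List.Vector Bool m) :
    Hit (ov m r f O) z.1 (List.replicate (m - 2 * r) false) ↔ ∃ y, f (z, y) = top m r := by
  have hz : z.1.length = m := z.2
  unfold Hit
  rw [hz, List.length_replicate]
  constructor
  · rintro ⟨y, hy, h⟩
    refine ⟨⟨y, hy⟩, ?_⟩
    funext i
    have h1 := h (i + 1) (by omega) (by have := i.2; unfold kk at this; omega)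
    have h2 := ov_io m r f O (z, ⟨y, hy⟩) i
    unfold io at h2
    rw [← h2]
    exact h1
  · rintro ⟨y, hy⟩
    refine ⟨y.1, y.2, fun i h1 h2 => ?_⟩
    have h3 := ov_io m r f O (z, y) ⟨i - 1, by unfold kk; omega⟩
    unfold io at h3
    simp only [Nat.sub_add_cancel h1] at h3
    rw [h3, hy]
    rfl

open Classical in
theorem cnt_ov (m r : ℕ) (f : GG m → AA m r) (O : List Bool → Bool) :
    cnt m (fun z => Hit (ov m r f O) z (List.replicate (m - 2 * r) false)) =
      (univ.filter fun z : List.Vector Bool m => ∃ y, f (z, y) = top m r).card := by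
  unfold cnt
  refine Finset.card_bij (fun t _ => (⟨bits m t, length_bits m t⟩ : List.Vector Bool m)) ?_ ?_ ?_
  · intro t ht
    exact mem_filter.2 ⟨mem_univ _, (hit_ov m r f O ⟨bits m t, length_bits m t⟩).1
      (mem_filter.1 ht).2⟩
  · intro t ht t' ht' h
    have h1 : bits m t = bits m t' := congrArg Subtype.val h
    rw [← val_bits (mem_range.1 (mem_filter.1 ht).1), ← val_bits (mem_range.1 (mem_filter.1 ht').1),
      h1]
  · intro z hz
    have hz1 : z.1.length = m := z.2
    have h1 : bits m (val z.1) = z.1 := by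
      have := bits_val z.1
      rwa [hz1] at this
    refine ⟨val z.1, ?_, Subtype.ext h1⟩
    rw [mem_filter, mem_range]
    refine ⟨?_, ?_⟩
    · have := val_lt z.1
      rwa [hz1] at this
    · rw [h1]
      exact (hit_ov m r f O z).2 (mem_filter.1 hz).2

end Pool.Agent.LibRO74
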