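import Pool.Agent.LibBHN.Count
import Pool.Agent.LibNexp.Use

/-!
Configurations with marked places; blocks of cells of a random oracle; the language.
-/

namespace Pool.Agent.LibRO74

open Finset Pool.Agent.LibNexp Pool.Agent.LibBHN

section conf

variable {G A : Type} [Fintype G] [DecidableEq G] [Fintype A] [DecidableEq A]

/-- The places where `f` has the value `top`. -/
def hits (top : A) (f : G → A) : Finset G := univ.filter fun g => f g = top

/-- `f` changed to `top` on `D`. -/
def plant (top : A) (D : Finset G) (f : G → A) : G → A := fun g => if g ∈ D then top else f g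

/-- The functions with exactly `i` hits. -/
def lev (G : Type) [Fintype G] [DecidableEq G] (top : A) (i : ℕ) : Finset (G → A) :=
  univ.filter fun f => (hits top f).card = i

end conf

/-- The cells of the block of `z` and `y`: `1^i 0 z y`. -/
def cell (i : ℕ) (z y : List Bool) : List Bool := List.replicate i true ++ false :: (z ++ y)

/-- Some `y` of length `2^|z|` for which `O` accepts the first `2^|z| + |q|` cells. -/
def Hit (O : List Bool → Bool) (z q : List Bool) : Prop :=
  ∃ y : List Bool, y.length = 2 ^ z.length ∧
    ∀ i, 1 ≤ i → i ≤ 2 ^ z.length + q.length → O (cell i z y) = true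

/-- The length of the strings `z` used for inputs of length `n`. -/
def mm (k n : ℕ) : ℕ := 5 * n + ((3 * n + 2) ^ k + k)

theorem mm_ge (k n : ℕ) : 5 * n ≤ mm k n := Nat.le_add_right _ _

/-- The language: `1^j 0 x'` is in it if there are at least `4^(|x'|-j) - 2^(|x'|-1) + val x'`
strings `z` of length `mm k n` which are hit. -/
def RLang (O : List Bool → Bool) (k : ℕ) : Set (List Bool) :=
  {x | ∃ (j : ℕ) (x' : List Bool), x = List.replicate j true ++ false :: x' ∧
    2 * j ≤ x'.length ∧ 1 ≤ x'.length ∧
    4 ^ (x'.length - j) + val x' ≤
      cnt (mm k x.length) (fun z => Hit O z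
        (List.replicate (mm k x.length - 2 * (x'.length - j)) false)) + 2 ^ (x'.length - 1)}

/-- The program `p` within `T` steps and with advice `v` decides the complement of `L` at length `n`. -/
def Good (O : List Bool → Bool) (L : Set (List Bool)) (p : Prog) (T n : ℕ) (v : List Bool) : Prop :=
  ∀ x : List Bool, x.length = n → (x ∉ L ↔ Acc O p T (pair x v))

/-- Running time on `⟨x, v⟩`, for `|x| = n` and `|v| = a`. -/
def tim (c k n a : ℕ) : ℕ := 2 ^ (2 ^ ((2 * n + 2 + a) ^ k + k) + c)

/-- The oracles for which `p` decides the complement at length `n` with some short advice. -/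
def Bad (p : Prog) (c k n : ℕ) : Set (List Bool → Bool) :=
  {O | ∃ v : List Bool, v.length + 4 * Nat.log 2 n ≤ n ∧
    Good O (RLang O k) p (tim c k n v.length) n v}

/-- The same, with advice of length at most `n - a`. -/
def BadG (p : Prog) (c k n a : ℕ) : Set (List Bool → Bool) :=
  {O | ∃ v : List Bool, v.length + a ≤ n ∧ Good O (RLang O k) p (tim c k n v.length) n v}

/-! The cells of all blocks -/

/-- The pairs `(z, y)`. -/
abbrev GG (m : ℕ) : Type := List.Vector Bool m × List.Vector Bool (2 ^ m)

/-- The number of cells of a block. -/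
def kk (m r : ℕ) : ℕ := 2 ^ m + (m - 2 * r)

/-- The contents of a block. -/
abbrev AA (m r : ℕ) : Type := Fin (kk m r) → Bool

/-- All ones. -/
def top (m r : ℕ) : AA m r := fun _ => true

/-- The string of a cell. -/
def io (m r : ℕ) (p : GG m × Fin (kk m r)) : List Bool := cell (p.2 + 1) p.1.1.1 p.1.2.1

/-- The oracle with the given contents in the blocks, and `O` elsewhere. -/
noncomputable def ov (m r : ℕ) (f : GG m → AA m r) (O : List Bool → Bool) : List Bool → Bool :=
  Function.extend (io m r) (fun p => f p.1 p.2) O

/-- No `z` has two full blocks. -/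
def NoDup (m r : ℕ) (f : GG m → AA m r) : Prop :=
  ∀ z y y', f (z, y) = top m r → f (z, y') = top m r → y = y'

end Pool.Agent.LibRO74
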