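import Pool.Agent.LibRO74.D2

/-!
[RO74 F0] Membership in the language in a fibre: `1^j 0 x'` determines `j` and `x'`; then unfold and
`cnt_ov`.
-/

namespace Pool.Agent.LibRO74

open Finset Pool.Agent.LibNexp Pool.Agent.LibBHN

private theorem F0_inj : ∀ {j j' : ℕ} {x x' : List Bool},
    List.replicate j true ++ false :: x = List.replicate j' true ++ false :: x' →
      j = j' ∧ x = x' := by
  intro j
  induction j with
  | zero =>
    intro j' x x' h
    cases j' with
    | zero => simpa using h
    | succ j' => simp [List.replicate_succ] at h
  | succ j ih =>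
    intro j' x x' h
    cases j' with
    | zero => simp [List.replicate_succ] at h
    | succ j' =>
      have h2 : List.replicate j true ++ false :: x = List.replicate j' true ++ false :: x' := by
        simpa [List.replicate_succ] using h
      obtain ⟨h3, h4⟩ := ih h2
      exact ⟨by rw [h3], h4⟩

open Classical in
theorem rlang_iff {k n j w r m : ℕ} (hn : n = j + 1 + w) (hj : 2 * j ≤ w) (hw : 1 ≤ w)
    (hr : r = w - j) (hm : m = mm k n) (f : GG m → AA m r) (O : List Bool → Bool)
    {x' : List Bool} (hx : x'.length = w) :
    List.replicate j true ++ false :: x' ∈ RLang (ov m r f O) k ↔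
      4 ^ r + val x' ≤ (univ.filter fun z : List.Vector Bool m => ∃ y, f (z, y) = top m r).card +
        2 ^ (w - 1) := by
  have hlen : (List.replicate j true ++ false :: x').length = n := by
    simp only [List.length_append, List.length_replicate, List.length_cons, hx, hn]
    omega
  have hc := cnt_ov m r f O
  unfold RLang
  constructor
  · rintro ⟨j', x'', he, _, _, h3⟩
    obtain ⟨e1, e2⟩ := F0_inj he
    subst e1
    subst e2
    rw [hlen, ← hm, hx, ← hr, hc] at h3
    exact h3
  · intro h
    refine ⟨j, x', rfl, by omega, by omega, ?_⟩
    rw [hlen, ← hm, hx, ← hr, hc]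
    exact h

end Pool.Agent.LibRO74
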