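import Pool.Agent.LibRO74.F0
import Pool.Agent.LibRO74.C2
import Pool.Agent.LibRO74.A1

/-!
[RO74 F1] The hole property (step 3 of the page).

For `f ∈ F` with `i` hits let `x_f = 1^j 0 bits w (i + 1 + 2^(w-1) - 4^r)` (a number `< 2^w` by the
window, as `2^(w-1) * 2 = 2^w`). It is not in the language (`rlang_iff`, `proj_le`), so
`Acc (ov f O) p T (pair x_f v)`; take `Q` from `acc_use` (LibNexp/Use), `C f = univ.filter fun g => ∃ i, io (g, i) ∈ Q`
(`card ≤ card Q`: injection choosing such a string, `io_injective`).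
If `f' = plant D f ∈ F`: `ov f' O = ov f O` on `Q`, so `Acc (ov f' O) p T (pair x_f v)`, so
`x_f` is not in the language for `f'`; but its number of hit `z` is `(hits f').card ≥ i + 1`
(`proj_eq`, `hits_plant`).
-/

namespace Pool.Agent.LibRO74

open Finset Pool.Agent.LibNexp Pool.Agent.LibBHN

private theorem F1_card {m r T : ℕ} (Q : Finset (List Bool)) (hQ : Q.card ≤ T) :
    ∃ C : Finset (GG m), C.card ≤ T ∧ ∀ g : GG m, ∀ i : Fin (kk m r), io m r (g, i) ∈ Q → g ∈ C := by
  classical
  refine ⟨univ.filter fun g => ∃ i, io m r (g, i) ∈ Q, ?_, ?_⟩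
  · refine le_trans ?_ hQ
    have h : ∀ g : GG m, g ∈ (univ.filter fun g : GG m => ∃ i, io m r (g, i) ∈ Q) →
        ∃ i, io m r (g, i) ∈ Q := by
      intro g hg
      exact (mem_filter.1 hg).2
    refine Finset.card_le_card_of_injOn
      (fun g => if h : ∃ i, io m r (g, i) ∈ Q then io m r (g, h.choose) else []) ?_ ?_
    · intro g hg
      have h1 := h g (by simpa using hg)
      simp only [h1, dite_true]
      exact h1.choose_spec
    · intro g hg g' hg' he
      have h1 := h g (by simpa using hg)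
      have h2 := h g' (by simpa using hg')
      simp only [h1, h2, dite_true] at he
      have h3 := io_injective m r he
      exact (Prod.mk.inj h3).1
  · intro g i hi
    exact mem_filter.2 ⟨mem_univ _, i, hi⟩

private theorem F1_one {k n j w r m : ℕ} (hn : n = j + 1 + w) (hj : 2 * j ≤ w) (hw : 1 ≤ w)
    (hr : r = w - j) (hm : m = mm k n) (p : Prog) (T : ℕ) (v : List Bool) (O : List Bool → Bool)
    (f : GG m → AA m r)
    (h2 : 4 ^ r ≤ (hits (top m r) f).card + 1 + 2 ^ (w - 1))
    (h3 : (hits (top m r) f).card + 1 < 4 ^ r + 2 ^ (w - 1))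
    (h4 : Good (ov m r f O) (RLang (ov m r f O) k) p T n v) :
    ∃ C : Finset (GG m), C.card ≤ T ∧ ∀ D : Finset (GG m), D.Nonempty →
      Disjoint D (hits (top m r) f) → Disjoint D C → NoDup m r (plant (top m r) D f) →
      ¬ Good (ov m r (plant (top m r) D f) O) (RLang (ov m r (plant (top m r) D f) O) k) p T n v := by
  classical
  have hw2 : 2 ^ w = 2 ^ (w - 1) + 2 ^ (w - 1) := by
    obtain ⟨w', rfl⟩ : ∃ w', w = w' + 1 := ⟨w - 1, by omega⟩
    simp [pow_succ]
    ring
  have hlt : (hits (top m r) f).card + 1 + 2 ^ (w - 1) - 4 ^ r < 2 ^ w := by omega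
  set x' : List Bool := bits w ((hits (top m r) f).card + 1 + 2 ^ (w - 1) - 4 ^ r) with hx'
  have hxl : x'.length = w := by simp [hx']
  have hv : val x' = (hits (top m r) f).card + 1 + 2 ^ (w - 1) - 4 ^ r := val_bits hlt
  have hlen : (List.replicate j true ++ false :: x').length = n := by
    simp [hxl]
    omega
  have hnot : (List.replicate j true ++ false :: x') ∉ RLang (ov m r f O) k := by
    rw [rlang_iff hn hj hw hr hm f O hxl, hv]
    have := proj_le (top m r) f
    have e : (univ.filter fun z : List.Vector Bool m => ∃ y, f (z, y) = top m r).card ≤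
      (hits (top m r) f).card := by
      refine le_trans (le_of_eq ?_) this
      congr
    omega
  have hacc := (h4 _ hlen).1 hnot
  obtain ⟨Q, hQ, hQ2⟩ := acc_use hacc
  obtain ⟨C, hC, hC2⟩ := F1_card (m := m) (r := r) Q hQ
  refine ⟨C, hC, fun D hD hDh hDC hnd hg => ?_⟩
  have hag : ∀ s ∈ Q, ov m r (plant (top m r) D f) O s = ov m r f O s := by
    intro s hs
    by_cases hp : ∃ q, io m r q = s
    · obtain ⟨⟨g, i⟩, rfl⟩ := hp
      rw [ov_io, ov_io]
      have hgC : g ∈ C := hC2 g i hs
      have hgD : g ∉ D := fun h => Finset.disjoint_left.1 hDC h hgC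
      simp [plant, hgD]
    · have hp' : ∀ q, io m r q ≠ s := fun q hq => hp ⟨q, hq⟩
      rw [ov_of m r _ O hp', ov_of m r _ O hp']
  have hacc' := hQ2 _ hag
  have hnot' := (hg _ hlen).2 hacc'
  apply hnot'
  rw [rlang_iff hn hj hw hr hm _ O hxl, hv]
  have e : (univ.filter fun z : List.Vector Bool m =>
      ∃ y, (plant (top m r) D f) (z, y) = top m r).card =
      (hits (top m r) (plant (top m r) D f)).card := by
    refine Eq.trans ?_ (proj_eq (top m r) (plant (top m r) D f) hnd)
    congr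
  rw [e, hits_plant, Finset.card_union_of_disjoint hDh.symm]
  have := hD.card_pos
  omega

theorem hole {k n j w r m : ℕ} (hn : n = j + 1 + w) (hj : 2 * j ≤ w) (hw : 1 ≤ w)
    (hr : r = w - j) (hm : m = mm k n) (p : Prog) (T : ℕ) (v : List Bool) (O : List Bool → Bool)
    {F : Finset (GG m → AA m r)}
    (hF : ∀ f ∈ F, NoDup m r f ∧ 4 ^ r ≤ (hits (top m r) f).card + 1 + 2 ^ (w - 1) ∧
      (hits (top m r) f).card + 1 < 4 ^ r + 2 ^ (w - 1) ∧
      Good (ov m r f O) (RLang (ov m r f O) k) p T n v) :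
    ∃ C : (GG m → AA m r) → Finset (GG m), (∀ f ∈ F, (C f).card ≤ T) ∧
      ∀ f ∈ F, ∀ D : Finset (GG m), D.Nonempty → Disjoint D (hits (top m r) f) →
        Disjoint D (C f) → plant (top m r) D f ∉ F := by
  classical
  have h : ∀ f : GG m → AA m r, ∃ C : Finset (GG m), f ∈ F → C.card ≤ T ∧
      ∀ D : Finset (GG m), D.Nonempty → Disjoint D (hits (top m r) f) → Disjoint D C →
      NoDup m r (plant (top m r) D f) →
      ¬ Good (ov m r (plant (top m r) D f) O) (RLang (ov m r (plant (top m r) D f) O) k) p T n v := by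
    intro f
    by_cases hf : f ∈ F
    · obtain ⟨-, a, b, c⟩ := hF f hf
      obtain ⟨C, hC⟩ := F1_one hn hj hw hr hm p T v O f a b c
      exact ⟨C, fun _ => hC⟩
    · exact ⟨∅, fun h => absurd h hf⟩
  choose C hC using h
  refine ⟨C, fun f hf => (hC f hf).1, fun f hf D hD hDh hDC hm' => ?_⟩
  obtain ⟨a, -, -, b⟩ := hF _ hm'
  exact (hC f hf).2 D hD hDh hDC a b

end Pool.Agent.LibRO74
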