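import Pool.Agent.LibRO74.F1
import Pool.Agent.LibRO74.C1

/-!
[RO74 F2] One advice in a fibre: `hole` and `cube` with `lo = 4^r - 1 - 2^(w-1)`, `J = 2^w` (the
levels `lo ≤ i < lo + J`; natural subtraction is harmless; `2^(w-1) * 2 = 2^w`), `T = tim c k n v.length
≤ tim c k n n`, `2^w ≤ 2^n`, `4^r ≤ 4^n`. `card_GG`, `card_AA`: `card GG = 4^r * card AA` as `2r ≤ m`
(`r ≤ n`, `5n ≤ m`), `2 ≤ card AA`.
-/

namespace Pool.Agent.LibRO74

open Finset Pool.Agent.LibNexp Pool.Agent.LibBHN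

theorem card_eq {k n j w r m : ℕ} (hn : n = j + 1 + w) (hr : r = w - j) (hm : m = mm k n) :
    Fintype.card (GG m) = 4 ^ r * Fintype.card (AA m r) ∧ 2 ≤ Fintype.card (AA m r) := by
  have h2r : 2 * r ≤ m := by
    have h1 := mm_ge k n
    omega
  have hG : Fintype.card (GG m) = 2 ^ m * 2 ^ (2 ^ m) := by
    simp [GG]
  have hA : Fintype.card (AA m r) = 2 ^ (2 ^ m + (m - 2 * r)) := by
    rw [Fintype.card_fun, Fintype.card_fin, Fintype.card_bool, kk]
  have h4 : (4 : ℕ) ^ r = 2 ^ (2 * r) := by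
    rw [pow_mul]; norm_num
  refine ⟨?_, ?_⟩
  · rw [hG, hA, h4, ← pow_add, ← pow_add]
    congr 1
    omega
  · rw [hA]
    have h5 : 1 ≤ 2 ^ m := Nat.one_le_two_pow
    calc 2 = 2 ^ 1 := by norm_num
      _ ≤ 2 ^ (2 ^ m + (m - 2 * r)) := Nat.pow_le_pow_right (by norm_num) (by omega)

private theorem F2_tim_mono {c k n a b : ℕ} (h : a ≤ b) : tim c k n a ≤ tim c k n b := by
  unfold tim
  refine Nat.pow_le_pow_right (by norm_num) ?_
  have h2 : (2 * n + 2 + a) ^ k ≤ (2 * n + 2 + b) ^ k := Nat.pow_le_pow_left (by omega) _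
  have h1 : 2 ^ ((2 * n + 2 + a) ^ k + k) ≤ 2 ^ ((2 * n + 2 + b) ^ k + k) :=
    Nat.pow_le_pow_right (by norm_num) (by omega)
  omega

open Classical in
theorem fv_card {c k n j w r m : ℕ} (hn : n = j + 1 + w) (hj : 2 * j ≤ w) (hw : 1 ≤ w)
    (hr : r = w - j) (hm : m = mm k n)
    (hT : 2 * 2 ^ n * tim c k n n + 2 * 4 ^ n ≤ 2 ^ (2 ^ m)) (p : Prog) (O : List Bool → Bool)
    (v : List Bool) (hv : v.length ≤ n) :
    (univ.filter fun f : GG m → AA m r =>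
      NoDup m r f ∧ 4 ^ r ≤ (hits (top m r) f).card + 1 + 2 ^ (w - 1) ∧
      (hits (top m r) f).card + 1 < 4 ^ r + 2 ^ (w - 1) ∧
      Good (ov m r f O) (RLang (ov m r f O) k) p (tim c k n v.length) n v).card * 2 ^ r ≤
      8 * Fintype.card (AA m r) ^ Fintype.card (GG m) := by
  obtain ⟨hGA, hA⟩ := card_eq (k := k) hn hr hm
  set F := univ.filter fun f : GG m → AA m r =>
      NoDup m r f ∧ 4 ^ r ≤ (hits (top m r) f).card + 1 + 2 ^ (w - 1) ∧
      (hits (top m r) f).card + 1 < 4 ^ r + 2 ^ (w - 1) ∧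
      Good (ov m r f O) (RLang (ov m r f O) k) p (tim c k n v.length) n v with hFdef
  have hmem : ∀ f ∈ F, NoDup m r f ∧ 4 ^ r ≤ (hits (top m r) f).card + 1 + 2 ^ (w - 1) ∧
      (hits (top m r) f).card + 1 < 4 ^ r + 2 ^ (w - 1) ∧
      Good (ov m r f O) (RLang (ov m r f O) k) p (tim c k n v.length) n v := by
    intro f hf
    exact (mem_filter.1 hf).2
  obtain ⟨C, hC, hCF⟩ := hole hn hj hw hr hm p (tim c k n v.length) v O hmem
  have h2w : 2 ^ w = 2 * 2 ^ (w - 1) := by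
    rw [← pow_succ']
    congr 1
    omega
  refine cube (top m r) (r := r) (T := tim c k n v.length) (lo := 4 ^ r - 1 - 2 ^ (w - 1))
    (J := 2 ^ w) hA hGA ?_ ?_ C hC hCF
  · have hG : Fintype.card (GG m) = 2 ^ m * 2 ^ (2 ^ m) := by
      simp [GG]
    have h1 : 2 ^ (2 ^ m) ≤ 2 ^ m * 2 ^ (2 ^ m) := Nat.le_mul_of_pos_left _ (by positivity)
    have h2 : 2 * 2 ^ w * tim c k n v.length ≤ 2 * 2 ^ n * tim c k n n := by
      refine Nat.mul_le_mul ?_ (F2_tim_mono hv)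
      exact Nat.mul_le_mul_left _ (Nat.pow_le_pow_right (by norm_num) (by omega))
    have h3 : 4 ^ r ≤ 4 ^ n := Nat.pow_le_pow_right (by norm_num) (by omega)
    have h4 : 2 ^ w ≤ 4 ^ n := by
      calc 2 ^ w ≤ 2 ^ n := Nat.pow_le_pow_right (by norm_num) (by omega)
        _ ≤ 4 ^ n := Nat.pow_le_pow_left (by norm_num) _
    rw [hG]
    omega
  · intro f hf
    obtain ⟨-, h5, h6, -⟩ := hmem f hf
    rw [h2w]
    generalize (2 : ℕ) ^ (w - 1) = W at *
    generalize (4 : ℕ) ^ r = R at *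
    constructor <;> omega

end Pool.Agent.LibRO74
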