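import Pool.Agent.LibRO74.A1

/-!
[RO74 T1] Chernoff's bound for the number of hits. `a = card A`, `M = card G = lam * a`.

`mgf`: `∑_f ∏_g (if f g = top then x else 1) = ∏_g ∑_b (if b = top then x else 1)` (`Finset.prod_univ_sum`,
`Fintype.piFinset_univ`), `x ^ (hits top f).card` is the product (`Finset.prod_ite`, `Finset.prod_const`).
`chern`: with `θ = d / (2 lam) ≤ 1`, `|exp (± θ) - 1 ∓ θ| ≤ θ²` (`Real.abs_exp_sub_one_sub_id_le`):
upper part: `card * exp (θ (lam + d)) ≤ ∑ exp θ ^ hits = (exp θ + a - 1)^M ≤ a^M exp (lam (exp θ - 1))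
≤ a^M exp (lam (θ + θ²))` (`1 + y ≤ exp y` with `y = (exp θ - 1)/a`), so `card ≤ a^M exp (lam θ² - θ d)
= a^M exp (- d²/(4 lam))`; lower part the same with `exp (-θ)`.
-/

namespace Pool.Agent.LibRO74

open Finset

variable {G A : Type} [Fintype G] [DecidableEq G] [Fintype A] [DecidableEq A]

theorem mgf (top : A) (x : ℝ) : ∑ f : G → A, x ^ (hits top f).card =
    (x + (Fintype.card A - 1)) ^ Fintype.card G := by
  have h1 : ∀ f : G → A, x ^ (hits top f).card = ∏ g, (if f g = top then x else 1) := by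
    intro f
    rw [Finset.prod_ite, Finset.prod_const, Finset.prod_const_one, mul_one]
    rfl
  have h2 : ∏ _g : G, ∑ b : A, (if b = top then x else 1) =
      ∑ f ∈ Fintype.piFinset (fun _ : G => (univ : Finset A)),
        ∏ g, (if f g = top then x else 1) :=
    Finset.prod_univ_sum (fun _ : G => (univ : Finset A)) (fun _ b => if b = top then x else 1)
  rw [Fintype.piFinset_univ] at h2
  rw [Finset.sum_congr rfl (fun f _ => h1 f), ← h2, Finset.prod_const, Finset.card_univ]
  congr 1
  rw [Finset.sum_ite, Finset.sum_const, Finset.sum_const]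
  have h3 : (univ.filter fun b : A => b = top) = {top} := by
    ext b
    simp
  have h4 : (univ.filter fun b : A => ¬ b = top).card = Fintype.card A - 1 := by
    rw [Finset.filter_not, h3, Finset.card_sdiff_of_subset (Finset.subset_univ _),
      Finset.card_univ, Finset.card_singleton]
  have ha : 1 ≤ Fintype.card A := Fintype.card_pos_iff.2 ⟨top⟩
  rw [h3, h4, Finset.card_singleton, one_smul, nsmul_eq_mul, mul_one]
  push_cast [Nat.cast_sub ha]
  rfl

/-- one tail: weight `exp (t * hits)` -/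
private theorem T1_tail (top : A) {lam : ℕ} (hG : Fintype.card G = lam * Fintype.card A)
    (t c : ℝ) (ht : |t| ≤ 1) (S : Finset (G → A))
    (hS : ∀ f ∈ S, c ≤ t * (hits top f).card) :
    (S.card : ℝ) ≤ Real.exp (lam * (t + t ^ 2) - c) *
      (Fintype.card A : ℝ) ^ Fintype.card G := by
  have ha : 1 ≤ Fintype.card A := Fintype.card_pos_iff.2 ⟨top⟩
  have haR : (1 : ℝ) ≤ (Fintype.card A : ℝ) := by exact_mod_cast ha
  have ha0 : (0 : ℝ) < (Fintype.card A : ℝ) := by linarith
  have h1 : (S.card : ℝ) * Real.exp c ≤ ∑ f : G → A, (Real.exp t) ^ (hits top f).card := by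
    rw [← nsmul_eq_mul, ← Finset.sum_const]
    refine le_trans (Finset.sum_le_sum ?_)
      (Finset.sum_le_sum_of_subset_of_nonneg (Finset.subset_univ S)
        (fun f _ _ => by positivity))
    intro f hf
    rw [← Real.exp_nat_mul]
    apply Real.exp_le_exp.2
    rw [mul_comm]
    exact hS f hf
  rw [mgf] at h1
  have h2 : Real.exp t + ((Fintype.card A : ℝ) - 1) ≤
      (Fintype.card A : ℝ) * Real.exp ((Real.exp t - 1) / Fintype.card A) := by
    have h3 := Real.add_one_le_exp ((Real.exp t - 1) / (Fintype.card A : ℝ))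
    have h4 := mul_le_mul_of_nonneg_left h3 ha0.le
    have h5 : (Fintype.card A : ℝ) * ((Real.exp t - 1) / (Fintype.card A : ℝ) + 1) =
        Real.exp t + ((Fintype.card A : ℝ) - 1) := by
      field_simp
      ring
    rw [h5] at h4
    exact h4
  have h0 : 0 ≤ Real.exp t + ((Fintype.card A : ℝ) - 1) := by
    have := Real.exp_pos t
    linarith
  have h3 := pow_le_pow_left₀ h0 h2 (Fintype.card G)
  have h4 : ((Fintype.card A : ℝ) * Real.exp ((Real.exp t - 1) / Fintype.card A)) ^
      Fintype.card G = (Fintype.card A : ℝ) ^ Fintype.card G *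
        Real.exp (lam * (Real.exp t - 1)) := by
    rw [mul_pow, ← Real.exp_nat_mul]
    congr 2
    rw [hG]
    push_cast
    field_simp
  rw [h4] at h3
  have h5 : Real.exp (lam * (Real.exp t - 1)) ≤ Real.exp (lam * (t + t ^ 2)) := by
    apply Real.exp_le_exp.2
    have h6 := Real.abs_exp_sub_one_sub_id_le ht
    have h7 := (abs_le.1 h6).2
    exact mul_le_mul_of_nonneg_left (by linarith) (by positivity)
  have hp : (0 : ℝ) ≤ (Fintype.card A : ℝ) ^ Fintype.card G := by positivity
  have h6 := (h1.trans h3).trans (mul_le_mul_of_nonneg_left h5 hp)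
  rw [Real.exp_sub, div_mul_eq_mul_div, le_div_iff₀ (Real.exp_pos c)]
  linarith

theorem chern (top : A) {lam d : ℕ} (hG : Fintype.card G = lam * Fintype.card A) (hl : 1 ≤ lam)
    (hd : d ≤ lam) :
    ((univ.filter fun f : G → A =>
      ¬ (lam < (hits top f).card + d ∧ (hits top f).card < lam + d)).card : ℝ) ≤
      2 * Real.exp (-((d : ℝ) ^ 2 / (4 * lam))) * (Fintype.card A : ℝ) ^ Fintype.card G := by
  have hl0 : (0 : ℝ) < lam := by exact_mod_cast hl
  have hdR : (d : ℝ) ≤ lam := by exact_mod_cast hd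
  have hd0 : (0 : ℝ) ≤ d := by positivity
  set θ : ℝ := (d : ℝ) / (2 * lam) with hθ
  have hθ0 : 0 ≤ θ := by positivity
  have hθ1 : θ ≤ 1 := by
    rw [hθ, div_le_one (by positivity)]
    linarith
  have hkey : (lam : ℝ) * θ ^ 2 - θ * d = -((d : ℝ) ^ 2 / (4 * lam)) := by
    rw [hθ]
    field_simp
    ring
  set U := univ.filter fun f : G → A => lam + d ≤ (hits top f).card with hU
  set L := univ.filter fun f : G → A => (hits top f).card + d ≤ lam with hL
  have hU1 : (U.card : ℝ) ≤ Real.exp (lam * (θ + θ ^ 2) - θ * (lam + d)) *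
      (Fintype.card A : ℝ) ^ Fintype.card G := by
    refine T1_tail top hG θ (θ * (lam + d)) (by rw [abs_of_nonneg hθ0]; exact hθ1) U ?_
    intro f hf
    have h := (Finset.mem_filter.1 hf).2
    have h' : (lam : ℝ) + d ≤ ((hits top f).card : ℝ) := by exact_mod_cast h
    exact mul_le_mul_of_nonneg_left h' hθ0
  have hL1 : (L.card : ℝ) ≤ Real.exp (lam * (-θ + (-θ) ^ 2) - (-θ) * (lam - d)) *
      (Fintype.card A : ℝ) ^ Fintype.card G := by
    refine T1_tail top hG (-θ) ((-θ) * (lam - d))
      (by rw [abs_neg, abs_of_nonneg hθ0]; exact hθ1) L ?_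
    intro f hf
    have h := (Finset.mem_filter.1 hf).2
    have h' : ((hits top f).card : ℝ) + d ≤ lam := by exact_mod_cast h
    nlinarith
  have e1 : (lam : ℝ) * (θ + θ ^ 2) - θ * (lam + d) = -((d : ℝ) ^ 2 / (4 * lam)) := by
    rw [← hkey]
    ring
  have e2 : (lam : ℝ) * (-θ + (-θ) ^ 2) - (-θ) * (lam - d) = -((d : ℝ) ^ 2 / (4 * lam)) := by
    rw [← hkey]
    ring
  rw [e1] at hU1
  rw [e2] at hL1
  have hsub : (univ.filter fun f : G → A =>
      ¬ (lam < (hits top f).card + d ∧ (hits top f).card < lam + d)) ⊆ U ∪ L := by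
    intro f hf
    have hf' := (Finset.mem_filter.1 hf).2
    rw [Finset.mem_union, hU, hL, Finset.mem_filter, Finset.mem_filter]
    by_contra hc
    apply hf'
    push Not at hc
    have h1 := hc.1 (Finset.mem_univ f)
    have h2 := hc.2 (Finset.mem_univ f)
    omega
  have hc := (Finset.card_le_card hsub).trans (Finset.card_union_le U L)
  have hc' : ((univ.filter fun f : G → A =>
      ¬ (lam < (hits top f).card + d ∧ (hits top f).card < lam + d)).card : ℝ) ≤
      (U.card : ℝ) + (L.card : ℝ) := by exact_mod_cast hc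
  refine hc'.trans ?_
  have : 2 * Real.exp (-((d : ℝ) ^ 2 / (4 * lam))) * (Fintype.card A : ℝ) ^ Fintype.card G =
      Real.exp (-((d : ℝ) ^ 2 / (4 * lam))) * (Fintype.card A : ℝ) ^ Fintype.card G +
      Real.exp (-((d : ℝ) ^ 2 / (4 * lam))) * (Fintype.card A : ℝ) ^ Fintype.card G := by ring
  rw [this]
  exact add_le_add hU1 hL1

end Pool.Agent.LibRO74
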