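import Pool.Agent.LibRO74.F2
import Pool.Agent.LibRO74.B2
import Pool.Agent.LibRO74.T1

/-!
[RO74 F3] The bound in a fibre (steps 1, 2, 4 of the page).

The bad `f` are: not in the window (`cheb` with `lam = 4^r`, `d = 2^(w-1) - 1`: if
`4^r < hits + d` and `hits < 4^r + d` then the window conditions of `fv_card` hold), or with a
duplicate (`dup_card`, `card_GG`, `card_AA`: `2^m (2^(2^m))² / (2^(2^m + m - 2r))² = 4^(2r)/2^m`), or in
the set of `fv_card` for some `v` with `|v| ≤ a = n - 4 log2 n` (at most `2^(a+1)` strings, `strs_le`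
below).
-/

namespace Pool.Agent.LibRO74

open Finset Pool.Agent.LibNexp Pool.Agent.LibBHN

private theorem F3_strs (a : ℕ) : ∃ S : Finset (List Bool), S.card + 1 ≤ 2 ^ (a + 1) ∧
    ∀ v : List Bool, v.length ≤ a → v ∈ S := by
  classical
  induction a with
  | zero =>
    refine ⟨{[]}, by simp, fun v hv => ?_⟩
    have : v = [] := List.length_eq_zero_iff.mp (by omega)
    simp [this]
  | succ a ih =>
    obtain ⟨S, hS, h⟩ := ih
    refine ⟨insert [] (S.image (List.cons true) ∪ S.image (List.cons false)), ?_, ?_⟩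
    · have h1 := Finset.card_insert_le ([] : List Bool)
        (S.image (List.cons true) ∪ S.image (List.cons false))
      have h2 := Finset.card_union_le (S.image (List.cons true)) (S.image (List.cons false))
      have h3 : (S.image (List.cons true)).card ≤ S.card := Finset.card_image_le
      have h4 : (S.image (List.cons false)).card ≤ S.card := Finset.card_image_le
      have h5 : 2 ^ (a + 1 + 1) = 2 * 2 ^ (a + 1) := by rw [pow_succ]; ring
      omega
    · intro v hv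
      cases v with
      | nil => simp
      | cons b v =>
        have hv' : v ∈ S := h v (by simpa using hv)
        cases b
        · simp [hv']
        · simp [hv']

theorem strs_le (a : ℕ) : ∃ S : Finset (List Bool), S.card ≤ 2 ^ (a + 1) ∧
    ∀ v : List Bool, v.length ≤ a → v ∈ S := by
  obtain ⟨S, hS, h⟩ := F3_strs a
  exact ⟨S, by omega, h⟩

private theorem F3_dup {m r : ℕ} (h : 2 * r ≤ m) {X P : ℝ}
    (hX : X * ((2 : ℝ) ^ (2 ^ m + (m - 2 * r))) ^ 2 ≤ 2 ^ m * (2 ^ (2 ^ m)) ^ 2 * P) :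
    X ≤ 4 ^ (2 * r) / 2 ^ m * P := by
  have e1 : ((2 : ℝ) ^ (2 ^ m + (m - 2 * r))) ^ 2 = (2 ^ (2 ^ m)) ^ 2 * 2 ^ (2 * (m - 2 * r)) := by
    rw [pow_add, mul_pow, ← pow_mul (2 : ℝ) (m - 2 * r) 2, mul_comm (m - 2 * r) 2]
  have e2 : (2 : ℝ) ^ (2 * (m - 2 * r)) * 4 ^ (2 * r) = 2 ^ m * 2 ^ m := by
    rw [show (4 : ℝ) = 2 ^ 2 by norm_num, ← pow_mul, ← pow_add, ← pow_add]
    congr 1
    omega
  have hA : (0 : ℝ) < (2 ^ (2 ^ m)) ^ 2 := by positivity
  have hB : (0 : ℝ) < 2 ^ (2 * (m - 2 * r)) := by positivity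
  have hM : (0 : ℝ) < 2 ^ m := by positivity
  rw [e1] at hX
  have h1 : X * 2 ^ (2 * (m - 2 * r)) ≤ 2 ^ m * P := by
    refine le_of_mul_le_mul_left ?_ hA
    linarith [hX]
  rw [div_mul_eq_mul_div, le_div_iff₀ hM]
  refine le_of_mul_le_mul_left ?_ hB
  calc 2 ^ (2 * (m - 2 * r)) * (X * 2 ^ m) = (X * 2 ^ (2 * (m - 2 * r))) * 2 ^ m := by ring
    _ ≤ (2 ^ m * P) * 2 ^ m := mul_le_mul_of_nonneg_right h1 hM.le
    _ = (2 ^ m * 2 ^ m) * P := by ring
    _ = 2 ^ (2 * (m - 2 * r)) * (4 ^ (2 * r) * P) := by rw [← e2]; ring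

open Classical in
/-- The bound in a fibre, with any bound `W` for the probability of leaving the window. -/
theorem fibreW {c k n j w r m a : ℕ} {W : ℝ} (hn : n = j + 1 + w) (hj : 2 * j ≤ w) (hw : 2 ≤ w)
    (hr : r = w - j) (hm : m = mm k n)
    (hT : 2 * 2 ^ n * tim c k n n + 2 * 4 ^ n ≤ 2 ^ (2 ^ m)) (p : Prog) (O : List Bool → Bool)
    (hW' : (((univ.filter fun f : GG m → AA m r =>
        ¬ (4 ^ r < (hits (top m r) f).card + (2 ^ (w - 1) - 1) ∧
          (hits (top m r) f).card < 4 ^ r + (2 ^ (w - 1) - 1))).card : ℕ) : ℝ) ≤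
      W * (Fintype.card (AA m r) : ℝ) ^ Fintype.card (GG m)) :
    ((univ.filter fun f : GG m → AA m r => ov m r f O ∈ BadG p c k n a).card : ℝ) ≤
      (2 ^ (n - a + 1) * (8 / 2 ^ r) + W +
        4 ^ (2 * r) / 2 ^ m) * (Fintype.card (AA m r) : ℝ) ^ Fintype.card (GG m) := by
  have hrm : 2 * r ≤ m := by
    have h1 : r ≤ n := by omega
    have h2 : 2 * n ≤ m := by
      have := mm_ge k n
      omega
    omega
  have hd2 : 2 ≤ 2 ^ (w - 1) := by
    calc 2 = 2 ^ 1 := by norm_num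
      _ ≤ 2 ^ (w - 1) := Nat.pow_le_pow_right (by norm_num) (by omega)
  obtain ⟨S, hS, hSm⟩ := strs_le (n - a)
  -- the three parts
  have hsub : (univ.filter fun f : GG m → AA m r => ov m r f O ∈ BadG p c k n a) ⊆
      ((univ.filter fun f : GG m → AA m r =>
        ¬ (4 ^ r < (hits (top m r) f).card + (2 ^ (w - 1) - 1) ∧
          (hits (top m r) f).card < 4 ^ r + (2 ^ (w - 1) - 1))) ∪
      (univ.filter fun f : GG m → AA m r =>
        ∃ z y y', f (z, y) = top m r ∧ f (z, y') = top m r ∧ y ≠ y')) ∪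
      ((S.filter fun v => v.length ≤ n).biUnion fun v =>
        univ.filter fun f : GG m → AA m r =>
          NoDup m r f ∧ 4 ^ r ≤ (hits (top m r) f).card + 1 + 2 ^ (w - 1) ∧
          (hits (top m r) f).card + 1 < 4 ^ r + 2 ^ (w - 1) ∧
          Good (ov m r f O) (RLang (ov m r f O) k) p (tim c k n v.length) n v) := by
    intro f hf
    rw [Finset.mem_filter] at hf
    obtain ⟨-, v, hv, hgood⟩ := hf
    rw [Finset.mem_union, Finset.mem_union]
    by_cases h1 : (4 ^ r < (hits (top m r) f).card + (2 ^ (w - 1) - 1) ∧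
          (hits (top m r) f).card < 4 ^ r + (2 ^ (w - 1) - 1))
    · by_cases h2 : ∃ z y y', f (z, y) = top m r ∧ f (z, y') = top m r ∧ y ≠ y'
      · left; right
        rw [Finset.mem_filter]
        exact ⟨Finset.mem_univ _, h2⟩
      · right
        rw [Finset.mem_biUnion]
        refine ⟨v, ?_, ?_⟩
        · rw [Finset.mem_filter]
          exact ⟨hSm v (by omega), by omega⟩
        · rw [Finset.mem_filter]
          refine ⟨Finset.mem_univ _, ?_, by omega, by omega, hgood⟩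
          intro z y y' ha hb
          by_contra hne
          exact h2 ⟨z, y, y', ha, hb, hne⟩
    · left; left
      rw [Finset.mem_filter]
      exact ⟨Finset.mem_univ _, h1⟩
  have hcard := (Finset.card_le_card hsub).trans ((Finset.card_union_le _ _).trans
    (Nat.add_le_add_right (Finset.card_union_le _ _) _))
  have hDp := dup_card (Z := List.Vector Bool m) (Y := List.Vector Bool (2 ^ m)) (A := AA m r)
    (top m r)
  have hF : ∀ v ∈ S.filter fun v => v.length ≤ n,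
      (((univ.filter fun f : GG m → AA m r =>
          NoDup m r f ∧ 4 ^ r ≤ (hits (top m r) f).card + 1 + 2 ^ (w - 1) ∧
          (hits (top m r) f).card + 1 < 4 ^ r + 2 ^ (w - 1) ∧
          Good (ov m r f O) (RLang (ov m r f O) k) p (tim c k n v.length) n v).card : ℕ) : ℝ) ≤
        8 / 2 ^ r * (Fintype.card (AA m r) : ℝ) ^ Fintype.card (GG m) := by
    intro v hv
    have h := fv_card hn hj (by omega) hr hm hT p O v (Finset.mem_filter.mp hv).2
    have h' : (((univ.filter fun f : GG m → AA m r =>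
          NoDup m r f ∧ 4 ^ r ≤ (hits (top m r) f).card + 1 + 2 ^ (w - 1) ∧
          (hits (top m r) f).card + 1 < 4 ^ r + 2 ^ (w - 1) ∧
          Good (ov m r f O) (RLang (ov m r f O) k) p (tim c k n v.length) n v).card : ℕ) : ℝ) *
          2 ^ r ≤ 8 * (Fintype.card (AA m r) : ℝ) ^ Fintype.card (GG m) := by
      exact_mod_cast h
    rw [div_mul_eq_mul_div, le_div_iff₀ (by positivity)]
    exact h'
  have hP : (0 : ℝ) ≤ (Fintype.card (AA m r) : ℝ) ^ Fintype.card (GG m) := by positivity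
  -- the union over the advice strings
  have hB : ((((S.filter fun v => v.length ≤ n).biUnion fun v =>
        univ.filter fun f : GG m → AA m r =>
          NoDup m r f ∧ 4 ^ r ≤ (hits (top m r) f).card + 1 + 2 ^ (w - 1) ∧
          (hits (top m r) f).card + 1 < 4 ^ r + 2 ^ (w - 1) ∧
          Good (ov m r f O) (RLang (ov m r f O) k) p (tim c k n v.length) n v).card : ℕ) : ℝ) ≤
      2 ^ (n - a + 1) * (8 / 2 ^ r) *
        (Fintype.card (AA m r) : ℝ) ^ Fintype.card (GG m) := by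
    refine (Nat.cast_le.mpr Finset.card_biUnion_le).trans ?_
    rw [Nat.cast_sum]
    refine (Finset.sum_le_sum hF).trans ?_
    rw [Finset.sum_const, nsmul_eq_mul, mul_assoc]
    refine mul_le_mul_of_nonneg_right ?_ (by positivity)
    have h1 : (S.filter fun v => v.length ≤ n).card ≤ 2 ^ (n - a + 1) :=
      (Finset.card_filter_le _ _).trans hS
    exact_mod_cast h1
  have hD' : (((univ.filter fun f : GG m → AA m r =>
        ∃ z y y', f (z, y) = top m r ∧ f (z, y') = top m r ∧ y ≠ y').card : ℕ) : ℝ) ≤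
      4 ^ (2 * r) / 2 ^ m * (Fintype.card (AA m r) : ℝ) ^ Fintype.card (GG m) := by
    refine F3_dup hrm ?_
    have hZ : Fintype.card (List.Vector Bool m) = 2 ^ m := by
      rw [card_vector, Fintype.card_bool]
    have hY : Fintype.card (List.Vector Bool (2 ^ m)) = 2 ^ (2 ^ m) := by
      rw [card_vector, Fintype.card_bool]
    rw [hZ, hY] at hDp
    have hA : ((Fintype.card (AA m r) : ℕ) : ℝ) = 2 ^ (2 ^ m + (m - 2 * r)) := by
      rw [card_AA]
      push_cast
      rfl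
    rw [← hA]
    have h := (Nat.cast_le (α := ℝ)).mpr hDp
    push_cast at h
    exact_mod_cast h
  have hc := (Nat.cast_le (α := ℝ)).mpr hcard
  rw [Nat.cast_add, Nat.cast_add] at hc
  refine hc.trans ?_
  rw [add_mul, add_mul]
  linarith

open Classical in
theorem fibreG {c k n j w r m a : ℕ} (hn : n = j + 1 + w) (hj : 2 * j ≤ w) (hw : 2 ≤ w)
    (hr : r = w - j) (hm : m = mm k n)
    (hT : 2 * 2 ^ n * tim c k n n + 2 * 4 ^ n ≤ 2 ^ (2 ^ m)) (p : Prog) (O : List Bool → Bool) :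
    ((univ.filter fun f : GG m → AA m r => ov m r f O ∈ BadG p c k n a).card : ℝ) ≤
      (2 ^ (n - a + 1) * (8 / 2 ^ r) + 4 ^ r / (2 ^ (w - 1) - 1) ^ 2 +
        4 ^ (2 * r) / 2 ^ m) * (Fintype.card (AA m r) : ℝ) ^ Fintype.card (GG m) := by
  have hd2 : 2 ≤ 2 ^ (w - 1) := by
    calc 2 = 2 ^ 1 := by norm_num
      _ ≤ 2 ^ (w - 1) := Nat.pow_le_pow_right (by norm_num) (by omega)
  have hW := cheb (G := GG m) (A := AA m r) (top m r) (lam := 4 ^ r) (d := 2 ^ (w - 1) - 1)
    (card_eq hn hr hm).1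
  have hW' : (((univ.filter fun f : GG m → AA m r =>
        ¬ (4 ^ r < (hits (top m r) f).card + (2 ^ (w - 1) - 1) ∧
          (hits (top m r) f).card < 4 ^ r + (2 ^ (w - 1) - 1))).card : ℕ) : ℝ) ≤
      4 ^ r / (2 ^ (w - 1) - 1) ^ 2 * (Fintype.card (AA m r) : ℝ) ^ Fintype.card (GG m) := by
    have hd : ((2 ^ (w - 1) - 1 : ℕ) : ℝ) = 2 ^ (w - 1) - 1 := by
      rw [Nat.cast_sub (by omega)]
      push_cast
      rfl
    have hd0 : (0 : ℝ) < 2 ^ (w - 1) - 1 := by
      rw [← hd]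
      exact_mod_cast (by omega : 0 < 2 ^ (w - 1) - 1)
    rw [div_mul_eq_mul_div, le_div_iff₀ (by positivity), ← hd]
    exact_mod_cast hW
  exact fibreW hn hj hw hr hm hT p O hW'

open Classical in
theorem fibreT {c k n j w r m a : ℕ} (hn : n = j + 1 + w) (hj : 2 * j ≤ w) (hw : 2 ≤ w)
    (hr : r = w - j) (hm : m = mm k n)
    (hT : 2 * 2 ^ n * tim c k n n + 2 * 4 ^ n ≤ 2 ^ (2 ^ m)) (p : Prog) (O : List Bool → Bool) :
    ((univ.filter fun f : GG m → AA m r => ov m r f O ∈ BadG p c k n a).card : ℝ) ≤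
      (2 ^ (n - a + 1) * (8 / 2 ^ r) + 2 * Real.exp (-(((2 : ℝ) ^ (w - 1) - 1) ^ 2 / (4 * 4 ^ r))) +
        4 ^ (2 * r) / 2 ^ m) * (Fintype.card (AA m r) : ℝ) ^ Fintype.card (GG m) := by
  have hd2 : 2 ≤ 2 ^ (w - 1) := by
    calc 2 = 2 ^ 1 := by norm_num
      _ ≤ 2 ^ (w - 1) := Nat.pow_le_pow_right (by norm_num) (by omega)
  have hd4 : 2 ^ (w - 1) - 1 ≤ 4 ^ r := by
    have h1 : 2 ^ (w - 1) ≤ 2 ^ (2 * r) := Nat.pow_le_pow_right (by norm_num) (by omega)
    have h2 : (4 : ℕ) ^ r = 2 ^ (2 * r) := by rw [pow_mul]; norm_num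
    omega
  have hW := chern (G := GG m) (A := AA m r) (top m r) (lam := 4 ^ r) (d := 2 ^ (w - 1) - 1)
    (card_eq hn hr hm).1 (Nat.one_le_pow _ _ (by norm_num)) hd4
  have hd : ((2 ^ (w - 1) - 1 : ℕ) : ℝ) = 2 ^ (w - 1) - 1 := by
    rw [Nat.cast_sub (by omega)]
    push_cast
    rfl
  rw [hd] at hW
  push_cast at hW
  exact fibreW hn hj hw hr hm hT p O hW

open Classical in
theorem fibre {c k n j w r m : ℕ} (hn : n = j + 1 + w) (hj : 2 * j ≤ w) (hw : 2 ≤ w)
    (hr : r = w - j) (hm : m = mm k n)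
    (hT : 2 * 2 ^ n * tim c k n n + 2 * 4 ^ n ≤ 2 ^ (2 ^ m)) (p : Prog) (O : List Bool → Bool) :
    ((univ.filter fun f : GG m → AA m r => ov m r f O ∈ Bad p c k n).card : ℝ) ≤
      (2 ^ (n - 4 * Nat.log 2 n + 1) * (8 / 2 ^ r) + 4 ^ r / (2 ^ (w - 1) - 1) ^ 2 +
        4 ^ (2 * r) / 2 ^ m) * (Fintype.card (AA m r) : ℝ) ^ Fintype.card (GG m) :=
  fibreG (a := 4 * Nat.log 2 n) hn hj hw hr hm hT p O

end Pool.Agent.LibRO74
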