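import Pool.Agent.LibRO74.LB

/-!
[RO74 LC] Third phase of the program for `Hit`: one more query for each letter of stack `5`.
`run_popAny` (LibNexp/Basic) and induction on the iteration / on the content of stack `5`.
-/

namespace Pool.Agent.LibRO74

open Function Pool.Agent.LibNexp Pool.Agent.LibBHN

variable {O : List Bool → Bool}

/-- One question for each letter on stack `5`. -/
def pC : Prog := .seq (.star (.seq (popAny 5) ask)) (.empty 5)

private theorem LC_step {t : ℕ} {σ τ : State} :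
    Run O (.seq (popAny 5) ask) t σ τ ↔ ∃ b l, σ 5 = b :: l ∧ t = 3 ∧
      τ = update (update σ 5 l) 3 (true :: σ 3) ∧ O (true :: σ 3) = true := by
  constructor
  · rintro ⟨t1, t2, τ1, rfl, h1, t3, t4, τ2, rfl, ⟨rfl, rfl⟩, rfl, h3, rfl⟩
    obtain ⟨b, l, h4, rfl, rfl⟩ := run_popAny.1 h1
    refine ⟨b, l, h4, rfl, ?_, ?_⟩
    · rw [update_of_ne (by norm_num)]
    · rw [update_self, update_of_ne (by norm_num)] at h3
      exact h3
  · rintro ⟨b, l, h4, rfl, rfl, h3⟩
    refine ⟨1, 2, update σ 5 l, rfl, run_popAny.2 ⟨b, l, h4, rfl, rfl⟩, 1, 1,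
      update (update σ 5 l) 3 (true :: σ 3), rfl, ⟨rfl, ?_⟩, rfl, ?_, rfl⟩
    · rw [update_of_ne (by norm_num : (3 : ℕ) ≠ 5)]
    · rw [update_self]
      exact h3

private theorem LC_rep (j : ℕ) (s : List Bool) :
    List.replicate j true ++ true :: s = List.replicate (j + 1) true ++ s := by
  rw [List.replicate_succ', List.append_assoc, List.singleton_append]

private theorem LC_iter {t : ℕ} {σ τ : State}
    (h : Iter (Run O (.seq (popAny 5) ask)) t σ τ) (hτ : τ 5 = []) :
    ∀ i, 1 ≤ i → i ≤ (σ 5).length → O (List.replicate i true ++ σ 3) = true := by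
  induction h with
  | nil σ =>
    intro i h1 h2
    rw [hτ] at h2
    simp only [List.length_nil] at h2
    omega
  | @cons t t' σ τ1 τ h1 _ ih =>
    obtain ⟨b, l, h4, rfl, rfl, h3⟩ := LC_step.1 h1
    have ih' := ih hτ
    rw [update_self, update_of_ne (by norm_num : (5 : ℕ) ≠ 3), update_self] at ih'
    intro i hi1 hi2
    rw [h4, List.length_cons] at hi2
    obtain ⟨j, rfl⟩ : ∃ j, i = j + 1 := ⟨i - 1, by omega⟩
    rcases Nat.eq_zero_or_pos j with rfl | hj
    · simpa using h3
    · rw [← LC_rep]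
      exact ih' j hj (by omega)

theorem pC_sound {t : ℕ} {σ σ' : State} (h : Run O pC t σ σ') :
    ∀ i, 1 ≤ i → i ≤ (σ 5).length → O (List.replicate i true ++ σ 3) = true := by
  obtain ⟨t1, t2, τ, rfl, h1, rfl, h2, rfl⟩ := h
  exact LC_iter h1 h2

private theorem LC_comp : ∀ (n : ℕ) (σ : State), (σ 5).length = n →
    (∀ i, 1 ≤ i → i ≤ (σ 5).length → O (List.replicate i true ++ σ 3) = true) →
    ∃ τ : State, Iter (Run O (.seq (popAny 5) ask)) (3 * n) σ τ ∧ τ 5 = [] := by
  intro n
  induction n with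
  | zero =>
    intro σ h1 _
    exact ⟨σ, Iter.nil σ, List.length_eq_zero_iff.1 h1⟩
  | succ n ih =>
    intro σ h1 h2
    obtain ⟨b, l, h4⟩ : ∃ b l, σ 5 = b :: l := by
      cases h5 : σ 5 with
      | nil => rw [h5] at h1; simp at h1
      | cons b l => exact ⟨b, l, rfl⟩
    have h3 : O (true :: σ 3) = true := by
      have := h2 1 le_rfl (by omega)
      simpa using this
    have hl : l.length = n := by
      rw [h4, List.length_cons] at h1
      omega
    obtain ⟨τ, h6, h7⟩ := ih (update (update σ 5 l) 3 (true :: σ 3))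
      (by rw [update_of_ne (by norm_num : (5 : ℕ) ≠ 3), update_self]; exact hl)
      (by
        intro i hi1 hi2
        rw [update_of_ne (by norm_num : (5 : ℕ) ≠ 3), update_self] at hi2
        rw [update_self, LC_rep]
        exact h2 (i + 1) (by omega) (by omega))
    refine ⟨τ, ?_, h7⟩
    have h8 := Iter.cons (R := Run O (.seq (popAny 5) ask))
      (LC_step.2 ⟨b, l, h4, rfl, rfl, h3⟩) h6
    rw [show 3 * (n + 1) = 3 + 3 * n by ring]
    exact h8

theorem pC_complete {σ : State}
    (h : ∀ i, 1 ≤ i → i ≤ (σ 5).length → O (List.replicate i true ++ σ 3) = true) :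
    ∃ t σ', t ≤ 3 * (σ 5).length + 1 ∧ Run O pC t σ σ' := by
  obtain ⟨τ, h1, h2⟩ := LC_comp (O := O) _ σ rfl h
  exact ⟨3 * (σ 5).length + 1, τ, le_rfl, 3 * (σ 5).length, 1, τ, rfl, h1, rfl, h2, rfl⟩

end Pool.Agent.LibRO74
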