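import Pool.Agent.LibRO74.LA
import Pool.Agent.LibRO74.LC

/-!
[RO74 L0] The program for `Hit` is `pA`, `pB`, `pC`: `nexp_iff` (LibNexp/Growth) with the time
`2 ^ (8 * n + 8) + (2 ^ (8 * n + 8) + (3 * n + 1))` (`EP.add`, `EP.pow2`, `EP.of_poly`),
`m = (e 0).length ≤ size e`, `q = e 1`. Cells `2^m < i`: `1^(i-2^m) ++ (1^(2^m) ++ s) = 1^i ++ s`.
-/

namespace Pool.Agent.LibRO74

open Function Pool.Agent.LibNexp Pool.Agent.LibBHN

variable {O : List Bool → Bool}

private theorem L0_size (e : Fin 2 → List Bool) : size e = (e 0).length + (e 1).length := by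
  unfold size
  rw [Fin.sum_univ_two]

private theorem L0_rep (i m : ℕ) (s : List Bool) :
    List.replicate i true ++ (List.replicate m true ++ s) = List.replicate (i + m) true ++ s := by
  rw [← List.append_assoc, List.replicate_append_replicate]

theorem nexp_hit : NEXP O fun e : Fin 2 → List Bool => Hit O (e 0) (e 1) := by
  rw [nexp_iff]
  have hexp : PolyB fun n => 8 * n + 8 :=
    ((PolyB.const 8).mul PolyB.id).add (PolyB.const 8)
  refine ⟨fun n => 2 ^ (8 * n + 8) + (2 ^ (8 * n + 8) + (3 * n + 1)),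
    (EP.pow2 hexp).add ((EP.pow2 hexp).add
      (EP.of_poly (((PolyB.const 3).mul PolyB.id).add (PolyB.const 1)))),
    .seq pA (.seq pB pC), fun e => ⟨?_, ?_⟩⟩
  · rintro t σ' ⟨t1, t', τ1, -, h1, t2, t3, τ2, -, h2, h3⟩
    obtain ⟨y, hy, a3, a2, a4, a5⟩ := pA_sound h1
    obtain ⟨b3, b5, b6⟩ := pB_sound a2 a4 h2
    have c := pC_sound h3
    refine ⟨y, hy, fun i hi1 hi2 => ?_⟩
    show O (List.replicate i true ++ false :: (e 0 ++ y)) = true
    rw [a3] at b3 b6
    rcases Nat.lt_or_ge (2 ^ (e 0).length) i with hi | hi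
    · have hc := c (i - 2 ^ (e 0).length) (by omega) (by rw [b5, a5]; omega)
      rw [b3, L0_rep, show i - 2 ^ (e 0).length + 2 ^ (e 0).length = i by omega] at hc
      exact hc
    · exact b6 i hi1 hi
  · rintro ⟨y, hy, h⟩
    obtain ⟨t1, τ1, ht1, r1, a3, a2, a4, a5⟩ := pA_complete (O := O) (e := e) hy
    obtain ⟨t2, τ2, ht2, r2, b3, b5⟩ := pB_complete (O := O) a2 a4 (fun i hi1 hi2 => by
      rw [a3]
      exact h i hi1 (by omega))
    obtain ⟨t3, τ3, ht3, r3⟩ := pC_complete (O := O) (σ := τ2) (fun i hi1 hi2 => by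
      rw [b3, a3, L0_rep]
      rw [b5, a5] at hi2
      exact h (i + 2 ^ (e 0).length) (by omega) (by omega))
    refine ⟨t1 + (t2 + t3), τ3, ?_, t1, t2 + t3, τ1, rfl, r1, t2, t3, τ2, rfl, r2, r3⟩
    have hs := L0_size e
    have e2 : 2 ^ (8 * (e 0).length + 8) ≤ 2 ^ (8 * size e + 8) :=
      Nat.pow_le_pow_right (by norm_num) (by omega)
    rw [b5, a5] at ht3
    show t1 + (t2 + t3) ≤ 2 ^ (8 * size e + 8) + (2 ^ (8 * size e + 8) + (3 * size e + 1))
    have e3 : t2 ≤ 2 ^ (8 * size e + 8) := le_trans ht2 e2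
    have e4 : t3 ≤ 3 * size e + 1 := by omega
    exact Nat.add_le_add ht1 (Nat.add_le_add e3 e4)

end Pool.Agent.LibRO74
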