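import Pool.Agent.LibRO74.L0
import Pool.Agent.LibBHN.Misc

/-!
[RO74 L1] Counting relation: strings `false z` with `z` hit, and `2^(|x'|-1)` dummies `true a 0..0`.
`nexp_RR`: `or`, `nexp_ex` twice, `nexp_prefix`/`nexp_append`, `nexp_lin`/`nexp_len` for the lengths,
`nexp_hit` with `NEXP.reindex`.
`cnt_RR`: split by the first letter (`bits (m+1) t = decide (t % 2 = 1) :: bits m (t / 2)`).
-/

namespace Pool.Agent.LibRO74

open Pool.Agent.LibNexp Pool.Agent.LibBHN

variable {O : List Bool → Bool}

/-- `false z` with `z` hit, or `true a 0..0` with `|a| + 1 = |x'|`. -/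
def RR (O : List Bool → Bool) (q x' s : List Bool) : Prop :=
  (∃ z, s = false :: z ∧ Hit O z q) ∨
    ∃ a b : List Bool, s = true :: (a ++ b) ∧ a.length + 1 = x'.length ∧
      b = List.replicate b.length false

private theorem L1_flatMap (l : List Bool) :
    l.flatMap (fun _ => [false]) = List.replicate l.length false := by
  induction l with
  | nil => rfl
  | cons b l ih => simp [List.replicate_succ, ih]

private theorem L1_part1 : NEXP O fun e : Fin 3 → List Bool =>
    ∃ z, e 2 = false :: z ∧ Hit O z (e 0) := by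
  have h1 : NEXP O fun e : Fin 4 → List Bool => e 2 = false :: e 3 ∧ Hit O (e 3) (e 0) := by
    refine NEXP.and ?_ ?_
    · refine ((nexp_subst (O := O) (fun _ => []) (fun b => [b]) [false]).reindex
        ![0, 3, 2]).congr fun e => ?_
      simp [misc_flatMap_nil]
    · refine ((nexp_hit (O := O)).reindex ![3, 0]).congr fun e => ?_
      simp
  refine nexp_ex (R := fun e z => e 2 = false :: z ∧ Hit O z (e 0)) h1 (g := fun n => n)
    PolyB.id ?_
  rintro e z ⟨h, -⟩
  have := len_le_size e 2
  rw [h, List.length_cons] at this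
  omega

private theorem L1_part2 : NEXP O fun e : Fin 3 → List Bool =>
    ∃ c b : List Bool, e 2 = c ++ b ∧ [true] <+: c ∧ (c.length = 1 * (e 1).length + 0 ∧
      b = List.replicate b.length false) := by
  have h1 : NEXP O fun e : Fin 5 → List Bool => e 2 = e 3 ++ e 4 ∧ [true] <+: e 3 ∧
      ((e 3).length = 1 * (e 1).length + 0 ∧ e 4 = List.replicate (e 4).length false) := by
    refine NEXP.and (nexp_append 3 4 2) (NEXP.and (nexp_prefix [true] 3)
      (NEXP.and (nexp_lin 1 0 1 3) ?_))
    refine ((nexp_subst (O := O) (fun _ => [false]) (fun _ => []) []).reindex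
        ![4, 0, 4]).congr fun e => ?_
    simp [misc_flatMap_nil, L1_flatMap]
  have h2 : NEXP O fun e : Fin 4 → List Bool => ∃ b : List Bool, e 2 = e 3 ++ b ∧
      [true] <+: e 3 ∧ ((e 3).length = 1 * (e 1).length + 0 ∧
        b = List.replicate b.length false) := by
    refine nexp_ex (R := fun e b => e 2 = e 3 ++ b ∧ [true] <+: e 3 ∧
      ((e 3).length = 1 * (e 1).length + 0 ∧ b = List.replicate b.length false)) h1
      (g := fun n => n) PolyB.id ?_
    rintro e z ⟨h, -⟩
    have := len_le_size e 2
    rw [h, List.length_append] at this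
    omega
  refine nexp_ex (R := fun e c => ∃ b : List Bool, e 2 = c ++ b ∧ [true] <+: c ∧
    (c.length = 1 * (e 1).length + 0 ∧ b = List.replicate b.length false)) h2
    (g := fun n => n) PolyB.id ?_
  rintro e z ⟨w, h, -⟩
  have := len_le_size e 2
  rw [h, List.length_append] at this
  omega

theorem nexp_RR : NEXP O fun e : Fin 3 → List Bool => RR O (e 0) (e 1) (e 2) := by
  refine (L1_part1.or L1_part2).congr fun e => ?_
  unfold RR
  refine or_congr Iff.rfl ?_
  constructor
  · rintro ⟨c, b, h1, ⟨a, rfl⟩, h3, h4⟩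
    refine ⟨a, b, by rw [h1]; rfl, ?_, h4⟩
    rw [List.length_append, List.length_singleton] at h3
    omega
  · rintro ⟨a, b, h1, h2, h3⟩
    refine ⟨true :: a, b, by rw [h1]; rfl, ⟨a, rfl⟩, ?_, h3⟩
    rw [List.length_cons]
    omega

private theorem L1_val_rep (n : ℕ) : val (List.replicate n false) = 0 := by
  induction n with
  | zero => rfl
  | succ n ih => rw [List.replicate_succ, val, ih]; rfl

private theorem L1_val_append (a b : List Bool) :
    val (a ++ b) = val a + 2 ^ a.length * val b := by
  induction a with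
  | nil => simp [val]
  | cons c a ih =>
    rw [List.cons_append, val, val, ih, List.length_cons, pow_succ]
    ring

/-- Dummies. -/
private theorem L1_dummy {m n t : ℕ} (hn : n ≤ m) (ht : t < 2 ^ m) :
    (∃ a b : List Bool, bits m t = a ++ b ∧ a.length = n ∧ b = List.replicate b.length false) ↔
      t < 2 ^ n := by
  constructor
  · rintro ⟨a, b, h1, h2, h3⟩
    have h4 := val_bits ht
    rw [h1, L1_val_append, h3, L1_val_rep, mul_zero, add_zero] at h4
    rw [← h4, ← h2]
    exact cnt_val_lt a
  · intro h
    refine ⟨bits n t, List.replicate (m - n) false, ?_, length_bits n t, by simp⟩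
    have h5 : (bits n t ++ List.replicate (m - n) false).length = m := by
      rw [List.length_append, length_bits, List.length_replicate]
      omega
    have h6 : val (bits n t ++ List.replicate (m - n) false) = t := by
      rw [L1_val_append, L1_val_rep, mul_zero, add_zero, val_bits h]
    have h7 := bits_val (bits n t ++ List.replicate (m - n) false)
    rwa [h5, h6] at h7

theorem cnt_RR {m : ℕ} {q x' : List Bool} (hx : 1 ≤ x'.length) (hm : x'.length ≤ m + 1) :
    cnt (m + 1) (RR O q x') = cnt m (fun z => Hit O z q) + 2 ^ (x'.length - 1) := by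
  classical
  unfold cnt
  have hev : ∀ t : ℕ, bits (m + 1) (2 * t) = false :: bits m t := by
    intro t
    have h1 : (2 * t) % 2 = 0 := by omega
    have h2 : 2 * t / 2 = t := by omega
    rw [bits, h1, h2]
    rfl
  have hod : ∀ t : ℕ, bits (m + 1) (2 * t + 1) = true :: bits m t := by
    intro t
    have h1 : (2 * t + 1) % 2 = 1 := by omega
    have h2 : (2 * t + 1) / 2 = t := by omega
    rw [bits, h1, h2]
    rfl
  have hRe : ∀ t : ℕ, RR O q x' (bits (m + 1) (2 * t)) ↔ Hit O (bits m t) q := by
    intro t
    rw [hev]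
    constructor
    · rintro (⟨z, h1, h2⟩ | ⟨a, b, h1, -⟩)
      · rw [List.cons.injEq] at h1
        rw [h1.2]; exact h2
      · simp at h1
    · intro h
      exact Or.inl ⟨_, rfl, h⟩
  have hRo : ∀ t : ℕ, t < 2 ^ m → (RR O q x' (bits (m + 1) (2 * t + 1)) ↔
      t < 2 ^ (x'.length - 1)) := by
    intro t ht
    rw [hod, ← L1_dummy (m := m) (n := x'.length - 1) (by omega) ht]
    constructor
    · rintro (⟨z, h1, h2⟩ | ⟨a, b, h1, h2, h3⟩)
      · simp at h1
      · rw [List.cons.injEq] at h1
        exact ⟨a, b, h1.2, by omega, h3⟩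
    · rintro ⟨a, b, h1, h2, h3⟩
      exact Or.inr ⟨a, b, by rw [h1], by omega, h3⟩
  have hsplit : (Finset.range (2 ^ (m + 1))).filter (fun t => RR O q x' (bits (m + 1) t)) =
      ((Finset.range (2 ^ m)).filter (fun t => Hit O (bits m t) q)).image (fun t => 2 * t) ∪
      (Finset.range (2 ^ (x'.length - 1))).image (fun t => 2 * t + 1) := by
    ext t
    simp only [Finset.mem_filter, Finset.mem_range, Finset.mem_union, Finset.mem_image]
    have hle : 2 ^ (x'.length - 1) ≤ 2 ^ m := Nat.pow_le_pow_right (by norm_num) (by omega)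
    constructor
    · rintro ⟨h1, h2⟩
      rw [pow_succ] at h1
      rcases Nat.even_or_odd' t with ⟨u, rfl | rfl⟩
      · exact Or.inl ⟨u, ⟨by omega, (hRe u).1 h2⟩, rfl⟩
      · exact Or.inr ⟨u, (hRo u (by omega)).1 h2, rfl⟩
    · rintro (⟨u, ⟨h1, h2⟩, rfl⟩ | ⟨u, h1, rfl⟩)
      · exact ⟨by rw [pow_succ]; omega, (hRe u).2 h2⟩
      · have hu : u < 2 ^ m := lt_of_lt_of_le h1 hle
        exact ⟨by rw [pow_succ]; omega, (hRo u hu).2 h1⟩
  have hdisj : Disjoint
      (((Finset.range (2 ^ m)).filter (fun t => Hit O (bits m t) q)).image (fun t => 2 * t))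
      ((Finset.range (2 ^ (x'.length - 1))).image (fun t => 2 * t + 1)) := by
    rw [Finset.disjoint_left]
    intro t h1 h2
    rw [Finset.mem_image] at h1 h2
    obtain ⟨u, -, hu⟩ := h1
    obtain ⟨v, -, hv⟩ := h2
    omega
  rw [hsplit, Finset.card_union_of_disjoint hdisj,
    Finset.card_image_of_injective _ (fun a b h => by simpa using h),
    Finset.card_image_of_injective _ (fun a b h => by simpa using h), Finset.card_range]

end Pool.Agent.LibRO74
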