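import Pool.Agent.LibRO74.Def
import Pool.Agent.LibBHN.Misc

/-!
The strings computed from the input.
-/

namespace Pool.Agent.LibRO74

open Pool.Agent.LibNexp Pool.Agent.LibBHN

variable {O : List Bool → Bool}

/-- The structure of the input. -/
def Str (k : ℕ) (x x' q t : List Bool) : Prop :=
  ∃ j : ℕ, x = List.replicate j true ++ false :: x' ∧ 2 * j ≤ x'.length ∧ 1 ≤ x'.length ∧
    q = List.replicate (mm k x.length - 2 * (x'.length - j)) false ∧
    t = x' ++ List.replicate (2 * (x'.length - j) - x'.length) false ++
      true :: List.replicate (mm k x.length + 1 - 2 * (x'.length - j)) false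

private theorem L2_flat (c : Bool) (l : List Bool) :
    l.flatMap (fun _ => [c]) = List.replicate l.length c := by
  induction l with
  | nil => rfl
  | cons b l ih => rw [List.flatMap_cons, ih]; rfl

private theorem L2_const (c : Bool) {k : ℕ} (i : Fin k) :
    NEXP O fun e : Fin k → List Bool => e i = List.replicate (e i).length c := by
  refine ((nexp_subst (O := O) (fun _ => [c]) (fun _ => []) []).reindex ![i, i, i]).congr fun e => ?_
  simp [L2_flat, misc_flatMap_nil]

private theorem L2_add {k : ℕ} (i j l : Fin k) :
    NEXP O fun e : Fin k → List Bool => (e i).length + (e j).length = (e l).length := by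
  have h1 : NEXP O fun e : Fin 4 → List Bool => e 3 = e 0 ++ e 1 ∧
      (e 3).length = 1 * (e 2).length + 0 := (nexp_append 0 1 3).and (nexp_lin 1 0 2 3)
  have h2 : NEXP O fun e : Fin 3 → List Bool => ∃ z : List Bool, z = e 0 ++ e 1 ∧
      z.length = 1 * (e 2).length + 0 := by
    refine nexp_ex (R := fun e z => z = e 0 ++ e 1 ∧ z.length = 1 * (e 2).length + 0) h1
      (g := fun n => n) PolyB.id ?_
    rintro e z ⟨-, h⟩
    have := len_le_size e 2
    omega
  refine (h2.reindex ![i, j, l]).congr fun e => ?_
  simp only [Matrix.cons_val_zero, Matrix.cons_val_one, Matrix.cons_val_two, Matrix.head_cons,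
    Matrix.tail_cons, one_mul, add_zero, Matrix.cons_val]
  constructor
  · rintro ⟨z, rfl, h⟩
    rw [← h, List.length_append]
  · intro h
    exact ⟨_, rfl, by rw [List.length_append, h]⟩

/-- `x = 1^j 0 x'`, `j + |d| = |x'|`, `j ≤ |d|`. Arguments `x x' d`. -/
private theorem L2_A : NEXP O fun e : Fin 3 → List Bool => ∃ u : List Bool,
    e 0 = u ++ [false] ++ e 1 ∧ u = List.replicate u.length true ∧
    u.length + (e 2).length = (e 1).length ∧ u.length ≤ (e 2).length ∧ e 1 ≠ [] := by
  refine nexp_ex (R := fun e u => e 0 = u ++ [false] ++ e 1 ∧ u = List.replicate u.length true ∧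
    u.length + (e 2).length = (e 1).length ∧ u.length ≤ (e 2).length ∧ e 1 ≠ []) ?_
    (g := fun n => n) PolyB.id ?_
  · have h0 : NEXP O fun e : Fin 4 → List Bool => e 0 = e 3 ++ [false] ++ e 1 := by
      refine ((nexp_subst (O := O) (fun b => [b]) (fun b => [b]) [false]).reindex
        ![3, 1, 0]).congr fun e => ?_
      simp
    have h1 : NEXP O fun e : Fin 4 → List Bool => e 1 ≠ [] := by
      refine ((nexp_prefix (O := O) [false] (1 : Fin 4)).or
        (nexp_prefix (O := O) [true] (1 : Fin 4))).congr fun e => ?_
      cases h : e 1 with
      | nil => simp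
      | cons b l => cases b <;> simp
    exact h0.and ((L2_const true 3).and ((L2_add 3 2 1).and ((nexp_lenLe 3 2).and h1)))
  · rintro e u ⟨-, -, -, h, -⟩
    have := len_le_size e 2
    omega

/-- `|M| = mm k |x|`. Arguments `x M`. -/
private theorem L2_M (k : ℕ) : NEXP O fun e : Fin 2 → List Bool =>
    (e 1).length = mm k (e 0).length := by
  have h2 : NEXP O fun e : Fin 2 → List Bool => ∃ P Q R : List Bool,
      P.length = 3 * (e 0).length + 2 ∧ Q.length = P.length ^ k + k ∧
        R.length = 5 * (e 0).length + 0 ∧ R.length + Q.length = (e 1).length := by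
    refine nexp_ex (R := fun e P => ∃ Q R : List Bool,
      P.length = 3 * (e 0).length + 2 ∧ Q.length = P.length ^ k + k ∧
        R.length = 5 * (e 0).length + 0 ∧ R.length + Q.length = (e 1).length) ?_
        (g := fun n => 3 * n + 2) (((PolyB.const 3).mul PolyB.id).add (PolyB.const 2)) ?_
    · refine nexp_ex (R := fun (e : Fin 3 → List Bool) Q => ∃ R : List Bool,
        (e 2).length = 3 * (e 0).length + 2 ∧ Q.length = (e 2).length ^ k + k ∧
        R.length = 5 * (e 0).length + 0 ∧ R.length + Q.length = (e 1).length) ?_
        (g := fun n => n) PolyB.id ?_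
      · refine nexp_ex (R := fun (e : Fin 4 → List Bool) R =>
          (e 2).length = 3 * (e 0).length + 2 ∧ (e 3).length = (e 2).length ^ k + k ∧
          R.length = 5 * (e 0).length + 0 ∧ R.length + (e 3).length = (e 1).length) ?_
          (g := fun n => n) PolyB.id ?_
        · exact (nexp_lin 3 2 0 2).and ((nexp_powAdd k k 2 3).and
            ((nexp_lin 5 0 0 4).and (L2_add 4 3 1)))
        · rintro e R ⟨-, -, -, h⟩
          have := len_le_size e 1
          omega
      · rintro e Q ⟨R, -, -, -, h⟩
        have := len_le_size e 1
        omega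
    · rintro e P ⟨Q, R, h, -⟩
      have := len_le_size e 0
      omega
  refine h2.congr fun e => ?_
  unfold mm
  constructor
  · rintro ⟨P, Q, R, h1, h2, h3, h4⟩
    rw [← h4, h2, h1, h3]
    ring
  · intro h
    exact ⟨List.replicate (3 * (e 0).length + 2) true,
      List.replicate ((3 * (e 0).length + 2) ^ k + k) true,
      List.replicate (5 * (e 0).length) true, by simp, by simp, by simp, by simp [h]⟩

/-- `q = 0^a`, `a + 2 |d| = |M|`. Arguments `M q d`. -/
private theorem L2_B : NEXP O fun e : Fin 3 → List Bool =>
    e 1 = List.replicate (e 1).length false ∧ (e 1).length + 2 * (e 2).length = (e 0).length := by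
  have h2 : NEXP O fun e : Fin 3 → List Bool => ∃ D : List Bool,
      D.length = 2 * (e 2).length + 0 ∧ (e 1).length + D.length = (e 0).length := by
    refine nexp_ex (R := fun e D =>
      D.length = 2 * (e 2).length + 0 ∧ (e 1).length + D.length = (e 0).length) ?_
        (g := fun n => 2 * n) ((PolyB.const 2).mul PolyB.id) ?_
    · exact (nexp_lin 2 0 2 3).and (L2_add 1 3 0)
    · rintro e D ⟨h, -⟩
      have := len_le_size e 2
      omega
  refine ((L2_const false 1).and h2).congr fun e => ?_
  constructor
  · rintro ⟨h, D, h1, h2⟩
    exact ⟨h, by omega⟩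
  · rintro ⟨h, h1⟩
    exact ⟨h, List.replicate (2 * (e 2).length) true, by simp, by simpa using h1⟩

/-- Arguments `M x' t d`. -/
private theorem L2_C : NEXP O fun e : Fin 4 → List Bool => ∃ D a b s : List Bool,
    D.length = 2 * (e 3).length + 0 ∧ (e 1).length + a.length = D.length ∧
    a = List.replicate a.length false ∧ b = List.replicate b.length false ∧
    s = e 1 ++ a ∧ e 2 = s ++ [true] ++ b ∧ (e 2).length = 1 * (e 0).length + 2 := by
  refine nexp_ex (R := fun e D => ∃ a b s : List Bool,
    D.length = 2 * (e 3).length + 0 ∧ (e 1).length + a.length = D.length ∧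
    a = List.replicate a.length false ∧ b = List.replicate b.length false ∧
    s = e 1 ++ a ∧ e 2 = s ++ [true] ++ b ∧ (e 2).length = 1 * (e 0).length + 2) ?_
    (g := fun n => 2 * n) ((PolyB.const 2).mul PolyB.id) ?_
  · refine nexp_ex (R := fun (e : Fin 5 → List Bool) a => ∃ b s : List Bool,
      (e 4).length = 2 * (e 3).length + 0 ∧ (e 1).length + a.length = (e 4).length ∧
      a = List.replicate a.length false ∧ b = List.replicate b.length false ∧
      s = e 1 ++ a ∧ e 2 = s ++ [true] ++ b ∧ (e 2).length = 1 * (e 0).length + 2) ?_
      (g := fun n => n) PolyB.id ?_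
    · refine nexp_ex (R := fun (e : Fin 6 → List Bool) b => ∃ s : List Bool,
        (e 4).length = 2 * (e 3).length + 0 ∧ (e 1).length + (e 5).length = (e 4).length ∧
        e 5 = List.replicate (e 5).length false ∧ b = List.replicate b.length false ∧
        s = e 1 ++ e 5 ∧ e 2 = s ++ [true] ++ b ∧ (e 2).length = 1 * (e 0).length + 2) ?_
        (g := fun n => n) PolyB.id ?_
      · refine nexp_ex (R := fun (e : Fin 7 → List Bool) s =>
          (e 4).length = 2 * (e 3).length + 0 ∧ (e 1).length + (e 5).length = (e 4).length ∧
          e 5 = List.replicate (e 5).length false ∧ e 6 = List.replicate (e 6).length false ∧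
          s = e 1 ++ e 5 ∧ e 2 = s ++ [true] ++ e 6 ∧ (e 2).length = 1 * (e 0).length + 2) ?_
          (g := fun n => n) PolyB.id ?_
        · have h0 : NEXP O fun e : Fin 8 → List Bool => e 2 = e 7 ++ [true] ++ e 6 := by
            refine ((nexp_subst (O := O) (fun b => [b]) (fun b => [b]) [true]).reindex
              ![7, 6, 2]).congr fun e => ?_
            simp
          exact (nexp_lin 2 0 3 4).and ((L2_add 1 5 4).and ((L2_const false 5).and
            ((L2_const false 6).and ((nexp_append 1 5 7).and (h0.and (nexp_lin 1 2 0 2))))))
        · rintro e s ⟨-, -, -, -, -, h, -⟩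
          have := len_le_size e 2
          rw [h, List.length_append, List.length_append] at this
          omega
      · rintro e b ⟨s, -, -, -, -, -, h, -⟩
        have := len_le_size e 2
        rw [h, List.length_append, List.length_append] at this
        omega
    · rintro e a ⟨b, s, -, h, -⟩
      have := len_le_size e 4
      omega
  · rintro e D ⟨a, b, s, h, -⟩
    have := len_le_size e 3
    omega

theorem nexp_Str (k : ℕ) : NEXP O fun e : Fin 4 → List Bool =>
    Str k (e 0) (e 1) (e 2) (e 3) := by
  have h : NEXP O fun e : Fin 4 → List Bool => ∃ M d : List Bool,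
      M.length = mm k (e 0).length ∧
      (∃ u : List Bool, e 0 = u ++ [false] ++ e 1 ∧ u = List.replicate u.length true ∧
        u.length + d.length = (e 1).length ∧ u.length ≤ d.length ∧ e 1 ≠ []) ∧
      (e 2 = List.replicate (e 2).length false ∧
        (e 2).length + 2 * d.length = M.length) ∧
      ∃ D a b s : List Bool,
        D.length = 2 * d.length + 0 ∧ (e 1).length + a.length = D.length ∧
        a = List.replicate a.length false ∧ b = List.replicate b.length false ∧
        s = e 1 ++ a ∧ e 3 = s ++ [true] ++ b ∧
        (e 3).length = 1 * M.length + 2 := by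
    refine nexp_ex (R := fun e M => ∃ d : List Bool, M.length = mm k (e 0).length ∧
      (∃ u : List Bool, e 0 = u ++ [false] ++ e 1 ∧
        u = List.replicate u.length true ∧
        u.length + d.length = (e 1).length ∧ u.length ≤ d.length ∧ e 1 ≠ []) ∧
      (e 2 = List.replicate (e 2).length false ∧
        (e 2).length + 2 * d.length = M.length) ∧
      ∃ D a b s : List Bool,
        D.length = 2 * d.length + 0 ∧ (e 1).length + a.length = D.length ∧
        a = List.replicate a.length false ∧ b = List.replicate b.length false ∧
        s = e 1 ++ a ∧ e 3 = s ++ [true] ++ b ∧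
        (e 3).length = 1 * M.length + 2) ?_ (g := fun n => n) PolyB.id ?_
    · refine nexp_ex (R := fun (e : Fin 5 → List Bool) d => (e 4).length = mm k (e 0).length ∧
        (∃ u : List Bool, e 0 = u ++ [false] ++ e 1 ∧
          u = List.replicate u.length true ∧
          u.length + d.length = (e 1).length ∧ u.length ≤ d.length ∧ e 1 ≠ []) ∧
        (e 2 = List.replicate (e 2).length false ∧
          (e 2).length + 2 * d.length = (e 4).length) ∧
        ∃ D a b s : List Bool,
          D.length = 2 * d.length + 0 ∧ (e 1).length + a.length = D.length ∧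
          a = List.replicate a.length false ∧ b = List.replicate b.length false ∧
          s = e 1 ++ a ∧ e 3 = s ++ [true] ++ b ∧
          (e 3).length = 1 * (e 4).length + 2) ?_ (g := fun n => n) PolyB.id ?_
      · refine (((L2_M (O := O) k).reindex ![0, 4]).and (((L2_A (O := O)).reindex ![0, 1, 5]).and
          (((L2_B (O := O)).reindex ![4, 2, 5]).and
            ((L2_C (O := O)).reindex ![4, 1, 3, 5])))).congr fun e => ?_
        exact Iff.rfl
      · rintro e d ⟨-, ⟨u, -, -, h, -⟩, -⟩
        have := len_le_size e 1
        omega
    · rintro e M ⟨d, -, -, -, D, a, b, s, -, -, -, -, -, -, h⟩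
      have := len_le_size e 3
      omega
  refine h.congr fun e => ?_
  unfold Str
  have hm := mm_ge k (e 0).length
  constructor
  · rintro ⟨M, d, h0, ⟨u, h1, h2, h3, h4, h5⟩, ⟨h6, h7⟩, D, a, b, s, h8, h9, h10, h11, h12, h13, h14⟩
    have hx : 1 ≤ (e 1).length := by
      cases h : e 1 with
      | nil => exact absurd h h5
      | cons c l => simp
    refine ⟨u.length, ?_, by omega, hx, ?_, ?_⟩
    · rw [← h2, h1]; simp
    · have : mm k (e 0).length - 2 * ((e 1).length - u.length) = (e 2).length := by
        omega
      rw [this]; exact h6
    · have hl := congrArg List.length h13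
      rw [h12, List.length_append, List.length_append, List.length_append,
        List.length_singleton] at hl
      have e1 : 2 * ((e 1).length - u.length) - (e 1).length = a.length := by omega
      have e2 : mm k (e 0).length + 1 - 2 * ((e 1).length - u.length) = b.length := by
        omega
      rw [e1, e2, ← h10, ← h11, h13, h12]
      simp
  · rintro ⟨j, h1, h2, h3, h4, h5⟩
    have hl := congrArg List.length h1
    rw [List.length_append, List.length_replicate, List.length_cons] at hl
    refine ⟨List.replicate (mm k (e 0).length) true, List.replicate ((e 1).length - j) true,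
      by simp, ⟨List.replicate j true, by rw [h1]; simp, by simp, ?_, ?_, ?_⟩, ⟨?_, ?_⟩,
      List.replicate (2 * ((e 1).length - j)) true,
      List.replicate (2 * ((e 1).length - j) - (e 1).length) false,
      List.replicate (mm k (e 0).length + 1 - 2 * ((e 1).length - j)) false, _,
      ?_, ?_, by simp, by simp, rfl, ?_, ?_⟩
    · simp only [List.length_replicate]; omega
    · simp only [List.length_replicate]; omega
    · intro h
      rw [h] at h3
      simp at h3
    · rw [h4]; simp
    · rw [h4]
      simp only [List.length_replicate]
      omega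
    · simp
    · simp only [List.length_replicate]; omega
    · rw [h5]; simp
    · rw [h5]
      simp only [List.length_append, List.length_replicate, List.length_cons]
      omega

private theorem L2_val : ∀ x y : List Bool, val (x ++ y) = val x + 2 ^ x.length * val y := by
  intro x y
  induction x with
  | nil => simp [val]
  | cons b x ih =>
    rw [List.cons_append, val, val, ih, List.length_cons, pow_succ]
    ring

theorem val_thr (x' : List Bool) (a b : ℕ) : val (x' ++ List.replicate a false ++
    true :: List.replicate b false) = 2 ^ (x'.length + a) + val x' := by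
  have h0 : ∀ c : ℕ, val (List.replicate c false) = 0 := by
    intro c
    have := val_false c []
    rw [List.append_nil] at this
    rw [this]; simp [val]
  rw [L2_val, L2_val, h0, val, h0, List.length_append, List.length_replicate]
  simp
  ring

end Pool.Agent.LibRO74
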