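import Pool.Agent.LibRO74.L1
import Pool.Agent.LibRO74.L2
import Pool.Agent.LibNexp.Advice

/-!
[RO74 L3] The language is in the class: `x ∈ RLang O k` iff there are `x' q t` with `Str k x x' q t`
and `val t ≤ cnt (|t| - 1) (RR O q x')` (`nexp_count` with `R e s = RR O (e 0) (e 1) s`, reindexed;
`|t| = mm k |x| + 2`; `cnt_RR`, `val_thr`, `4^(|x'|-j) = 2^(2(|x'|-j))`), and `nexp_ex` three times.
-/

namespace Pool.Agent.LibRO74

open Pool.Agent.LibNexp Pool.Agent.LibBHN

variable {O : List Bool → Bool}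

private theorem L3_lens {k : ℕ} {x x' q t : List Bool} (h : Str k x x' q t) :
    x'.length ≤ x.length ∧ q.length ≤ mm k x.length ∧ t.length = mm k x.length + 2 := by
  obtain ⟨j, hx, hj, h1, hq, ht⟩ := h
  have hxl : x.length = j + 1 + x'.length := by
    rw [hx]; simp; ring
  have hm : 5 * x.length ≤ mm k x.length := mm_ge k x.length
  refine ⟨by omega, ?_, ?_⟩
  · rw [hq, List.length_replicate]; omega
  · rw [ht]
    simp only [List.length_append, List.length_cons, List.length_replicate]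
    omega

private theorem L3_iff (k : ℕ) (x : List Bool) : x ∈ RLang O k ↔
    ∃ x' q t, Str k x x' q t ∧ ∃ n, t.length = n + 1 ∧ val t ≤ cnt n (RR O q x') := by
  constructor
  · rintro ⟨j, x', hx, hj, h1, hc⟩
    have hs : Str k x x' (List.replicate (mm k x.length - 2 * (x'.length - j)) false)
        (x' ++ List.replicate (2 * (x'.length - j) - x'.length) false ++
          true :: List.replicate (mm k x.length + 1 - 2 * (x'.length - j)) false) :=
      ⟨j, hx, hj, h1, rfl, rfl⟩
    have hl := L3_lens hs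
    refine ⟨_, _, _, hs, mm k x.length + 1, hl.2.2, ?_⟩
    have hm : 5 * x.length ≤ mm k x.length := mm_ge k x.length
    rw [val_thr, cnt_RR h1 (by have := hl.1; omega)]
    have h2 : x'.length + (2 * (x'.length - j) - x'.length) = 2 * (x'.length - j) := by omega
    rw [h2, pow_mul]
    exact hc
  · rintro ⟨x', q, t, hs, n, hn, hc⟩
    have hl := L3_lens hs
    obtain ⟨j, hx, hj, h1, hq, ht⟩ := hs
    refine ⟨j, x', hx, hj, h1, ?_⟩
    have hn' : n = mm k x.length + 1 := by omega
    subst hn'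
    have hm : 5 * x.length ≤ mm k x.length := mm_ge k x.length
    rw [cnt_RR h1 (by have := hl.1; omega), ht, val_thr, hq] at hc
    have h2 : x'.length + (2 * (x'.length - j) - x'.length) = 2 * (x'.length - j) := by omega
    rw [h2, pow_mul] at hc
    exact hc

private theorem L3_size1 (k : ℕ) (n s : ℕ) (h : n ≤ s) : mm k n ≤ mm k s := by
  unfold mm
  have h1 : (3 * n + 2) ^ k ≤ (3 * s + 2) ^ k := Nat.pow_le_pow_left (by omega) _
  omega

private theorem L3_poly (k : ℕ) : PolyB fun n => mm k n :=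
  ((PolyB.const 5).mul PolyB.id).add
    (((((PolyB.const 3).mul PolyB.id).add (PolyB.const 2)).pow k).add (PolyB.const k))

theorem rlang_mem (k : ℕ) : RLang O k ∈ NEXPLang O := by
  show NEXP O fun e : Fin 1 → List Bool => e 0 ∈ RLang O k
  have hR : NEXP O fun e : Fin 4 → List Bool => RR O (e 2) (e 1) (e 3) := by
    refine ((nexp_RR (O := O)).reindex ![2, 1, 3]).congr fun e => ?_
    simp
  have hC : NEXP O fun e : Fin 4 → List Bool => ∃ n, (e 3).length = n + 1 ∧
      val (e 3) ≤ cnt n (RR O (e 2) (e 1)) :=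
    nexp_count (k := 3) (R := fun e s => RR O (e 2) (e 1) s) hR
  have h3 : NEXP O fun e : Fin 3 → List Bool => ∃ t, Str k (e 0) (e 1) (e 2) t ∧
      ∃ n, t.length = n + 1 ∧ val t ≤ cnt n (RR O (e 2) (e 1)) := by
    refine nexp_ex (k := 3) (R := fun e t => Str k (e 0) (e 1) (e 2) t ∧
      ∃ n, t.length = n + 1 ∧ val t ≤ cnt n (RR O (e 2) (e 1))) ((nexp_Str k).and hC)
      (g := fun n => mm k n + 2) ((L3_poly k).add (PolyB.const 2)) ?_
    rintro e t ⟨hs, -⟩
    have h1 := (L3_lens hs).2.2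
    have h2 := L3_size1 k _ _ (len_le_size e 0)
    show t.length ≤ mm k (size e) + 2
    omega
  have h2 : NEXP O fun e : Fin 2 → List Bool => ∃ q t, Str k (e 0) (e 1) q t ∧
      ∃ n, t.length = n + 1 ∧ val t ≤ cnt n (RR O q (e 1)) := by
    refine nexp_ex (k := 2) (R := fun e q => ∃ t, Str k (e 0) (e 1) q t ∧
      ∃ n, t.length = n + 1 ∧ val t ≤ cnt n (RR O q (e 1))) h3
      (g := fun n => mm k n) (L3_poly k) ?_
    rintro e q ⟨t, hs, -⟩
    have h1 := (L3_lens hs).2.1
    exact h1.trans (L3_size1 k _ _ (len_le_size e 0))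
  have h1 : NEXP O fun e : Fin 1 → List Bool => ∃ x' q t, Str k (e 0) x' q t ∧
      ∃ n, t.length = n + 1 ∧ val t ≤ cnt n (RR O q x') := by
    refine nexp_ex (k := 1) (R := fun e x' => ∃ q t, Str k (e 0) x' q t ∧
      ∃ n, t.length = n + 1 ∧ val t ≤ cnt n (RR O q x')) h2
      (g := fun n => n) PolyB.id ?_
    rintro e x' ⟨q, t, hs, -⟩
    exact (L3_lens hs).1.trans (len_le_size e 0)
  exact h1.congr fun e => (L3_iff k (e 0)).symm

end Pool.Agent.LibRO74
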