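import Pool.Agent.LibRO74.Def
import Pool.Agent.LibNexp.Witness

/-!
[RO74 LA] First phase of the program for `Hit`: adapt `witLang_mem` of `LibNexp/Witness.lean` (the
stacks are the same; the two `mvc` turn the counter `1^m` into `0^m`: `mvc_sound`, `mvc_complete`).
-/

namespace Pool.Agent.LibRO74

open Function Pool.Agent.LibNexp Pool.Agent.LibBHN

variable {O : List Bool → Bool}

/-- `q` is moved to stack `5`, some `y` of length `2^|z|` is guessed, `0 z y` is put on stack `3`,
and the counter on stack `2` is set to zero. -/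
def pA : Prog := .seq (mv 1 5) (.seq (.star load) (.seq (.empty 0) (.seq (.star guessInc)
  (.seq (.alt (.push 3 false) (.push 3 true)) (.seq (mvc 2 true 6 false) (.seq (.empty 2)
    (.seq (mvc 6 false 2 false) (.seq (.empty 6) (.seq (mv 1 3) (.push 3 false))))))))))

private theorem LA_init {e : Fin 2 → List Bool} {t : ℕ} {τ : State} (h : Run O (mv 1 5) t (init e) τ) :
    t = 2 * (e 1).length + 1 ∧ τ 0 = e 0 ∧ τ 1 = [] ∧ τ 2 = [] ∧ τ 3 = [] ∧ τ 4 = [] ∧
      (τ 5).length = (e 1).length ∧ τ 6 = [] := by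
  rw [run_mv (by norm_num)] at h
  obtain ⟨ht, rfl⟩ := h
  have h0 : init e 0 = e 0 := init_apply e 0
  have h1 : init e 1 = e 1 := init_apply e 1
  refine ⟨by rw [ht, h1], ?_, ?_, ?_, ?_, ?_, ?_, ?_⟩
  · rw [update_of_ne (by norm_num), update_of_ne (by norm_num), h0]
  · rw [update_of_ne (by norm_num), update_self]
  · rw [update_of_ne (by norm_num), update_of_ne (by norm_num)]
    exact init_ge e (by norm_num)
  · rw [update_of_ne (by norm_num), update_of_ne (by norm_num)]
    exact init_ge e (by norm_num)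
  · rw [update_of_ne (by norm_num), update_of_ne (by norm_num)]
    exact init_ge e (by norm_num)
  · rw [update_self, h1, init_ge e (r := 5) (by norm_num)]
    simp
  · rw [update_of_ne (by norm_num), update_of_ne (by norm_num)]
    exact init_ge e (by norm_num)

private theorem LA_cnt {a b : ℕ} (hab : a ≠ b) {t t' : ℕ} {σ τ ρ : State}
    (h : Run O (mvc a true b false) t σ τ) (ha : τ a = [])
    (h' : Run O (mvc b false a false) t' τ ρ) (hb : ρ b = []) (hb0 : σ b = []) :
    σ a = List.replicate (σ a).length true ∧ ρ a = List.replicate (σ a).length false ∧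
      ∀ r, r ≠ a → r ≠ b → ρ r = σ r := by
  obtain ⟨k, k1, k2, k3⟩ := mvc_sound hab h
  obtain ⟨l, l1, l2, l3⟩ := mvc_sound (Ne.symm hab) h'
  rw [ha, List.append_nil] at k1
  rw [hb0, List.append_nil] at k2
  rw [hb, List.append_nil] at l1
  rw [ha, List.append_nil] at l2
  have hkl : k = l := by
    have := congrArg List.length (k2.symm.trans l1)
    rwa [List.length_replicate, List.length_replicate] at this
  subst hkl
  have hk : (σ a).length = k := by rw [k1, List.length_replicate]
  refine ⟨by rw [hk]; exact k1, by rw [hk]; exact l2, ?_⟩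
  intro r h1 h2
  rw [l3 r h2 h1, k3 r h1 h2]

theorem pA_sound {e : Fin 2 → List Bool} {t : ℕ} {σ : State} (h : Run O pA t (init e) σ) :
    ∃ y : List Bool, y.length = 2 ^ (e 0).length ∧ σ 3 = false :: (e 0 ++ y) ∧
      σ 2 = List.replicate (e 0).length false ∧ σ 4 = [] ∧ (σ 5).length = (e 1).length := by
  obtain ⟨t1, t2, τ0, -, h0, t3, t4, τ1, -, h1, t5, t6, τ2, -, ⟨-, h2, rfl⟩, t7, t8, τ3, -, h3,
    t9, t10, τ4, -, h4, t11, t12, τ5, -, h5, t13, t14, τ6, -, ⟨-, h6, rfl⟩, t15, t16, τ7, -, h7,
    t17, t18, τ8, -, ⟨-, h8, rfl⟩, t19, t20, τ9, -, h9, -, rfl⟩ := h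
  obtain ⟨-, z0, z1, z2, z3, z4, z5, z6⟩ := LA_init h0
  -- after loading
  have hl := iter_inv (P := fun σ => e 0 = (σ 1).reverse ++ σ 0 ∧ (σ 2).length = (σ 1).length ∧
    val (σ 2) = 0 ∧ σ 3 = [] ∧ σ 4 = [] ∧ (σ 5).length = (e 1).length ∧ σ 6 = []) (by
      intro t σ τ h ⟨i1, i2, i3, i4, i5, i6, i7⟩
      obtain ⟨-, b, l, h9, rfl⟩ := run_load.1 h
      refine ⟨?_, ?_, ?_, ?_, ?_, ?_, ?_⟩
      · rw [update_of_ne (by norm_num), update_self, update_of_ne (by norm_num),
          update_of_ne (by norm_num), update_self, i1, h9]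
        simp
      · rw [update_self, update_of_ne (by norm_num), update_self, List.length_cons,
          List.length_cons, i2]
      · rw [update_self]
        simp only [val, i3, Bool.toNat_false]
      · rw [update_of_ne (by norm_num), update_of_ne (by norm_num), update_of_ne (by norm_num), i4]
      · rw [update_of_ne (by norm_num), update_of_ne (by norm_num), update_of_ne (by norm_num), i5]
      · rw [update_of_ne (by norm_num), update_of_ne (by norm_num), update_of_ne (by norm_num), i6]
      · rw [update_of_ne (by norm_num), update_of_ne (by norm_num), update_of_ne (by norm_num), i7])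
    h1 ⟨by rw [z0, z1]; rfl, by rw [z1, z2], by rw [z2]; rfl, z3, z4, z5, z6⟩
  obtain ⟨i1, i2, i3, i4, i5, i6, i7⟩ := hl
  rw [h2, List.append_nil] at i1
  -- after guessing
  have hg := iter_inv (P := fun σ => σ 1 = τ2 1 ∧ (σ 2).length = (τ2 2).length ∧
    val (σ 2) = (σ 3).length ∧ σ 4 = [] ∧ σ 5 = τ2 5 ∧ σ 6 = τ2 6) (by
      rintro t σ τ ⟨t1, t2, υ, -, h9, h10⟩ ⟨j1, j2, j3, j4, j5, j6⟩
      obtain ⟨b, rfl⟩ : ∃ b, υ = update σ 3 (b :: σ 3) := by
        rcases h9 with ⟨-, rfl⟩ | ⟨-, rfl⟩
        · exact ⟨false, rfl⟩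
        · exact ⟨true, rfl⟩
      obtain ⟨k1, k2, k3, k4⟩ := inc_sound (by rw [update_of_ne (by norm_num)]; exact j4) h10
      rw [update_of_ne (by norm_num)] at k1 k2
      refine ⟨?_, by rw [k2, j2], ?_, k3, ?_, ?_⟩
      · rw [k4 1 (by norm_num) (by norm_num), update_of_ne (by norm_num), j1]
      · rw [k1, k4 3 (by norm_num) (by norm_num), update_self, List.length_cons, j3]
      · rw [k4 5 (by norm_num) (by norm_num), update_of_ne (by norm_num), j5]
      · rw [k4 6 (by norm_num) (by norm_num), update_of_ne (by norm_num), j6])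
    h3 ⟨rfl, rfl, by rw [i3, i4]; rfl, i5, rfl, rfl⟩
  obtain ⟨j1, j2, j3, j4, j5, j6⟩ := hg
  obtain ⟨b, rfl⟩ : ∃ b, τ4 = update τ3 3 (b :: τ3 3) := by
    rcases h4 with ⟨-, rfl⟩ | ⟨-, rfl⟩
    · exact ⟨false, rfl⟩
    · exact ⟨true, rfl⟩
  obtain ⟨k1, k2, k3⟩ := LA_cnt (by norm_num) h5 h6 h7 h8
    (by rw [update_of_ne (by norm_num), j6, i7])
  rw [update_of_ne (by norm_num)] at k1 k2
  have e1 : (τ3 2).length = (e 0).length := by
    rw [j2, i2, i1, List.length_reverse]
  rw [e1] at k1 k2
  have m3 : τ8 3 = b :: τ3 3 := by rw [k3 3 (by norm_num) (by norm_num), update_self]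
  have m1 : τ8 1 = τ2 1 := by
    rw [k3 1 (by norm_num) (by norm_num), update_of_ne (by norm_num), j1]
  have m4 : τ8 4 = [] := by
    rw [k3 4 (by norm_num) (by norm_num), update_of_ne (by norm_num), j4]
  have m5 : (τ8 5).length = (e 1).length := by
    rw [k3 5 (by norm_num) (by norm_num), update_of_ne (by norm_num), j5, i6]
  rw [run_mv (by norm_num)] at h9
  obtain ⟨-, rfl⟩ := h9
  refine ⟨b :: τ3 3, ?_, ?_, ?_, ?_, ?_⟩
  · have e3 := val_true (e 0).length []
    rw [List.append_nil, ← k1] at e3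
    simp only [val, zero_add, mul_one] at e3
    rw [List.length_cons, ← j3, e3]
  · rw [update_self, update_self, m1, m3, ← i1]
  · rw [update_of_ne (by norm_num), update_of_ne (by norm_num), update_of_ne (by norm_num), k2]
  · rw [update_of_ne (by norm_num), update_of_ne (by norm_num), update_of_ne (by norm_num), m4]
  · rw [update_of_ne (by norm_num), update_of_ne (by norm_num), update_of_ne (by norm_num), m5]

theorem pA_complete {e : Fin 2 → List Bool} {y : List Bool} (hy : y.length = 2 ^ (e 0).length) :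
    ∃ t σ, t ≤ 2 ^ (8 * size e + 8) ∧ Run O pA t (init e) σ ∧ σ 3 = false :: (e 0 ++ y) ∧
      σ 2 = List.replicate (e 0).length false ∧ σ 4 = [] ∧ (σ 5).length = (e 1).length := by
  obtain ⟨t, σ, ht, hr⟩ : ∃ t σ, t ≤ 2 ^ (8 * size e + 8) ∧ Run O pA t (init e) σ ∧
      σ 3 = false :: (e 0 ++ y) := by
    set x := e 0 with hx
    set n := x.length with hn
    obtain ⟨b, u, rfl⟩ : ∃ b u, y = b :: u := by
      cases y with
      | nil => have := Nat.two_pow_pos n; simp at hy; omega
      | cons b u => exact ⟨b, u, rfl⟩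
    rw [List.length_cons] at hy
    have h0 : Run O (mv 1 5) (2 * (init e 1).length + 1) (init e)
        (update (update (init e) 1 []) 5 ((init e 1).reverse ++ init e 5)) :=
      (run_mv (by norm_num)).2 ⟨rfl, rfl⟩
    obtain ⟨ht0, z0, z1, z2, z3, z4, z5, z6⟩ := LA_init h0
    set τ0 := update (update (init e) 1 []) 5 ((init e 1).reverse ++ init e 5) with hτ0
    have h1 := load_complete (O := O) x τ0 z0
    rw [z1, z2, List.append_nil, List.append_nil] at h1
    set τ1 := update (update (update τ0 0 []) 1 x.reverse) 2 (List.replicate x.length false)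
      with hτ1
    have a0 : τ1 0 = [] := by
      rw [hτ1, update_of_ne (by norm_num), update_of_ne (by norm_num), update_self]
    have a1 : τ1 1 = x.reverse := by rw [hτ1, update_of_ne (by norm_num), update_self]
    have a2 : τ1 2 = List.replicate n false := by rw [hτ1, update_self]
    have a3 : τ1 3 = [] := by
      rw [hτ1, update_of_ne (by norm_num), update_of_ne (by norm_num), update_of_ne (by norm_num), z3]
    have a4 : τ1 4 = [] := by
      rw [hτ1, update_of_ne (by norm_num), update_of_ne (by norm_num), update_of_ne (by norm_num), z4]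
    have a6 : τ1 6 = [] := by
      rw [hτ1, update_of_ne (by norm_num), update_of_ne (by norm_num), update_of_ne (by norm_num), z6]
    have a2v : val (τ1 2) = 0 := by
      rw [a2]
      have := val_false n []
      rw [List.append_nil] at this
      rw [this]; rfl
    have a2l : (τ1 2).length = n := by rw [a2, List.length_replicate]
    obtain ⟨t2, τ3, ht2, h3, b1, b2, b3, b4, b5⟩ := guessInc_complete (O := O) u τ1 a4
      (by rw [a2v, a2l]; omega)
    rw [a2l] at ht2 b3
    rw [a2v, zero_add] at b2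
    rw [a3, List.append_nil] at b1
    have b0 : τ3 1 = x.reverse := by rw [b5 1 (by norm_num) (by norm_num) (by norm_num), a1]
    have b6 : τ3 6 = [] := by rw [b5 6 (by norm_num) (by norm_num) (by norm_num), a6]
    set τ4 := update τ3 3 (b :: τ3 3) with hτ4
    have h4 : Run O (.alt (.push 3 false) (.push 3 true)) 1 τ3 τ4 := by
      cases b
      · exact Or.inl ⟨rfl, rfl⟩
      · exact Or.inr ⟨rfl, rfl⟩
    have c2 : τ4 2 = List.replicate n true ++ [] := by
      rw [hτ4, update_of_ne (by norm_num), List.append_nil]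
      have := all_true (l := τ3 2) (by rw [b3, b2, hy])
      rwa [b3] at this
    have c6 : τ4 6 = [] := by rw [hτ4, update_of_ne (by norm_num), b6]
    have c1 : τ4 1 = x.reverse := by rw [hτ4, update_of_ne (by norm_num), b0]
    have c3 : τ4 3 = b :: u := by rw [hτ4, update_self, b1]
    have h5 := mvc_complete (O := O) (a := 2) (b := 6) (by norm_num) (x := true) (y := false) c2
    rw [c6, List.append_nil] at h5
    set τ5 := update (update τ4 2 []) 6 (List.replicate n false) with hτ5
    have d2 : τ5 2 = [] := by rw [hτ5, update_of_ne (by norm_num), update_self]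
    have d6 : τ5 6 = List.replicate n false ++ [] := by rw [hτ5, update_self, List.append_nil]
    have d1 : τ5 1 = x.reverse := by
      rw [hτ5, update_of_ne (by norm_num), update_of_ne (by norm_num), c1]
    have d3 : τ5 3 = b :: u := by
      rw [hτ5, update_of_ne (by norm_num), update_of_ne (by norm_num), c3]
    have h7 := mvc_complete (O := O) (a := 6) (b := 2) (by norm_num) (x := false) (y := false) d6
    rw [d2, List.append_nil] at h7
    set τ7 := update (update τ5 6 []) 2 (List.replicate n false) with hτ7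
    have f6 : τ7 6 = [] := by rw [hτ7, update_of_ne (by norm_num), update_self]
    have f1 : τ7 1 = x.reverse := by
      rw [hτ7, update_of_ne (by norm_num), update_of_ne (by norm_num), d1]
    have f3 : τ7 3 = b :: u := by
      rw [hτ7, update_of_ne (by norm_num), update_of_ne (by norm_num), d3]
    have h9 : Run O (mv 1 3) (2 * (τ7 1).length + 1) τ7
        (update (update τ7 1 []) 3 ((τ7 1).reverse ++ τ7 3)) := (run_mv (by norm_num)).2 ⟨rfl, rfl⟩
    refine ⟨(2 * (init e 1).length + 1) + (3 * x.length + (1 + (t2 + (1 + (2 * n + (1 + (2 * n +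
      (1 + ((2 * (τ7 1).length + 1) + 1))))))))), _, ?_,
      ⟨_, _, _, rfl, h0, _, _, _, rfl, h1, _, _, _, rfl, ⟨rfl, a0, rfl⟩, _, _, _, rfl, h3,
      _, _, _, rfl, h4, _, _, _, rfl, h5, _, _, _, rfl, ⟨rfl, d2, rfl⟩, _, _, _, rfl, h7,
      _, _, _, rfl, ⟨rfl, f6, rfl⟩, _, _, _, rfl, h9, rfl, rfl⟩, ?_⟩
    · have hi : init e 1 = e 1 := init_apply e 1
      have hs : size e = n + (e 1).length := by simp [size, hn, hx, Fin.sum_univ_two]
      rw [f1, List.length_reverse, hi, ← hn]
      set N := size e with hN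
      have e0 : n ≤ N := by omega
      have e1 : u.length ≤ 2 ^ n := by omega
      have e2 : N < 2 ^ N := Nat.lt_two_pow_self
      have e3 : t2 ≤ 2 ^ n * (4 * n + 4) := le_trans ht2 (Nat.mul_le_mul_right _ e1)
      have e4 : 2 ^ n * (4 * n + 4) ≤ 2 ^ N * (4 * 2 ^ N + 4) :=
        Nat.mul_le_mul (Nat.pow_le_pow_right (by norm_num) e0) (by omega)
      have e5 : 2 ^ (8 * N + 8) = 256 * (2 ^ N) ^ 8 := by
        rw [pow_add, mul_comm 8 N, pow_mul]; ring
      have e6 : 1 ≤ 2 ^ N := Nat.one_le_two_pow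
      have e7 : (2 ^ N) ^ 2 ≤ (2 ^ N) ^ 8 := Nat.pow_le_pow_right e6 (by norm_num)
      have e8 : 2 ^ N ≤ (2 ^ N) ^ 2 := Nat.le_self_pow (by norm_num) _
      rw [e5]
      have e9 : 2 ^ N * (4 * 2 ^ N + 4) = 4 * (2 ^ N) ^ 2 + 4 * 2 ^ N := by ring
      omega
    · rw [update_self, update_self, f1, f3, List.reverse_reverse]
  obtain ⟨hr, h3⟩ := hr
  obtain ⟨y', -, -, h2, h4, h5⟩ := pA_sound hr
  exact ⟨t, σ, ht, hr, h3, h2, h4, h5⟩

end Pool.Agent.LibRO74
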