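import Pool.Agent.LibRO74.Def
import Pool.Agent.LibNexp.Witness

/-!
[RO74 LB] Second phase of the program for `Hit`: `2^m` queries, counted on stack `2` (scratch stack
`4`), each after a push of `1` on stack `3`. `inc_sound`, `inc_complete`, `iter_inv` (invariant:
`σ 3 = 1^(val (σ 2)) ++ s`, all `O (1^i ++ s) = true` for `1 ≤ i ≤ val (σ 2)`, `|σ 2| = m`),
`pops_sound`, `pops_complete`, `all_true`, as in `guessInc_complete` and `witLang_mem`.
-/

namespace Pool.Agent.LibRO74

open Function Pool.Agent.LibNexp Pool.Agent.LibBHN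

variable {O : List Bool → Bool}

/-- Push a one on stack `3` and check that the oracle accepts. -/
def ask : Prog := .seq (.push 3 true) (.query 3 true)

/-- `2^m` questions, for a counter `0^m`. -/
def pB : Prog := .seq (.star (.seq ask inc)) (.seq ask (.seq (.star (.pop 2 true)) (.empty 2)))

private theorem LB_shift (i : ℕ) (s : List Bool) :
    List.replicate i true ++ true :: s = List.replicate (i + 1) true ++ s := by
  rw [List.replicate_succ', List.append_assoc]; rfl

private theorem LB_ask_sound {t : ℕ} {σ σ' : State} (h : Run O ask t σ σ') :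
    σ' = update σ 3 (true :: σ 3) ∧ O (true :: σ 3) = true := by
  obtain ⟨t1, t2, τ, -, ⟨-, rfl⟩, -, h2, rfl⟩ := h
  rw [update_self] at h2
  exact ⟨rfl, h2⟩

private theorem LB_ask_complete {σ : State} (h : O (true :: σ 3) = true) :
    Run O ask 2 σ (update σ 3 (true :: σ 3)) :=
  ⟨1, 1, _, rfl, ⟨rfl, rfl⟩, rfl, by rw [update_self]; exact h, rfl⟩

private theorem LB_iter : ∀ (c : ℕ) (σ : State), σ 4 = [] →
    val (σ 2) + c < 2 ^ (σ 2).length →
    (∀ i, 1 ≤ i → i ≤ c → O (List.replicate i true ++ σ 3) = true) →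
    ∃ t σ', t ≤ c * (4 * (σ 2).length + 5) ∧
      Iter (Run O (.seq ask inc)) t σ σ' ∧ σ' 3 = List.replicate c true ++ σ 3 ∧
      val (σ' 2) = val (σ 2) + c ∧
      (σ' 2).length = (σ 2).length ∧ σ' 4 = [] ∧ ∀ r, r ≠ 2 → r ≠ 3 → r ≠ 4 → σ' r = σ r := by
  intro c
  induction c with
  | zero =>
    intro σ h4 _ _
    exact ⟨0, σ, by simp, Iter.nil σ, by simp, by simp, rfl, h4, fun _ _ _ _ => rfl⟩
  | succ c ih =>
    intro σ h4 h hO
    have h1 : O (true :: σ 3) = true := hO 1 le_rfl (by omega)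
    set τ := update σ 3 (true :: σ 3) with hτ
    have a2 : τ 2 = σ 2 := by rw [hτ, update_of_ne (by norm_num)]
    have a4 : τ 4 = [] := by rw [hτ, update_of_ne (by norm_num), h4]
    have a3 : τ 3 = true :: σ 3 := by rw [hτ, update_self]
    obtain ⟨t1, ρ, ht1, h2⟩ := inc_complete (O := O) (σ := τ) a4 (by rw [a2]; omega)
    obtain ⟨b1, b2, b3, b4⟩ := inc_sound a4 h2
    rw [a2] at b1 b2 ht1
    have b5 : ρ 3 = true :: σ 3 := by rw [b4 3 (by norm_num) (by norm_num), a3]
    obtain ⟨t2, σ', ht2, h3, c1, c2, c3, c4, c5⟩ := ih ρ b3 (by rw [b1, b2]; omega)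
      (fun i hi hi' => by rw [b5, LB_shift]; exact hO (i + 1) (by omega) (by omega))
    refine ⟨(2 + t1) + t2, σ', ?_, Iter.cons ⟨2, t1, τ, rfl, LB_ask_complete h1, h2⟩ h3,
      ?_, ?_, ?_, c4, ?_⟩
    · rw [b2] at ht2
      rw [Nat.succ_mul]
      omega
    · rw [c1, b5, LB_shift]
    · rw [c2, b1]; ring
    · rw [c3, b2]
    · intro r hr2 hr3 hr4
      rw [c5 r hr2 hr3 hr4, b4 r hr2 hr4, hτ, update_of_ne hr3]

theorem pB_sound {m t : ℕ} {σ σ' : State} (h2 : σ 2 = List.replicate m false) (h4 : σ 4 = [])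
    (h : Run O pB t σ σ') : σ' 3 = List.replicate (2 ^ m) true ++ σ 3 ∧ σ' 5 = σ 5 ∧
      ∀ i, 1 ≤ i → i ≤ 2 ^ m → O (List.replicate i true ++ σ 3) = true := by
  obtain ⟨t1, t2, τ1, -, h1, t3, t4, τ2, -, h3, t5, t6, τ3, -, h5, -, h6, rfl⟩ := h
  have hv : val (σ 2) = 0 := by
    have := val_false m []
    rw [List.append_nil] at this
    rw [h2, this]; rfl
  have hi := iter_inv (P := fun τ : State => τ 3 = List.replicate (val (τ 2)) true ++ σ 3 ∧
      τ 5 = σ 5 ∧ τ 4 = [] ∧ (τ 2).length = m ∧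
      ∀ i, 1 ≤ i → i ≤ val (τ 2) → O (List.replicate i true ++ σ 3) = true) (by
        rintro t τ υ ⟨u1, u2, ρ, -, g1, g2⟩ ⟨i1, i2, i3, i4, i5⟩
        obtain ⟨rfl, g3⟩ := LB_ask_sound g1
        obtain ⟨k1, k2, k3, k4⟩ := inc_sound (by rw [update_of_ne (by norm_num)]; exact i3) g2
        rw [update_of_ne (by norm_num)] at k1 k2
        have e3 : υ 3 = List.replicate (val (τ 2) + 1) true ++ σ 3 := by
          rw [k4 3 (by norm_num) (by norm_num), update_self, i1, List.replicate_succ]; rfl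
        refine ⟨by rw [k1]; exact e3, ?_, k3, by rw [k2, i4], ?_⟩
        · rw [k4 5 (by norm_num) (by norm_num), update_of_ne (by norm_num), i2]
        · intro i hi hi'
          rw [k1] at hi'
          rcases Nat.lt_or_ge (val (τ 2)) i with h7 | h7
          · have h8 : i = val (τ 2) + 1 := by omega
            rw [i1] at g3
            rw [h8, List.replicate_succ]
            exact g3
          · exact i5 i hi h7)
      h1 ⟨by rw [hv]; simp, rfl, h4, by rw [h2, List.length_replicate],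
        fun i hi hi' => by rw [hv] at hi'; omega⟩
  obtain ⟨i1, i2, i3, i4, i5⟩ := hi
  obtain ⟨rfl, g3⟩ := LB_ask_sound h3
  obtain ⟨k, k1, k2⟩ := pops_sound h5
  rw [update_of_ne (by norm_num), h6, List.append_nil] at k1
  have hk : k = m := by rw [← i4, k1, List.length_replicate]
  have e1 : val (τ1 2) + 1 = 2 ^ m := by
    have := val_true k []
    rw [List.append_nil] at this
    rw [k1, this, hk]
    simp [val]
  have e2 : true :: τ1 3 = List.replicate (2 ^ m) true ++ σ 3 := by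
    rw [i1, ← e1, List.replicate_succ]; rfl
  refine ⟨?_, ?_, ?_⟩
  · rw [k2 3 (by norm_num), update_self, e2]
  · rw [k2 5 (by norm_num), update_of_ne (by norm_num), i2]
  · intro i hi hi'
    rcases Nat.lt_or_ge (val (τ1 2)) i with h7 | h7
    · have h8 : i = 2 ^ m := by omega
      rw [h8, ← e2]
      exact g3
    · exact i5 i hi h7

theorem pB_complete {m : ℕ} {σ : State} (h2 : σ 2 = List.replicate m false) (h4 : σ 4 = [])
    (h : ∀ i, 1 ≤ i → i ≤ 2 ^ m → O (List.replicate i true ++ σ 3) = true) :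
    ∃ t σ', t ≤ 2 ^ (8 * m + 8) ∧ Run O pB t σ σ' ∧
      σ' 3 = List.replicate (2 ^ m) true ++ σ 3 ∧ σ' 5 = σ 5 := by
  have hv : val (σ 2) = 0 := by
    have := val_false m []
    rw [List.append_nil] at this
    rw [h2, this]; rfl
  have hl : (σ 2).length = m := by rw [h2, List.length_replicate]
  have hp : 1 ≤ 2 ^ m := Nat.one_le_two_pow
  obtain ⟨t1, τ, ht1, h1, c1, c2, c3, c4, c5⟩ := LB_iter (O := O) (2 ^ m - 1) σ h4
    (by rw [hv, hl]; omega) (fun i hi hi' => h i hi (by omega))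
  rw [hl] at ht1 c3
  rw [hv, zero_add] at c2
  have e1 : true :: τ 3 = List.replicate (2 ^ m) true ++ σ 3 := by
    obtain ⟨j, hj⟩ : ∃ j, 2 ^ m = j + 1 := ⟨2 ^ m - 1, by omega⟩
    rw [c1, hj, List.replicate_succ]; rfl
  have h3 : O (true :: τ 3) = true := by rw [e1]; exact h _ hp le_rfl
  set υ := update τ 3 (true :: τ 3) with hυ
  have d2 : υ 2 = List.replicate m true := by
    rw [hυ, update_of_ne (by norm_num)]
    have := all_true (l := τ 2) (by rw [c3, c2]; omega)
    rwa [c3] at this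
  have h5 := pops_complete (O := O) (r := 2) (b := true) m υ d2
  refine ⟨t1 + (2 + (m + 1)), update υ 2 [], ?_, ⟨_, _, _, rfl, h1, _, _, _, rfl,
    LB_ask_complete h3, _, _, _, rfl, h5, rfl, by rw [update_self], rfl⟩, ?_, ?_⟩
  · have f1 : t1 ≤ 2 ^ m * (4 * m + 5) := le_trans ht1 (Nat.mul_le_mul_right _ (by omega))
    have f2 : m < 2 ^ m := Nat.lt_two_pow_self
    have f3 : 2 ^ m * (4 * m + 5) ≤ 2 ^ m * (4 * 2 ^ m + 5) := Nat.mul_le_mul_left _ (by omega)
    have f4 : 2 ^ (8 * m + 8) = 256 * (2 ^ m) ^ 8 := by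
      rw [pow_add, mul_comm 8 m, pow_mul]; ring
    have f5 : (2 ^ m) ^ 2 ≤ (2 ^ m) ^ 8 := Nat.pow_le_pow_right hp (by norm_num)
    have f6 : 2 ^ m ≤ (2 ^ m) ^ 2 := Nat.le_self_pow (by norm_num) _
    have f7 : 2 ^ m * (4 * 2 ^ m + 5) = 4 * (2 ^ m) ^ 2 + 5 * 2 ^ m := by ring
    rw [f4]
    omega
  · rw [update_of_ne (by norm_num), hυ, update_self, e1]
  · rw [update_of_ne (by norm_num), hυ, update_of_ne (by norm_num),
      c5 5 (by norm_num) (by norm_num) (by norm_num)]

end Pool.Agent.LibRO74
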