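import Mathlib

/-!
The random oracle.
-/

namespace Pool.Agent.LibRO74

open MeasureTheory

/-- A fair coin. -/
noncomputable def coin : Measure Bool := (PMF.uniformOfFintype Bool).toMeasure

instance : IsProbabilityMeasure coin := by unfold coin; infer_instance

/-- The random oracle: independent fair coins. -/
noncomputable def rnd : Measure (List Bool → Bool) := Measure.infinitePi fun _ => coin

instance : IsProbabilityMeasure rnd := by unfold rnd; infer_instance

end Pool.Agent.LibRO74
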