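import Pool.Agent.LibRO74.M0

/-!
[RO74 M1] Resampling finitely many cells does not change the random oracle.

`Measure.eq_infinitePi`: for a box `{O | ∀ s ∈ S, O s ∈ t s}`: its preimage is the product of
`{g | ∀ i, ι i ∈ S → g i ∈ t (ι i)}` and `{O | ∀ s ∈ S, s ∉ range ι → O s ∈ t s}` (`hι.extend_apply`,
`Function.extend_apply'`); measures `Measure.pi_pi`, `infinitePi_pi`; then split the product over `S`
in `s ∈ range ι` and the rest. Measurability of the map: coordinatewise (`measurable_pi_iff`).
-/

namespace Pool.Agent.LibRO74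

open MeasureTheory

theorem measurable_extend {I : Type} [Fintype I] {ι : I → List Bool}
    (hι : Function.Injective ι) :
    Measurable fun p : (I → Bool) × (List Bool → Bool) => Function.extend ι p.1 p.2 := by
  classical
  refine measurable_pi_iff.2 fun s => ?_
  by_cases hs : ∃ i, ι i = s
  · obtain ⟨i, rfl⟩ := hs
    have h : (fun p : (I → Bool) × (List Bool → Bool) => Function.extend ι p.1 p.2 (ι i)) =
        fun p => p.1 i := by
      funext p
      exact hι.extend_apply _ _ _
    rw [h]
    exact (measurable_pi_apply i).comp measurable_fst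
  · have h : (fun p : (I → Bool) × (List Bool → Bool) => Function.extend ι p.1 p.2 s) =
        fun p => p.2 s := by
      funext p
      exact Function.extend_apply' _ _ _ hs
    rw [h]
    exact (measurable_pi_apply s).comp measurable_snd

private theorem M1_pre {I : Type} [Fintype I] {ι : I → List Bool}
    (hι : Function.Injective ι) (S S' : Finset (List Bool))
    (hS' : ∀ s, s ∈ S' ↔ s ∈ S ∧ ¬ ∃ i, ι i = s) (t : List Bool → Set Bool) (u : I → Set Bool)
    (hu : ∀ i, ι i ∈ S → u i = t (ι i)) (hu' : ∀ i, ι i ∉ S → u i = Set.univ) :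
    (fun p : (I → Bool) × (List Bool → Bool) => Function.extend ι p.1 p.2) ⁻¹'
        Set.pi (S : Set (List Bool)) t =
      (Set.pi Set.univ u) ×ˢ Set.pi (S' : Set (List Bool)) t := by
  ext ⟨g, O⟩
  constructor
  · intro h
    refine ⟨fun i _ => ?_, fun s hs => ?_⟩
    · by_cases hi : ι i ∈ S
      · rw [hu i hi]
        have h2 := h (ι i) (Finset.mem_coe.2 hi)
        have h3 : Function.extend ι g O (ι i) = g i := hι.extend_apply _ _ _
        change Function.extend ι g O (ι i) ∈ t (ι i) at h2
        rwa [h3] at h2
      · rw [hu' i hi]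
        exact Set.mem_univ _
    · obtain ⟨h1, h2⟩ := (hS' s).1 (Finset.mem_coe.1 hs)
      have h3 := h s (Finset.mem_coe.2 h1)
      have h4 : Function.extend ι g O s = O s := Function.extend_apply' _ _ _ h2
      change Function.extend ι g O s ∈ t s at h3
      rwa [h4] at h3
  · rintro ⟨h1, h2⟩ s hs
    change Function.extend ι g O s ∈ t s
    by_cases hs2 : ∃ i, ι i = s
    · obtain ⟨i, rfl⟩ := hs2
      have h3 : Function.extend ι g O (ι i) = g i := hι.extend_apply _ _ _
      rw [h3, ← hu i (Finset.mem_coe.1 hs)]
      exact h1 i (Set.mem_univ _)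
    · have h4 : Function.extend ι g O s = O s := Function.extend_apply' _ _ _ hs2
      rw [h4]
      exact h2 s (Finset.mem_coe.2 ((hS' s).2 ⟨Finset.mem_coe.1 hs, hs2⟩))

theorem map_extend {I : Type} [Fintype I] {ι : I → List Bool} (hι : Function.Injective ι) :
    Measure.map (fun p : (I → Bool) × (List Bool → Bool) => Function.extend ι p.1 p.2)
      ((Measure.pi fun _ : I => coin).prod rnd) = rnd := by
  classical
  unfold rnd
  refine Measure.eq_infinitePi _ fun S t ht => ?_
  rw [Measure.map_apply (measurable_extend hι)
    (MeasurableSet.pi S.countable_toSet fun i _ => ht i)]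
  rw [M1_pre hι S (S.filter fun s => ¬ ∃ i, ι i = s) (fun s => Finset.mem_filter) t
    (fun i => if ι i ∈ S then t (ι i) else Set.univ) (fun i hi => if_pos hi)
    (fun i hi => if_neg hi)]
  rw [Measure.prod_prod, Measure.pi_pi, Measure.infinitePi_pi _ (fun i _ => ht i)]
  have h1 : ∏ i : I, coin (if ι i ∈ S then t (ι i) else Set.univ) =
      ∏ s ∈ S.filter (fun s => ∃ i, ι i = s), coin (t s) := by
    calc ∏ i : I, coin (if ι i ∈ S then t (ι i) else Set.univ)
        = ∏ i : I, (if ι i ∈ S then coin (t (ι i)) else 1) := by
          refine Finset.prod_congr rfl fun i _ => ?_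
          split_ifs
          · rfl
          · exact measure_univ
      _ = ∏ i ∈ Finset.univ.filter (fun i => ι i ∈ S), coin (t (ι i)) :=
          (Finset.prod_filter _ _).symm
      _ = ∏ s ∈ (Finset.univ.filter (fun i => ι i ∈ S)).image ι, coin (t s) :=
          (Finset.prod_image (f := fun s => coin (t s)) (g := ι) fun x _ y _ h => hι h).symm
      _ = ∏ s ∈ S.filter (fun s => ∃ i, ι i = s), coin (t s) := by
          refine Finset.prod_congr ?_ fun _ _ => rfl
          ext s
          simp only [Finset.mem_image, Finset.mem_filter, Finset.mem_univ, true_and]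
          constructor
          · rintro ⟨i, hi, rfl⟩
            exact ⟨hi, i, rfl⟩
          · rintro ⟨hs, i, rfl⟩
            exact ⟨i, hs, rfl⟩
  rw [h1]
  exact Finset.prod_filter_mul_prod_filter_not S (fun s => ∃ i, ι i = s) fun s => coin (t s)

end Pool.Agent.LibRO74
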