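import Pool.Agent.LibRO74.Def

/-!
[RO74 M3] Measurability.

`measurable_of_agree`: the strings of length `≤ M` are a finite set `S` (`List.finite_length_le`),
`E` is the preimage under `O ↦ O restricted to S` (a measurable map to a finite type with
measurable singletons, all of whose subsets are measurable) of the image of `E`.

`bad_measurable`: for `M` large, membership in `Bad p c k n` depends only on the strings of length
`≤ M`: `Acc` by `acc_agree` of LibNexp/Use (`|⟨x,v⟩| ≤ 3n+2` (`length_pair`), `tim c k n |v| ≤ tim c k n n`: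
`M ≥ 3n + 2 + tim c k n n`); the language by the cells:
a cell has length `≤ i + 1 + 2^m + m`, `i ≤ 2^m + m`, `m = mm k n`: `M ≥ 2 * 2^m + 2 * m + 1`.
-/

namespace Pool.Agent.LibRO74

open MeasureTheory Pool.Agent.LibNexp Pool.Agent.LibBHN

private theorem M3_cnt_mono {m : ℕ} {P Q : List Bool → Prop}
    (h : ∀ z : List Bool, z.length = m → P z → Q z) : cnt m P ≤ cnt m Q := by
  classical
  unfold cnt
  apply Finset.card_le_card
  intro t ht
  rw [Finset.mem_filter] at ht ⊢
  exact ⟨ht.1, h _ (length_bits _ _) ht.2⟩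

private theorem M3_hit {O O' : List Bool → Bool} {M : ℕ}
    (h : ∀ s : List Bool, s.length ≤ M → O s = O' s) {z q : List Bool}
    (hM : 2 ^ z.length + q.length + 1 + (z.length + 2 ^ z.length) ≤ M) :
    Hit O z q → Hit O' z q := by
  rintro ⟨y, hy, hc⟩
  refine ⟨y, hy, fun i h1 h2 => ?_⟩
  have hl : (cell i z y).length ≤ M := by
    simp only [cell, List.length_append, List.length_replicate, List.length_cons]
    omega
  rw [← h _ hl]
  exact hc i h1 h2

private theorem M3_tim_mono {c k n a : ℕ} (h : a ≤ n) : tim c k n a ≤ tim c k n n := by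
  unfold tim
  have h1 : 2 * n + 2 + a ≤ 2 * n + 2 + n := by omega
  have h3 : (2 * n + 2 + a) ^ k ≤ (2 * n + 2 + n) ^ k := Nat.pow_le_pow_left h1 k
  have h2 : 2 ^ ((2 * n + 2 + a) ^ k + k) ≤ 2 ^ ((2 * n + 2 + n) ^ k + k) :=
    Nat.pow_le_pow_right (by norm_num) (by omega)
  exact Nat.pow_le_pow_right (by norm_num) (by omega)

theorem measurable_of_agree {E : Set (List Bool → Bool)} (M : ℕ)
    (h : ∀ O O' : List Bool → Bool, (∀ s, s.length ≤ M → O s = O' s) → O ∈ E → O' ∈ E) :
    MeasurableSet E := by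
  classical
  let S : Set (List Bool) := {l | l.length ≤ M}
  have hS : S.Finite := List.finite_length_le Bool M
  have : Finite S := hS
  let ρ : (List Bool → Bool) → (S → Bool) := fun O s => O s.1
  have hρ : Measurable ρ := measurable_pi_lambda _ fun s => measurable_pi_apply s.1
  have hE : E = ρ ⁻¹' (ρ '' E) := by
    apply Set.Subset.antisymm
    · exact Set.subset_preimage_image ρ E
    · rintro O' ⟨O, hO, hOO'⟩
      exact h O O' (fun s hs => congrFun hOO' ⟨s, hs⟩) hO
  rw [hE]
  exact hρ (Set.Finite.measurableSet (Set.toFinite _))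

theorem rlang_agree {k n M : ℕ} (hM : 2 * 2 ^ mm k n + 2 * mm k n + 1 ≤ M)
    {O O' : List Bool → Bool} (h : ∀ s, s.length ≤ M → O s = O' s) {x : List Bool}
    (hx : x.length = n) : x ∈ RLang O k → x ∈ RLang O' k := by
  subst hx
  rintro ⟨j, x', hx', h1, h2, h3⟩
  refine ⟨j, x', hx', h1, h2, h3.trans (Nat.add_le_add_right (M3_cnt_mono fun z hz => ?_) _)⟩
  refine M3_hit h ?_
  rw [hz, List.length_replicate]
  have : mm k x.length - 2 * (x'.length - j) ≤ mm k x.length := Nat.sub_le _ _
  omega

theorem bad_measurable (p : Prog) (c k n : ℕ) : MeasurableSet (Bad p c k n) := by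
  obtain ⟨M, hM⟩ : ∃ M, M = (3 * n + 2 + tim c k n n) + (2 * 2 ^ mm k n + 2 * mm k n + 1) :=
    ⟨_, rfl⟩
  refine measurable_of_agree M ?_
  rintro O O' h ⟨v, hv, hg⟩
  have h' : ∀ s : List Bool, s.length ≤ M → O' s = O s := fun s hs => (h s hs).symm
  refine ⟨v, hv, fun x hx => ?_⟩
  have hT : tim c k n v.length ≤ tim c k n n := M3_tim_mono (by omega)
  have hR : x ∈ RLang O k ↔ x ∈ RLang O' k :=
    ⟨rlang_agree (by omega) h hx, rlang_agree (by omega) h' hx⟩
  have hA : Acc O p (tim c k n v.length) (pair x v) ↔ Acc O' p (tim c k n v.length) (pair x v) := by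
    constructor
    · exact acc_agree fun s hs => h s (by rw [length_pair, hx] at hs; omega)
    · exact acc_agree fun s hs => h' s (by rw [length_pair, hx] at hs; omega)
  rw [← hR, ← hA]
  exact hg x hx

end Pool.Agent.LibRO74
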