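import Pool.Agent.LibRO74.M0

/-!
Infinitely often, by approximate independence.
-/

namespace Pool.Agent.LibRO74

open MeasureTheory Filter

/-- The event depends only on the strings of length at most `M`. -/
def Dep (M : ℕ) (E : Set (List Bool → Bool)) : Prop :=
  ∀ O O' : List Bool → Bool, (∀ s, s.length ≤ M → O s = O' s) → O ∈ E → O' ∈ E

theorem io_of {E : ℕ → Set (List Bool → Bool)} (hD : ∀ n, ∃ M, Dep M (E n)) {q : ENNReal}
    (hq : q < 1) (h : ∀ (M : ℕ) (H : Set (List Bool → Bool)), Dep M H →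
      ∀ᶠ n in atTop, rnd (E n ∩ H) ≤ q * rnd H) :
    ∀ᵐ O ∂rnd, ∃ᶠ n in atTop, O ∉ E n := by
  have key : ∀ N i : ℕ, ∃ (M : ℕ) (H : Set (List Bool → Bool)), Dep M H ∧
      {O | ∀ n, N ≤ n → O ∈ E n} ⊆ H ∧ rnd H ≤ q ^ i := by
    intro N i
    induction i with
    | zero => exact ⟨0, Set.univ, fun _ _ _ _ => trivial, Set.subset_univ _, by simp⟩
    | succ i ih =>
      obtain ⟨M, H, h1, h2, h3⟩ := ih
      obtain ⟨n, hn, hN⟩ := ((h M H h1).and (eventually_ge_atTop N)).exists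
      obtain ⟨M', hM'⟩ := hD n
      refine ⟨max M M', E n ∩ H, ?_, ?_, ?_⟩
      · rintro O O' hO ⟨a, b⟩
        exact ⟨hM' O O' (fun s hs => hO s (hs.trans (le_max_right _ _))) a,
          h1 O O' (fun s hs => hO s (hs.trans (le_max_left _ _))) b⟩
      · intro O hO
        exact ⟨hO n hN, h2 hO⟩
      · calc rnd (E n ∩ H) ≤ q * rnd H := hn
          _ ≤ q * q ^ i := mul_le_mul' le_rfl h3
          _ = q ^ (i + 1) := by rw [pow_succ']
  have h0 : ∀ N : ℕ, rnd {O | ∀ n, N ≤ n → O ∈ E n} = 0 := by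
    intro N
    have h1 : Tendsto (fun i : ℕ => q ^ i) atTop (nhds 0) :=
      ENNReal.tendsto_pow_atTop_nhds_zero_of_lt_one hq
    refine le_antisymm (ge_of_tendsto' h1 fun i => ?_) zero_le
    obtain ⟨M, H, -, h2, h3⟩ := key N i
    exact (measure_mono h2).trans h3
  have h1 : ∀ᵐ O ∂rnd, ∀ N : ℕ, ¬ ∀ n, N ≤ n → O ∈ E n := by
    rw [ae_all_iff]
    intro N
    rw [ae_iff]
    convert h0 N using 2
    ext O
    simp
  filter_upwards [h1] with O hO
  rw [Filter.frequently_atTop]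
  intro N
  have := hO N
  push Not at this
  obtain ⟨n, hn, h2⟩ := this
  exact ⟨n, hn, h2⟩

end Pool.Agent.LibRO74
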