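import Pool.Agent.LibRO74.M3
import Pool.Agent.LibRO74.Q3

/-!
The event for advice of length at most `n - a` depends on finitely many cells.
-/

namespace Pool.Agent.LibRO74

open MeasureTheory Pool.Agent.LibNexp Pool.Agent.LibBHN

theorem badG_dep (p : Prog) (c k n a : ℕ) : ∃ M, Dep M (BadG p c k n a) := by
  refine ⟨max (2 * 2 ^ mm k n + 2 * mm k n + 1) (3 * n + 2 + tim c k n n), ?_⟩
  rintro O O' hO ⟨v, hv, hg⟩
  have hO' : ∀ s, s.length ≤ max (2 * 2 ^ mm k n + 2 * mm k n + 1) (3 * n + 2 + tim c k n n) →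
      O' s = O s := fun s hs => (hO s hs).symm
  refine ⟨v, hv, fun x hx => ?_⟩
  have h1 : x ∈ RLang O k ↔ x ∈ RLang O' k :=
    ⟨rlang_agree (le_max_left _ _) hO hx, rlang_agree (le_max_left _ _) hO' hx⟩
  have ht : tim c k n v.length ≤ tim c k n n := by
    unfold tim
    have hvn : v.length ≤ n := by omega
    gcongr <;> first | omega | norm_num
  have hl : (pair x v).length + tim c k n v.length ≤
      max (2 * 2 ^ mm k n + 2 * mm k n + 1) (3 * n + 2 + tim c k n n) := by
    rw [length_pair, hx]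
    refine le_trans ?_ (le_max_right _ _)
    omega
  have h2 : Acc O p (tim c k n v.length) (pair x v) ↔ Acc O' p (tim c k n v.length) (pair x v) :=
    ⟨acc_agree fun s hs => hO s (hs.trans hl), acc_agree fun s hs => hO' s (hs.trans hl)⟩
  rw [← h1, ← h2]
  exact hg x hx

end Pool.Agent.LibRO74
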