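import Pool.Agent.LibRO74.Def

/-!
The running time is small compared with the number of blocks.
-/

namespace Pool.Agent.LibRO74

open Filter

theorem large (c k : ℕ) : ∀ᶠ n in atTop,
    2 * 2 ^ n * tim c k n n + 2 * 4 ^ n ≤ 2 ^ (2 ^ mm k n) := by
  filter_upwards [eventually_ge_atTop (c + 3)] with n h1
  have e0 : 2 * n + 2 + n = 3 * n + 2 := by ring
  set X : ℕ := 2 ^ ((3 * n + 2) ^ k + k) with hX
  have hXpos : 1 ≤ X := Nat.one_le_two_pow
  have hM : 2 ^ mm k n = 2 ^ (5 * n) * X := by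
    unfold mm
    rw [pow_add]
  have h5 : 5 * n < 2 ^ (5 * n) := Nat.lt_two_pow_self
  have h6 : (5 * n + 1) * X ≤ 2 ^ mm k n := by
    rw [hM]
    exact Nat.mul_le_mul_right _ h5
  have h7 : X + 5 * n ≤ 2 ^ mm k n := by
    have : 5 * n ≤ 5 * n * X := Nat.le_mul_of_pos_right _ hXpos
    have h8 : (5 * n + 1) * X = 5 * n * X + X := by ring
    omega
  set M : ℕ := 2 ^ mm k n with hMdef
  have e1 : 2 * 2 ^ n * tim c k n n = 2 ^ (1 + n + (X + c)) := by
    unfold tim
    rw [e0, ← hX, pow_add 2 (1 + n), pow_add 2 1 n, pow_one]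
  have e2 : 2 * 4 ^ n = 2 ^ (1 + 2 * n) := by
    rw [pow_add, pow_one, pow_mul]
    norm_num
  have e3 : 2 ^ M = 2 ^ (M - 1) + 2 ^ (M - 1) := by
    rw [← two_mul, ← pow_succ']
    congr 1
    omega
  rw [e1, e2, e3]
  apply Nat.add_le_add
  · apply Nat.pow_le_pow_right (by norm_num)
    omega
  · apply Nat.pow_le_pow_right (by norm_num)
    omega

end Pool.Agent.LibRO74
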