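import Pool.Agent.LibRO74.M1

/-!
Fubini, with an event which is not changed by the resampling.
-/

namespace Pool.Agent.LibRO74

open MeasureTheory Classical

theorem Q1_coin (b : Bool) : coin {b} = 2⁻¹ := by
  unfold coin
  rw [PMF.toMeasure_apply_singleton _ _ (MeasurableSet.singleton _), PMF.uniformOfFintype_apply]
  simp

theorem Q1_pi {I : Type} [Fintype I] (B : Finset (I → Bool)) :
    (Measure.pi fun _ : I => coin) (B : Set (I → Bool)) = B.card * (2⁻¹ : ENNReal) ^ Fintype.card I := by
  have h : ∀ g : I → Bool, (Measure.pi fun _ : I => coin) {g} = (2⁻¹ : ENNReal) ^ Fintype.card I := by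
    intro g
    rw [Measure.pi_singleton]
    simp only [Q1_coin, Finset.prod_const, Finset.card_univ]
  rw [← sum_measure_singleton]
  simp only [h, Finset.sum_const, nsmul_eq_mul]

theorem rnd_inter_le {I : Type} [Fintype I] {ι : I → List Bool} (hι : Function.Injective ι)
    {E H : Set (List Bool → Bool)} (hE : MeasurableSet E) (hH : MeasurableSet H) {b : ℝ}
    (hinv : ∀ (g : I → Bool) (O : List Bool → Bool), Function.extend ι g O ∈ H ↔ O ∈ H)
    (h : ∀ O : List Bool → Bool, ((Finset.univ.filter fun g : I → Bool =>
      Function.extend ι g O ∈ E).card : ℝ) ≤ b * 2 ^ Fintype.card I) :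
    rnd (E ∩ H) ≤ ENNReal.ofReal b * rnd H := by
  have hm := measurable_extend (I := I) hι
  rw [← map_extend hι, Measure.map_apply hm (hE.inter hH), Measure.prod_apply_symm
    (hm (hE.inter hH)), map_extend hι]
  calc ∫⁻ O, (Measure.pi fun _ : I => coin) ((fun g => (g, O)) ⁻¹'
        ((fun p : (I → Bool) × (List Bool → Bool) => Function.extend ι p.1 p.2) ⁻¹' (E ∩ H))) ∂rnd
      ≤ ∫⁻ O, H.indicator (fun _ => ENNReal.ofReal b) O ∂rnd := by
        refine lintegral_mono fun O => ?_
        by_cases hO : O ∈ H
        · rw [Set.indicator_of_mem hO]
          have e1 : ((fun g => (g, O)) ⁻¹'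
              ((fun p : (I → Bool) × (List Bool → Bool) => Function.extend ι p.1 p.2) ⁻¹'
                (E ∩ H))) ⊆ ((Finset.univ.filter fun g : I → Bool =>
              Function.extend ι g O ∈ E : Finset (I → Bool)) : Set (I → Bool)) := by
            intro g hg
            simp only [Finset.coe_filter, Finset.mem_univ, true_and, Set.mem_setOf_eq]
            exact hg.1
          refine (measure_mono e1).trans ?_
          rw [Q1_pi]
          have h1 := h O
          have h2 : ((Finset.univ.filter fun g : I → Bool =>
              Function.extend ι g O ∈ E).card : ENNReal) ≤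
              ENNReal.ofReal b * 2 ^ Fintype.card I := by
            have h3 := ENNReal.ofReal_le_ofReal h1
            rw [ENNReal.ofReal_natCast] at h3
            refine h3.trans ?_
            rw [ENNReal.ofReal_mul' (by positivity)]
            refine mul_le_mul' le_rfl ?_
            rw [ENNReal.ofReal_pow (by norm_num)]
            simp
          calc _ ≤ ENNReal.ofReal b * 2 ^ Fintype.card I * (2⁻¹ : ENNReal) ^ Fintype.card I :=
                mul_le_mul' h2 le_rfl
            _ = ENNReal.ofReal b := by
                rw [mul_assoc, ← mul_pow, ENNReal.mul_inv_cancel (by norm_num) (by norm_num),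
                  one_pow, mul_one]
        · rw [Set.indicator_of_notMem hO]
          have e1 : ((fun g => (g, O)) ⁻¹'
              ((fun p : (I → Bool) × (List Bool → Bool) => Function.extend ι p.1 p.2) ⁻¹'
                (E ∩ H))) = ∅ := by
            ext g
            simp only [Set.mem_preimage, Set.mem_inter_iff, Set.mem_empty_iff_false, iff_false,
              not_and]
            intro _ h2
            exact hO ((hinv g O).1 h2)
          rw [e1]
          simp
    _ = ENNReal.ofReal b * rnd H := by
        rw [lintegral_indicator_const hH]

end Pool.Agent.LibRO74
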