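import Pool.Agent.LibRO74.Def

/-!
The bound of a fibre for `j = 2` and advice of length at most `n - 10`.
-/

namespace Pool.Agent.LibRO74

open Filter

theorem small2 (k : ℕ) : ∀ᶠ n : ℕ in atTop, ∀ w r : ℕ, n = 2 + 1 + w → r = w - 2 →
    ((2 : ℝ) ^ (n - 10 + 1) * (8 / 2 ^ r) + 4 ^ r / (2 ^ (w - 1) - 1) ^ 2 +
        4 ^ (2 * r) / 2 ^ mm k n) ≤ 7 / 8 := by
  filter_upwards [eventually_ge_atTop 12] with n hn w r hw hr
  obtain ⟨s, rfl⟩ : ∃ s, n = s + 12 := ⟨n - 12, by omega⟩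
  have e1 : w = s + 9 := by omega
  have e2 : r = s + 7 := by omega
  subst e1 e2
  have e3 : s + 12 - 10 + 1 = s + 3 := by omega
  have e4 : s + 9 - 1 = s + 8 := by omega
  rw [e3, e4]
  set X : ℝ := 2 ^ s with hX
  have hX1 : 1 ≤ X := one_le_pow₀ (by norm_num)
  have h1 : (2 : ℝ) ^ (s + 3) = 8 * X := by rw [pow_add]; ring
  have h2 : (2 : ℝ) ^ (s + 7) = 128 * X := by rw [pow_add]; ring
  have h3 : (2 : ℝ) ^ (s + 8) = 256 * X := by rw [pow_add]; ring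
  have h4 : (4 : ℝ) ^ (s + 7) = 16384 * X ^ 2 := by
    rw [pow_add, show (4 : ℝ) = 2 ^ 2 by norm_num, ← pow_mul, mul_comm 2 s, pow_mul]; norm_num
    ring
  have h5 : (4 : ℝ) ^ (2 * (s + 7)) ≤ 2 ^ mm k (s + 12) / 16 := by
    rw [le_div_iff₀ (by norm_num), show (4 : ℝ) = 2 ^ 2 by norm_num, ← pow_mul,
      show (16 : ℝ) = 2 ^ 4 by norm_num, ← pow_add]
    refine pow_le_pow_right₀ (by norm_num) ?_
    have := mm_ge k (s + 12)
    omega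
  have t1 : (2 : ℝ) ^ (s + 3) * (8 / 2 ^ (s + 7)) = 1 / 2 := by
    rw [h1, h2]
    field_simp
    norm_num
  have t2 : (4 : ℝ) ^ (s + 7) / (2 ^ (s + 8) - 1) ^ 2 ≤ 3 / 10 := by
    rw [h3, h4, div_le_iff₀ (by nlinarith)]
    nlinarith
  have t3 : (4 : ℝ) ^ (2 * (s + 7)) / 2 ^ mm k (s + 12) ≤ 1 / 16 := by
    rw [div_le_iff₀ (by positivity)]
    linarith
  rw [t1]
  linarith

end Pool.Agent.LibRO74
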