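import Pool.Agent.LibRO74.F3
import Pool.Agent.LibRO74.M3
import Pool.Agent.LibRO74.N1
import Pool.Agent.LibRO74.Q1
import Pool.Agent.LibRO74.Q3
import Pool.Agent.LibRO74.Q4

/-!
Infinitely many lengths: all but ten bits of advice.
-/

namespace Pool.Agent.LibRO74

open MeasureTheory Filter Function Pool.Agent.LibNexp Pool.Agent.LibBHN

open Classical in
/-- From functions on blocks to functions on cells. -/
theorem count_curry (m r : ℕ) (O : List Bool → Bool) (E : Set (List Bool → Bool))
    (F : Fintype (GG m × Fin (kk m r) → Bool)) :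
    ((@Finset.univ (GG m × Fin (kk m r) → Bool) F).filter fun g : GG m × Fin (kk m r) → Bool =>
      Function.extend (io m r) g O ∈ E).card =
    (Finset.univ.filter fun f : GG m → AA m r => ov m r f O ∈ E).card := by
  refine Finset.card_bij (fun g _ => Function.curry g) ?_ ?_ ?_
  · intro g hg
    simp only [Finset.mem_filter, Finset.mem_univ, true_and] at hg ⊢
    exact hg
  · intro g _ g' _ h
    exact Function.curry_injective h
  · intro f hf
    refine ⟨Function.uncurry f, ?_, rfl⟩
    simp only [Finset.mem_filter, Finset.mem_univ, true_and] at hf ⊢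
    exact hf

theorem card_cells (m r : ℕ) : (2 : ℝ) ^ Fintype.card (GG m × Fin (kk m r)) =
    (Fintype.card (AA m r) : ℝ) ^ Fintype.card (GG m) := by
  rw [Fintype.card_prod, Fintype.card_fin, mul_comm, pow_mul]
  congr 1
  simp [AA]

/-- Cells are long. -/
theorem length_io (m r : ℕ) (q : GG m × Fin (kk m r)) : 2 ^ m < (io m r q).length := by
  unfold io cell
  rw [List.length_append, List.length_cons, List.length_append, List.Vector.length_val,
    List.Vector.length_val]
  omega

open Classical in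
theorem rnd_of (p : Prog) {c k n r a M : ℕ} {b : ℝ}
    (hb : ∀ O : List Bool → Bool,
      ((Finset.univ.filter fun f : GG (mm k n) → AA (mm k n) r =>
        ov (mm k n) r f O ∈ BadG p c k n a).card : ℝ) ≤
        b * (Fintype.card (AA (mm k n) r) : ℝ) ^ Fintype.card (GG (mm k n)))
    (hE : MeasurableSet (BadG p c k n a)) {H : Set (List Bool → Bool)} (hH : Dep M H)
    (hM : M ≤ 2 ^ mm k n) :
    rnd (BadG p c k n a ∩ H) ≤ ENNReal.ofReal b * rnd H := by
  refine rnd_inter_le (io_injective (mm k n) r) hE (measurable_of_agree M hH) ?_ ?_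
  · intro g O
    have e : ∀ s : List Bool, s.length ≤ M → Function.extend (io (mm k n) r) g O s = O s := by
      intro s hs
      refine Function.extend_apply' _ _ _ ?_
      rintro ⟨q, rfl⟩
      have := length_io (mm k n) r q
      omega
    exact ⟨hH _ _ e, hH _ _ fun s hs => (e s hs).symm⟩
  · intro O
    have h1 := hb O
    rw [card_cells]
    refine le_trans (le_of_eq ?_) h1
    exact congrArg (fun x : ℕ => (x : ℝ)) (count_curry (mm k n) r O (BadG p c k n a) _)

theorem rnd_badG (p : Prog) {c k n j w r a M : ℕ} (hn : n = j + 1 + w) (hj : 2 * j ≤ w)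
    (hw : 2 ≤ w) (hr : r = w - j)
    (hT : 2 * 2 ^ n * tim c k n n + 2 * 4 ^ n ≤ 2 ^ (2 ^ mm k n))
    (hE : MeasurableSet (BadG p c k n a)) {H : Set (List Bool → Bool)} (hH : Dep M H)
    (hM : M ≤ 2 ^ mm k n) :
    rnd (BadG p c k n a ∩ H) ≤ ENNReal.ofReal (2 ^ (n - a + 1) * (8 / 2 ^ r) +
      4 ^ r / (2 ^ (w - 1) - 1) ^ 2 + 4 ^ (2 * r) / 2 ^ mm k n) * rnd H :=
  rnd_of p (fun O => fibreG (a := a) hn hj hw hr rfl hT p O) hE hH hM

theorem rnd_badT (p : Prog) {c k n j w r a : ℕ} (hn : n = j + 1 + w) (hj : 2 * j ≤ w)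
    (hw : 2 ≤ w) (hr : r = w - j)
    (hT : 2 * 2 ^ n * tim c k n n + 2 * 4 ^ n ≤ 2 ^ (2 ^ mm k n))
    (hE : MeasurableSet (BadG p c k n a)) :
    rnd (BadG p c k n a) ≤ ENNReal.ofReal (2 ^ (n - a + 1) * (8 / 2 ^ r) +
      2 * Real.exp (-(((2 : ℝ) ^ (w - 1) - 1) ^ 2 / (4 * 4 ^ r))) + 4 ^ (2 * r) / 2 ^ mm k n) := by
  have h := rnd_of p (H := Set.univ) (M := 0)
    (fun O => fibreT (a := a) hn hj hw hr rfl hT p O) hE (fun _ _ _ _ => trivial) (Nat.zero_le _)
  rwa [Set.inter_univ, measure_univ, mul_one] at h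

end Pool.Agent.LibRO74
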