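import Pool.Agent.LibRO74.T0

/-!
[RO74 T3] The first term of the bound, `j = log2 log2 n + 4`, `r = n - 2j - 1`, `a = aa q n ≤ n` for
large `n`: `2^(n-a+1) * 8 / 2^r = 2^(2j+5-a)`, `4^j = 256 * 4^(log2 log2 n) ≤ 256 (log2 n)²`,
`2^a ≥ n^(1+1/(q+1))` (`Real.rpow_logb`), so it is `≤ 8192 (log2 n)² / n^(1+1/(q+1))
≤ C / n^(1+1/(2(q+1)))` (`isLittleO_log_rpow_atTop` or `Real.log_le_rpow_div`), summable
(`Real.summable_one_div_nat_rpow`).
-/

namespace Pool.Agent.LibRO74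

open Filter

private lemma T3_sq (m : ℕ) (h : 4 ≤ m) : m ^ 2 ≤ 2 ^ m := by
  induction m, h using Nat.le_induction with
  | base => norm_num
  | succ k hk ih =>
    have h1 : (k + 1) ^ 2 ≤ 2 * k ^ 2 := by nlinarith
    have h2 : 2 ^ (k + 1) = 2 * 2 ^ k := by ring
    omega

private lemma T3_log (m : ℕ) (h : 4 ≤ m) : 2 * Nat.log 2 m ≤ m := by
  have h1 : 2 ^ Nat.log 2 m ≤ m := Nat.pow_log_le_self 2 (by omega)
  have h2 : 2 ^ (2 * Nat.log 2 m) ≤ 2 ^ m := by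
    calc 2 ^ (2 * Nat.log 2 m) = (2 ^ Nat.log 2 m) ^ 2 := by rw [← pow_mul, mul_comm]
      _ ≤ m ^ 2 := Nat.pow_le_pow_left h1 2
      _ ≤ 2 ^ m := T3_sq m h
  exact (Nat.pow_le_pow_iff_right (by norm_num)).mp h2

theorem term1 (q : ℕ) : ∃ f : ℕ → ℝ, Summable f ∧ ∀ᶠ n : ℕ in atTop, ∀ j w r : ℕ,
    j = Nat.log 2 (Nat.log 2 n) + 4 → n = j + 1 + w → r = w - j →
    (2 : ℝ) ^ (n - aa q n + 1) * (8 / 2 ^ r) ≤ f n := by
  have haa : ∀ n, aa q n = ⌈(1 + 1 / ((q : ℝ) + 1)) * Real.logb 2 n⌉₊ := fun n => rfl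
  obtain ⟨δ, hδ⟩ : ∃ δ : ℝ, δ = 1 / ((q : ℝ) + 1) := ⟨_, rfl⟩
  rw [← hδ] at haa
  have hq0 : (0 : ℝ) ≤ q := Nat.cast_nonneg q
  have hδ0 : 0 < δ := by rw [hδ]; positivity
  have hδ1 : δ ≤ 1 := by
    rw [hδ, div_le_one (by positivity)]
    linarith
  refine ⟨fun n => 8192 * ((1 / (δ / 4)) / Real.log 2) ^ 2 * (1 / (n : ℝ) ^ (1 + δ / 2)), ?_, ?_⟩
  · apply Summable.mul_left
    exact Real.summable_one_div_nat_rpow.mpr (by linarith)
  · filter_upwards [eventually_ge_atTop 64] with n hn j w r hj hw hr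
    have hn0 : (0 : ℝ) < n := by
      have : 0 < n := by omega
      exact_mod_cast this
    have hn1 : (1 : ℝ) ≤ n := by
      have : 1 ≤ n := by omega
      exact_mod_cast this
    have hlog4 : 4 ≤ Nat.log 2 n := Nat.le_log_of_pow_le (by norm_num) (by omega)
    have hj2 : 2 * j + 1 ≤ n := by
      have h1 := T3_log (Nat.log 2 n) hlog4
      have h2 := T3_log n (by omega)
      omega
    have hlg0 : 0 ≤ Real.logb 2 n := Real.logb_nonneg (by norm_num) hn1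
    have ha : aa q n ≤ n := by
      rw [haa, Nat.ceil_le]
      have h1 : 2 * Real.logb 2 n ≤ n := by
        have h2 : (n : ℝ) ^ 2 ≤ 2 ^ n := by exact_mod_cast T3_sq n (by omega)
        have h3 : Real.logb 2 ((n : ℝ) ^ 2) ≤ Real.logb 2 ((2 : ℝ) ^ n) :=
          Real.logb_le_logb_of_le (by norm_num) (by positivity) h2
        rw [Real.logb_pow, Real.logb_pow, Real.logb_self_eq_one (by norm_num)] at h3
        push_cast at h3
        linarith
      nlinarith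
    have hr2 : r + 2 * j + 1 = n := by omega
    have e0 : (2 : ℝ) ^ (n - aa q n + 1) * 2 ^ (aa q n) = 2 ^ r * (4 * 4 ^ j) := by
      rw [← pow_add]
      have h1 : n - aa q n + 1 + aa q n = r + (2 * j + 2) := by omega
      rw [h1, pow_add, pow_add, pow_mul]
      norm_num
      ring
    have e1 : (2 : ℝ) ^ (n - aa q n + 1) * (8 / 2 ^ r) = 32 * 4 ^ j / 2 ^ (aa q n) := by
      have hp1 : (0 : ℝ) < 2 ^ r := by positivity
      have hp2 : (0 : ℝ) < 2 ^ (aa q n) := by positivity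
      rw [eq_div_iff hp2.ne', mul_div_assoc', div_mul_eq_mul_div, div_eq_iff hp1.ne']
      linear_combination 8 * e0
    rw [e1]
    have e2 : (4 : ℝ) ^ j ≤ 256 * (Real.logb 2 n) ^ 2 := by
      rw [hj, pow_add]
      have h1 : (2 : ℝ) ^ Nat.log 2 (Nat.log 2 n) ≤ Real.logb 2 n := by
        have h2 : 2 ^ Nat.log 2 (Nat.log 2 n) ≤ Nat.log 2 n := Nat.pow_log_le_self 2 (by omega)
        have h3 : ((Nat.log 2 n : ℕ) : ℝ) ≤ Real.logb 2 n := by
          have := Real.natLog_le_logb n 2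
          exact_mod_cast this
        calc (2 : ℝ) ^ Nat.log 2 (Nat.log 2 n) ≤ ((Nat.log 2 n : ℕ) : ℝ) := by exact_mod_cast h2
          _ ≤ Real.logb 2 n := h3
      have h4 : (4 : ℝ) ^ Nat.log 2 (Nat.log 2 n) = ((2 : ℝ) ^ Nat.log 2 (Nat.log 2 n)) ^ 2 := by
        rw [← pow_mul, mul_comm, pow_mul]
        norm_num
      have h5 : ((2 : ℝ) ^ Nat.log 2 (Nat.log 2 n)) ^ 2 ≤ (Real.logb 2 n) ^ 2 :=
        pow_le_pow_left₀ (by positivity) h1 2
      rw [h4]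
      norm_num
      linarith
    have e3 : (n : ℝ) ^ (1 + δ) ≤ 2 ^ (aa q n) := by
      have h1 : (1 + δ) * Real.logb 2 n ≤ (aa q n : ℝ) := by
        rw [haa]
        exact Nat.le_ceil _
      calc (n : ℝ) ^ (1 + δ) = ((2 : ℝ) ^ (Real.logb 2 n)) ^ (1 + δ) := by
            rw [Real.rpow_logb (by norm_num) (by norm_num) hn0]
        _ = (2 : ℝ) ^ (Real.logb 2 n * (1 + δ)) := (Real.rpow_mul (by norm_num) _ _).symm
        _ ≤ (2 : ℝ) ^ (aa q n : ℝ) :=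
            Real.rpow_le_rpow_of_exponent_le (by norm_num) (by linarith)
        _ = 2 ^ (aa q n) := Real.rpow_natCast _ _
    have hl2 : 0 < Real.log 2 := Real.log_pos (by norm_num)
    have e4 : Real.logb 2 n ≤ ((1 / (δ / 4)) / Real.log 2) * (n : ℝ) ^ (δ / 4) := by
      have h1 := Real.log_le_rpow_div hn0.le (show 0 < δ / 4 by linarith)
      rw [Real.logb, div_le_iff₀ hl2]
      calc Real.log n ≤ (n : ℝ) ^ (δ / 4) / (δ / 4) := h1
        _ = ((1 / (δ / 4)) / Real.log 2) * (n : ℝ) ^ (δ / 4) * Real.log 2 := by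
            field_simp
    have e5 : (Real.logb 2 n) ^ 2 ≤ ((1 / (δ / 4)) / Real.log 2) ^ 2 * (n : ℝ) ^ (δ / 2) := by
      calc (Real.logb 2 n) ^ 2 ≤ (((1 / (δ / 4)) / Real.log 2) * (n : ℝ) ^ (δ / 4)) ^ 2 :=
            pow_le_pow_left₀ hlg0 e4 2
        _ = ((1 / (δ / 4)) / Real.log 2) ^ 2 * (n : ℝ) ^ (δ / 2) := by
            rw [mul_pow]
            congr 1
            rw [← Real.rpow_natCast ((n : ℝ) ^ (δ / 4)) 2, ← Real.rpow_mul hn0.le]
            congr 1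
            push_cast
            ring
    have e6 : (n : ℝ) ^ (1 + δ) = (n : ℝ) ^ (δ / 2) * (n : ℝ) ^ (1 + δ / 2) := by
      rw [← Real.rpow_add hn0]
      congr 1
      ring
    have hp3 : (0 : ℝ) < (n : ℝ) ^ (1 + δ) := Real.rpow_pos_of_pos hn0 _
    have hp4 : (0 : ℝ) < (n : ℝ) ^ (δ / 2) := Real.rpow_pos_of_pos hn0 _
    have hp5 : (0 : ℝ) < (n : ℝ) ^ (1 + δ / 2) := Real.rpow_pos_of_pos hn0 _
    calc 32 * 4 ^ j / 2 ^ (aa q n) ≤ 32 * 4 ^ j / (n : ℝ) ^ (1 + δ) :=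
          div_le_div_of_nonneg_left (by positivity) hp3 e3
      _ ≤ 32 * (256 * (((1 / (δ / 4)) / Real.log 2) ^ 2 * (n : ℝ) ^ (δ / 2))) /
            (n : ℝ) ^ (1 + δ) := by
          apply div_le_div_of_nonneg_right _ hp3.le
          linarith
      _ = 8192 * ((1 / (δ / 4)) / Real.log 2) ^ 2 * (1 / (n : ℝ) ^ (1 + δ / 2)) := by
          rw [e6]
          generalize ((1 / (δ / 4)) / Real.log 2) ^ 2 = K
          field_simp
          ring

end Pool.Agent.LibRO74
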