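import Pool.Agent.LibRO74.T0

/-!
[RO74 T4] The other terms, `l = log2 n`, `j = log2 l + 4`, `w = n - j - 1`, `r = w - j`.
`loglog_small`: e.g. `log2 l ≤ l` and `3 (l + 4) + 3 ≤ n` for large `n`, `l² ≤ 2^l ≤ n`.
`term2`: `2^(w-1) - 1 ≥ 2^(w-2)`, so the exponent is at least `4^(w-2)/(4 * 4^r) = 4^(j-3) =
4 * (2^(log2 l))² ≥ l²` (`2^(log2 l) * 2 > l`), and `exp (-l²) ≤ 1/n²` as `n < 2^(l+1)`,
`2 (l+1) log 2 ≤ l²` for `l ≥ 4`.
`term3`: `4^(2r) = 2^(4r) ≤ 2^(4n)`, `mm_ge`: `2^(mm k n) ≥ 2^(5n)`, `2^n ≥ n²` for `n ≥ 4`.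
-/

namespace Pool.Agent.LibRO74

open Filter

private theorem T4_pow (l : ℕ) (hl : 5 ≤ l) : 3 * (l + 4) + 3 ≤ 2 ^ l := by
  induction l, hl using Nat.le_induction with
  | base => norm_num
  | succ m hm ih => rw [pow_succ]; omega

private theorem T4_sq (n : ℕ) (hn : 4 ≤ n) : n ^ 2 ≤ 2 ^ n := by
  induction n, hn using Nat.le_induction with
  | base => norm_num
  | succ m hm ih =>
    rw [pow_succ 2 m]
    nlinarith

private theorem T4_small (n : ℕ) (hn : 32 ≤ n) :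
    3 * (Nat.log 2 (Nat.log 2 n) + 4) + 3 ≤ n := by
  have h5 : 5 ≤ Nat.log 2 n := by
    have := Nat.log_mono_right (b := 2) hn
    have h32 : Nat.log 2 32 = 5 := by
      rw [show (32 : ℕ) = 2 ^ 5 by norm_num, Nat.log_pow (by norm_num)]
    omega
  have h1 : Nat.log 2 (Nat.log 2 n) ≤ Nat.log 2 n := Nat.log_le_self _ _
  have h2 := T4_pow (Nat.log 2 n) h5
  have h3 : 2 ^ Nat.log 2 n ≤ n := Nat.pow_log_le_self 2 (by omega)
  omega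

theorem loglog_small : ∀ᶠ n : ℕ in atTop, 3 * (Nat.log 2 (Nat.log 2 n) + 4) + 3 ≤ n := by
  filter_upwards [eventually_ge_atTop 32] with n hn
  exact T4_small n hn

theorem term2 : ∀ᶠ n : ℕ in atTop, ∀ j w r : ℕ,
    j = Nat.log 2 (Nat.log 2 n) + 4 → n = j + 1 + w → r = w - j →
    2 * Real.exp (-(((2 : ℝ) ^ (w - 1) - 1) ^ 2 / (4 * 4 ^ r))) ≤ 2 / (n : ℝ) ^ 2 := by
  filter_upwards [eventually_ge_atTop 32] with n hn
  intro j w r hj hw hr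
  have hs := T4_small n hn
  rw [← hj] at hs
  set l := Nat.log 2 n with hl
  have h5 : 5 ≤ l := by
    have := Nat.log_mono_right (b := 2) hn
    have h32 : Nat.log 2 32 = 5 := by
      rw [show (32 : ℕ) = 2 ^ 5 by norm_num, Nat.log_pow (by norm_num)]
    omega
  obtain ⟨m, hm⟩ : ∃ m, Nat.log 2 l = m := ⟨_, rfl⟩
  rw [hm] at hj
  have hwr : w = r + (m + 4) := by omega
  -- the base is large
  have hb : (2 : ℝ) ^ (r + m + 2) ≤ (2 : ℝ) ^ (w - 1) - 1 := by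
    have e1 : w - 1 = (r + m + 2) + 1 := by omega
    have e3 : (2 : ℝ) ^ (w - 1) = 2 * (2 : ℝ) ^ (r + m + 2) := by
      rw [e1, pow_succ (2 : ℝ) (r + m + 2)]; ring
    rw [e3]
    have h1 : (1 : ℝ) ≤ (2 : ℝ) ^ (r + m + 2) := one_le_pow₀ (by norm_num)
    linarith
  have hb2 : ((2 : ℝ) ^ (r + m + 2)) ^ 2 ≤ ((2 : ℝ) ^ (w - 1) - 1) ^ 2 :=
    pow_le_pow_left₀ (by positivity) hb 2
  have hlm : (l : ℝ) ≤ (2 : ℝ) ^ (m + 1) := by
    have h1 : l < 2 ^ (Nat.log 2 l + 1) := Nat.lt_pow_succ_log_self (by norm_num) l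
    rw [hm] at h1
    have h2 : (l : ℝ) ≤ ((2 ^ (m + 1) : ℕ) : ℝ) := by exact_mod_cast h1.le
    simpa using h2
  have hE : (l : ℝ) ^ 2 ≤ ((2 : ℝ) ^ (w - 1) - 1) ^ 2 / (4 * 4 ^ r) := by
    rw [le_div_iff₀ (by positivity)]
    have h1 : (l : ℝ) ^ 2 ≤ ((2 : ℝ) ^ (m + 1)) ^ 2 :=
      pow_le_pow_left₀ (Nat.cast_nonneg _) hlm 2
    have h2 : ((2 : ℝ) ^ (m + 1)) ^ 2 * (4 * 4 ^ r) = ((2 : ℝ) ^ (r + m + 2)) ^ 2 := by
      have h4 : (4 : ℝ) ^ r = (2 : ℝ) ^ r * (2 : ℝ) ^ r := by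
        rw [← mul_pow]; norm_num
      rw [h4]
      ring
    have h3 : (0 : ℝ) ≤ 4 * 4 ^ r := by positivity
    calc (l : ℝ) ^ 2 * (4 * 4 ^ r) ≤ ((2 : ℝ) ^ (m + 1)) ^ 2 * (4 * 4 ^ r) :=
          mul_le_mul_of_nonneg_right h1 h3
      _ = ((2 : ℝ) ^ (r + m + 2)) ^ 2 := h2
      _ ≤ _ := hb2
  have hnpos : (0 : ℝ) < (n : ℝ) := by
    have : 0 < n := by omega
    exact_mod_cast this
  have hn2 : (n : ℝ) ^ 2 ≤ Real.exp ((l : ℝ) ^ 2) := by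
    have h1 : n < 2 ^ (l + 1) := Nat.lt_pow_succ_log_self (by norm_num) n
    have h2 : (n : ℝ) ≤ (2 : ℝ) ^ (l + 1) := by
      have : (n : ℝ) ≤ ((2 ^ (l + 1) : ℕ) : ℝ) := by exact_mod_cast h1.le
      simpa using this
    have h3 : (2 : ℝ) ≤ Real.exp 1 := by
      have := Real.add_one_le_exp (1 : ℝ)
      linarith
    have h4 : (n : ℝ) ≤ Real.exp ((l : ℝ) + 1) := by
      calc (n : ℝ) ≤ (2 : ℝ) ^ (l + 1) := h2
        _ ≤ (Real.exp 1) ^ (l + 1) := pow_le_pow_left₀ (by norm_num) h3 _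
        _ = Real.exp ((l : ℝ) + 1) := by
            rw [← Real.exp_nat_mul]
            congr 1
            push_cast
            ring
    calc (n : ℝ) ^ 2 ≤ (Real.exp ((l : ℝ) + 1)) ^ 2 := pow_le_pow_left₀ hnpos.le h4 2
      _ = Real.exp (2 * ((l : ℝ) + 1)) := by
          rw [← Real.exp_nat_mul]
          norm_num
      _ ≤ Real.exp ((l : ℝ) ^ 2) := by
          apply Real.exp_le_exp.2
          have h6 : (5 : ℝ) ≤ (l : ℝ) := by exact_mod_cast h5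
          nlinarith
  have hexp : Real.exp (-(((2 : ℝ) ^ (w - 1) - 1) ^ 2 / (4 * 4 ^ r))) ≤ 1 / (n : ℝ) ^ 2 := by
    calc Real.exp (-(((2 : ℝ) ^ (w - 1) - 1) ^ 2 / (4 * 4 ^ r)))
        ≤ Real.exp (-((l : ℝ) ^ 2)) := Real.exp_le_exp.2 (by linarith)
      _ = 1 / Real.exp ((l : ℝ) ^ 2) := by rw [Real.exp_neg, one_div]
      _ ≤ 1 / (n : ℝ) ^ 2 := one_div_le_one_div_of_le (by positivity) hn2
  have e2 : 2 / (n : ℝ) ^ 2 = 2 * (1 / (n : ℝ) ^ 2) := by ring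
  rw [e2]
  linarith

theorem term3 (k : ℕ) : ∀ᶠ n : ℕ in atTop, ∀ j w r : ℕ,
    j = Nat.log 2 (Nat.log 2 n) + 4 → n = j + 1 + w → r = w - j →
    (4 : ℝ) ^ (2 * r) / 2 ^ mm k n ≤ 1 / (n : ℝ) ^ 2 := by
  filter_upwards [eventually_ge_atTop 4] with n hn
  intro j w r hj hw hr
  have hrn : r ≤ n := by omega
  have hnpos : (0 : ℝ) < (n : ℝ) := by
    have : 0 < n := by omega
    exact_mod_cast this
  have h1 : (4 : ℝ) ^ (2 * r) ≤ (2 : ℝ) ^ (4 * n) := by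
    have e : (4 : ℝ) ^ (2 * r) = (2 : ℝ) ^ (4 * r) := by
      rw [show (4 : ℝ) = 2 ^ 2 by norm_num, ← pow_mul]
      congr 1
      ring
    rw [e]
    exact pow_le_pow_right₀ (by norm_num) (by omega)
  have h2 : (2 : ℝ) ^ (5 * n) ≤ (2 : ℝ) ^ mm k n := pow_le_pow_right₀ (by norm_num) (mm_ge k n)
  have h3 : (n : ℝ) ^ 2 ≤ (2 : ℝ) ^ n := by
    have := T4_sq n hn
    have h4 : ((n ^ 2 : ℕ) : ℝ) ≤ ((2 ^ n : ℕ) : ℝ) := by exact_mod_cast this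
    simpa using h4
  have h5 : (2 : ℝ) ^ (5 * n) = (2 : ℝ) ^ (4 * n) * (2 : ℝ) ^ n := by
    rw [← pow_add]
    congr 1
    ring
  rw [div_le_div_iff₀ (by positivity) (by positivity), one_mul]
  calc (4 : ℝ) ^ (2 * r) * (n : ℝ) ^ 2 ≤ (2 : ℝ) ^ (4 * n) * (2 : ℝ) ^ n :=
        mul_le_mul h1 h3 (by positivity) (by positivity)
    _ = (2 : ℝ) ^ (5 * n) := h5.symm
    _ ≤ (2 : ℝ) ^ mm k n := h2

end Pool.Agent.LibRO74
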