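import Pool.Agent.LibRO74.M0

/-!
[RO74 T5] Borel-Cantelli with a summable bound; adapt `bc` of `Z2.lean` (RO74_Z2.lean in the store).
-/

namespace Pool.Agent.LibRO74

open MeasureTheory Filter

theorem bcS {E : ℕ → Set (List Bool → Bool)} {f : ℕ → ℝ} (hf : Summable f)
    (h : ∀ᶠ n : ℕ in atTop, rnd (E n) ≤ ENNReal.ofReal (f n)) :
    ∀ᵐ O ∂rnd, ∀ᶠ n : ℕ in atTop, O ∉ E n := by
  classical
  obtain ⟨N, hN⟩ := Filter.eventually_atTop.1 h
  have hsum : Summable (fun n : ℕ => f (n + N)) := (summable_nat_add_iff (f := f) N).2 hf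
  have htop : (∑' n : ℕ, rnd (E (n + N))) ≠ ⊤ := by
    have hle : (∑' n : ℕ, rnd (E (n + N))) ≤ ∑' n : ℕ, ENNReal.ofReal (f (n + N)) :=
      ENNReal.tsum_le_tsum fun n => hN (n + N) (Nat.le_add_left N n)
    exact ne_top_of_le_ne_top hsum.tsum_ofReal_ne_top hle
  filter_upwards [MeasureTheory.ae_eventually_notMem htop] with O hO
  obtain ⟨M, hM⟩ := Filter.eventually_atTop.1 hO
  refine Filter.eventually_atTop.2 ⟨M + N, fun n hn => ?_⟩
  have h3 := hM (n - N) (by omega)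
  rwa [Nat.sub_add_cancel (by omega)] at h3

end Pool.Agent.LibRO74
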