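import Pool.Agent.LibRO74.M4
import Pool.Agent.LibRO74.Q5
import Pool.Agent.LibRO74.T3
import Pool.Agent.LibRO74.T4
import Pool.Agent.LibRO74.T5

/-!
All large lengths: all but `(1 + ε) log n` bits of advice.
-/

namespace Pool.Agent.LibRO74

open MeasureTheory Filter Pool.Agent.LibNexp Pool.Agent.LibBHN

theorem ae_badT (p : Prog) (c k q : ℕ) :
    ∀ᵐ O ∂rnd, ∀ᶠ n : ℕ in atTop, O ∉ BadG p c k n (aa q n) := by
  obtain ⟨f, hf, h1⟩ := term1 q
  have hs : Summable fun n : ℕ => f n + 2 / (n : ℝ) ^ 2 + 1 / (n : ℝ) ^ 2 := by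
    have h2 : Summable fun n : ℕ => 1 / (n : ℝ) ^ 2 :=
      Real.summable_one_div_nat_pow.2 (by norm_num)
    have h3 : Summable fun n : ℕ => 2 / (n : ℝ) ^ 2 := by
      refine (h2.mul_left 2).congr fun n => ?_
      ring
    exact (hf.add h3).add h2
  refine bcS hs ?_
  filter_upwards [h1, term2, term3 k, large c k, loglog_small] with n h1 h2 h3 h4 h5
  obtain ⟨M', hM'⟩ := badG_dep p c k n (aa q n)
  set j := Nat.log 2 (Nat.log 2 n) + 4 with hj
  have hn : n = j + 1 + (n - j - 1) := by omega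
  refine (rnd_badT p (a := aa q n) hn (by omega) (by omega) rfl h4
    (measurable_of_agree M' hM')).trans ?_
  refine ENNReal.ofReal_le_ofReal ?_
  exact add_le_add (add_le_add (h1 j _ _ hj hn rfl) (h2 j _ _ hj hn rfl)) (h3 j _ _ hj hn rfl)

end Pool.Agent.LibRO74
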