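import Pool.Agent.LibRO74.UF
import Pool.Agent.LibRO74.Q1
import Pool.Agent.LibRO74.Q3
import Pool.Agent.LibRO74.M3

/-!
Infinitely many successes.
-/

namespace Pool.Agent.LibRO74

open MeasureTheory Filter Pool.Agent.LibNexp Pool.Agent.LibBHN

theorem md_lt (c : ℕ) {n n' : ℕ} (h : n' < n) : 2 ^ md c n' + n' < 2 ^ md c n := by
  have h1 : md c n' + 1 ≤ md c n := by
    unfold md
    have : n' ^ c ≤ n ^ c := Nat.pow_le_pow_left h.le _
    omega
  have h2 : 2 ^ (md c n' + 1) ≤ 2 ^ md c n := Nat.pow_le_pow_right (by norm_num) h1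
  have h3 : n' < 2 ^ md c n' := lt_of_le_of_lt (show n' ≤ md c n' by unfold md; omega)
    Nat.lt_two_pow_self
  rw [pow_succ] at h2
  omega

/-- The intersection of the failures at the lengths from `N` to `n - 1`. -/
def FH (p : Prog) (c N n : ℕ) : Set (List Bool → Bool) := {O | ∀ i, N ≤ i → i < n → O ∈ Fail p c i}

theorem fh_dep (p : Prog) (c N : ℕ) {n : ℕ} (hn : 1 ≤ n) :
    ∃ M, M < 2 ^ md c n ∧ Dep M (FH p c N n) := by
  refine ⟨2 ^ md c (n - 1) + (n - 1), md_lt c (by omega), fun O O' h hO i hi hin => ?_⟩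
  refine fail_agree p c i (fun s hs => h s (hs.trans ?_)) (hO i hi hin)
  rcases Nat.lt_or_ge i (n - 1) with h1 | h1
  · have := md_lt c h1
    omega
  · have : i = n - 1 := by omega
    rw [this]

theorem fh_le (p : Prog) (c : ℕ) {N : ℕ} (hN : 1 ≤ N) : ∀ n, N ≤ n →
    rnd (FH p c N n) ≤ ENNReal.ofReal ((N : ℝ) / n) := by
  classical
  intro n hn
  induction n, hn using Nat.le_induction with
  | base =>
    have h1 : (N : ℝ) / N = 1 := div_self (by positivity)
    rw [h1, ENNReal.ofReal_one]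
    exact prob_le_one
  | succ n hn ih =>
    have hn1 : 1 ≤ n := hN.trans hn
    obtain ⟨M, hM, hD⟩ := fh_dep p c N hn1
    have h1 : FH p c N (n + 1) ⊆ Fail p c n ∩ FH p c N n := fun O hO =>
      ⟨hO n hn (by omega), fun i hi hin => hO i hi (by omega)⟩
    refine (measure_mono h1).trans ?_
    have h2 := rnd_inter_le (adr_injective (md c n) (Nat.log 2 (n + 1))) (E := Fail p c n)
      (H := FH p c N n) (measurable_of_agree _ fun O O' h => fail_agree p c n h)
      (measurable_of_agree M hD) (b := 1 - 1 / ((n : ℝ) + 1)) ?_ ?_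
    · refine h2.trans ?_
      refine (mul_le_mul' le_rfl ih).trans ?_
      have hb : (0 : ℝ) ≤ 1 - 1 / ((n : ℝ) + 1) := by
        have : (0 : ℝ) < (n : ℝ) + 1 := by positivity
        rw [sub_nonneg, div_le_one this]
        linarith [Nat.cast_nonneg (α := ℝ) n]
      rw [← ENNReal.ofReal_mul hb]
      refine ENNReal.ofReal_le_ofReal (le_of_eq ?_)
      have h3 : (n : ℝ) ≠ 0 := by positivity
      have h4 : (n : ℝ) + 1 ≠ 0 := by positivity
      push_cast
      field_simp
      ring
    · intro g O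
      have e : ∀ s : List Bool, s.length ≤ M →
          Function.extend (fun i : Fin (Nat.log 2 (n + 1)) => adr (md c n) i) g O s = O s := by
        intro s hs
        refine Function.extend_apply' _ _ _ ?_
        rintro ⟨i, rfl⟩
        simp only [adr, List.length_append, List.length_replicate] at hs
        omega
      exact ⟨hD _ _ e, hD _ _ fun s hs => (e s hs).symm⟩
    · intro O
      exact fail_count p c hn1 O _

theorem ae_suc (p : Prog) (c : ℕ) : ∀ᵐ O ∂rnd, ∃ᶠ n : ℕ in atTop, Suc O p c n := by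
  have h0 : ∀ N : ℕ, rnd {O | ∀ n, N + 1 ≤ n → O ∈ Fail p c n} = 0 := by
    intro N
    have h1 : Tendsto (fun n : ℕ => ENNReal.ofReal (((N + 1 : ℕ) : ℝ) / n)) atTop (nhds 0) := by
      rw [← ENNReal.ofReal_zero]
      exact ENNReal.tendsto_ofReal (tendsto_const_div_atTop_nhds_zero_nat _)
    refine le_antisymm (ge_of_tendsto h1 ?_) zero_le
    filter_upwards [eventually_ge_atTop (N + 1)] with n hn
    refine (measure_mono ?_).trans (fh_le p c (by omega) n hn)
    exact fun O hO i hi _ => hO i hi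
  have h1 : ∀ᵐ O ∂rnd, ∀ N : ℕ, ¬ ∀ n, N + 1 ≤ n → O ∈ Fail p c n := by
    rw [ae_all_iff]
    intro N
    rw [ae_iff]
    simpa using h0 N
  filter_upwards [h1] with O hO
  rw [Filter.frequently_atTop]
  intro N
  have := hO N
  push Not at this
  obtain ⟨n, hn, h2⟩ := this
  exact ⟨n, by omega, not_not.1 h2⟩

end Pool.Agent.LibRO74
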