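import Pool.Agent.LibRO74.U2
import Pool.Agent.LibRO74.U4

/-!
With the guessed bits the complement is decided.
-/

namespace Pool.Agent.LibRO74

open MeasureTheory Filter Pool.Agent.LibNexp Pool.Agent.LibBHN

theorem bp_correct {O : List Bool → Bool} {p : Prog} {c n : ℕ} (h : Suc O p c n) :
    ∃ v : List Bool, v.length + Nat.log 2 (n + 1) ≤ n + 1 ∧ ∀ x : List Bool, x.length = n →
      (x ∉ LP O p c ↔ pair x v ∈ BP O p c) := by
  obtain ⟨v, hv, h1⟩ := h
  refine ⟨v, hv.le, fun x hx => ?_⟩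
  have h2 : pair x v ∈ BP O p c ↔
      val (v ++ kap O c n) ≤ cnt n fun y => y ∈ LP O p c ∧ y ≠ x := by
    constructor
    · rintro ⟨x', v', h3, -, h4⟩
      obtain ⟨rfl, rfl⟩ := pair_injective h3
      rw [hx] at h4
      exact h4
    · intro h3
      exact ⟨x, v, rfl, by rw [hx]; exact hv, by rw [hx]; exact h3⟩
  rw [h2, h1]
  by_cases hx' : x ∈ LP O p c
  · have h3 := cnt_mem (P := fun y => y ∈ LP O p c) hx'
    rw [hx] at h3
    constructor
    · intro h4; exact absurd hx' h4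
    · intro h4; omega
  · have h3 := cnt_notMem (P := fun y => y ∈ LP O p c) (n := n) hx'
    constructor
    · intro _; rw [h3]
    · intro _; exact hx'

theorem upper : ∀ᵐ O ∂rnd, ∀ L ∈ NEXPLang O, ∃ B ∈ NEXPLang O, ∃ᶠ n : ℕ in atTop,
    ∃ v : List Bool, v.length + Nat.log 2 (n + 1) ≤ n + 1 ∧ ∀ x : List Bool, x.length = n →
      (x ∉ L ↔ pair x v ∈ B) := by
  filter_upwards [ae_all_iff.2 fun p : Prog => ae_all_iff.2 fun c : ℕ => ae_suc p c] with O hO L hL
  obtain ⟨p, c, h⟩ := exists_prog hL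
  have hLP : LP O p c = L := by
    ext z
    exact (h z).symm
  refine ⟨BP O p c, bp_mem (by rw [hLP]; exact hL), ?_⟩
  refine (hO p c).mono fun n hn => ?_
  obtain ⟨v, h1, h2⟩ := bp_correct hn
  rw [hLP] at h2
  exact ⟨v, h1, h2⟩

end Pool.Agent.LibRO74
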