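import Pool.Agent.LibRO74.Q6
import Pool.Agent.LibRO74.Q7
import Pool.Agent.LibRO74.L3
import Pool.Agent.LibRO74.U5

/-!
The complement of the language needs advice, for almost all oracles.
-/

namespace Pool.Agent.LibRO74

open MeasureTheory Filter Pool.Agent.LibNexp Pool.Agent.LibBHN

/-- Outside the bad event every advice of length at most `n - a` is wrong. -/
theorem of_notMem {O : List Bool → Bool} {p : Prog} {c k n a : ℕ} {B : Set (List Bool)}
    (hp : ∀ e : Fin 1 → List Bool, (∀ t σ', Run O p t (init e) σ' → e 0 ∈ B) ∧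
      (e 0 ∈ B → ∃ t σ', t ≤ 2 ^ (2 ^ (size e ^ k + k) + c) ∧ Run O p t (init e) σ'))
    (hn : O ∉ BadG p c k n a) (v : List Bool) (hv : v.length + a ≤ n) :
    ∃ x : List Bool, x.length = n ∧ ¬ (x ∉ RLang O k ↔ pair x v ∈ B) := by
  by_contra hcon
  push Not at hcon
  refine hn ⟨v, hv, fun x hx => ?_⟩
  have h1 := hcon x hx
  have hs : size (fun _ : Fin 1 => pair x v) = 2 * n + 2 + v.length := by
    simp only [size, Finset.univ_unique, Finset.sum_singleton, length_pair, hx]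
    ring
  have h2 := hp fun _ => pair x v
  have h3 : pair x v ∈ B ↔ Acc O p (tim c k n v.length) (pair x v) := by
    constructor
    · intro h
      obtain ⟨t, σ', ht, h4⟩ := h2.2 h
      rw [hs] at ht
      exact ⟨t, σ', ht, h4⟩
    · rintro ⟨t, σ', -, h4⟩
      exact h2.1 t σ' h4
  rw [← h3]
  by_cases hx' : x ∈ RLang O k
  · have := h1.1
    tauto
  · tauto

theorem aa_le {ε : ℝ} {q n : ℕ} (hq : 1 / ((q : ℝ) + 1) ≤ ε) (hn : 1 ≤ n) {v : List Bool}
    (h : (v.length : ℝ) + (1 + ε) * Real.logb 2 n ≤ n) : v.length + aa q n ≤ n := by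
  have h0 : 0 ≤ Real.logb 2 n := Real.logb_nonneg (by norm_num) (by exact_mod_cast hn)
  have h1 : (1 + 1 / ((q : ℝ) + 1)) * Real.logb 2 n ≤ ((n - v.length : ℕ) : ℝ) := by
    have hv : (v.length : ℝ) ≤ n := by
      have : 0 ≤ (1 + ε) * Real.logb 2 n := by
        have : 0 ≤ 1 / ((q : ℝ) + 1) := by positivity
        have : 0 ≤ 1 + ε := by linarith
        positivity
      linarith
    rw [Nat.cast_sub (by exact_mod_cast hv)]
    nlinarith
  have h2 : aa q n ≤ n - v.length := Nat.ceil_le.2 h1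
  have hv : v.length ≤ n := by
    by_contra hcon
    push Not at hcon
    have h3 : (n : ℝ) < v.length := by exact_mod_cast hcon
    have : 0 ≤ (1 + ε) * Real.logb 2 n := by
      have : 0 ≤ 1 / ((q : ℝ) + 1) := by positivity
      have : 0 ≤ 1 + ε := by linarith
      positivity
    linarith
  omega

theorem main : ∀ᵐ O ∂rnd, ∀ k : ℕ, RLang O k ∈ NEXPLang O ∧
    ∀ (c : ℕ) (B : Set (List Bool)),
      NTime O (fun n => 2 ^ (2 ^ (n ^ k + k) + c)) (fun e : Fin 1 → List Bool => e 0 ∈ B) →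
      (∀ ε : ℝ, 0 < ε → ∀ᶠ n : ℕ in atTop, ∀ v : List Bool,
        (v.length : ℝ) + (1 + ε) * Real.logb 2 n ≤ n →
        ∃ x : List Bool, x.length = n ∧ ¬ (x ∉ RLang O k ↔ pair x v ∈ B)) ∧
      ∃ᶠ n : ℕ in atTop, ∀ v : List Bool, v.length + 10 ≤ n →
        ∃ x : List Bool, x.length = n ∧ ¬ (x ∉ RLang O k ↔ pair x v ∈ B) := by
  filter_upwards [ae_all_iff.2 fun p : Prog => ae_all_iff.2 fun c : ℕ => ae_all_iff.2 fun k : ℕ =>
    ae_all_iff.2 fun q : ℕ => ae_badT p c k q,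
    ae_all_iff.2 fun p : Prog => ae_all_iff.2 fun c : ℕ => ae_all_iff.2 fun k : ℕ =>
    io_bad p c k] with O hO hO' k
  refine ⟨rlang_mem k, fun c B hB => ?_⟩
  obtain ⟨p, hp⟩ := hB
  refine ⟨fun ε hε => ?_, ?_⟩
  · obtain ⟨q, hq⟩ := exists_nat_one_div_lt hε
    filter_upwards [hO p c k q, eventually_ge_atTop 1] with n hn h1 v hv
    exact of_notMem hp hn v (aa_le hq.le h1 hv)
  · exact (hO' p c k).mono fun n hn v hv => of_notMem (a := 10) hp hn v hv

end Pool.Agent.LibRO74
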