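import Pool.Agent.LibRO74.M4
import Pool.Agent.LibRO74.Q5

/-!
Infinitely many lengths: all but ten bits of advice.
-/

namespace Pool.Agent.LibRO74

open MeasureTheory Filter Pool.Agent.LibNexp Pool.Agent.LibBHN

theorem io_bad (p : Prog) (c k : ℕ) :
    ∀ᵐ O ∂rnd, ∃ᶠ n : ℕ in atTop, O ∉ BadG p c k n 10 := by
  refine io_of (fun n => badG_dep p c k n 10) (q := ENNReal.ofReal (7 / 8)) ?_ ?_
  · rw [← ENNReal.ofReal_one]
    exact (ENNReal.ofReal_lt_ofReal_iff (by norm_num)).2 (by norm_num)
  · intro M H hH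
    filter_upwards [large c k, small2 k, eventually_ge_atTop (M + 12)] with n h1 h2 h3
    obtain ⟨M', hM'⟩ := badG_dep p c k n 10
    have hM : M ≤ 2 ^ mm k n := by
      have h4 : n ≤ mm k n := by
        have := mm_ge k n
        omega
      have h5 : mm k n < 2 ^ mm k n := Nat.lt_two_pow_self
      omega
    refine (rnd_badG p (j := 2) (w := n - 3) (r := n - 3 - 2) (by omega) (by omega) (by omega) rfl h1
      (measurable_of_agree M' hM') hH hM).trans ?_
    exact mul_le_mul' (ENNReal.ofReal_le_ofReal (h2 (n - 3) (n - 3 - 2) (by omega) rfl)) le_rfl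

end Pool.Agent.LibRO74
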