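import Pool.Agent.LibRO74.Def

/-!
The number of bits `⌈(1 + 1/(q+1)) log n⌉`.
-/

namespace Pool.Agent.LibRO74

/-- `⌈(1 + 1/(q+1)) log n⌉`. -/
noncomputable def aa (q n : ℕ) : ℕ := ⌈(1 + 1 / ((q : ℝ) + 1)) * Real.logb 2 n⌉₊

end Pool.Agent.LibRO74
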