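import Pool.Agent.LibRO74.Def

/-!
Guessing a part of the census by bits of the oracle beyond the reach of the program.
-/

namespace Pool.Agent.LibRO74

open Pool.Agent.LibNexp Pool.Agent.LibBHN

/-- The addresses `1^i 0^(2^m)`. -/
def adr (m i : ℕ) : List Bool := List.replicate i true ++ List.replicate (2 ^ m) false

/-- The exponent of the addresses for length `n`. -/
def md (c n : ℕ) : ℕ := n ^ c + c + n

/-- The strings accepted by `p` in time `2^(n^c + c)`. -/
def LP (O : List Bool → Bool) (p : Prog) (c : ℕ) : Set (List Bool) :=
  {z | Acc O p (2 ^ (z.length ^ c + c)) z}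

/-- The guessed bits for length `n`. -/
def kap (O : List Bool → Bool) (c n : ℕ) : List Bool :=
  (List.range (Nat.log 2 (n + 1))).map fun i => O (adr (md c n) i)

/-- Some advice is completed to the census by the guessed bits. -/
def Suc (O : List Bool → Bool) (p : Prog) (c n : ℕ) : Prop :=
  ∃ v : List Bool, v.length + Nat.log 2 (n + 1) = n + 1 ∧
    val (v ++ kap O c n) = cnt n fun z => z ∈ LP O p c

/-- The event of no success. -/
def Fail (p : Prog) (c n : ℕ) : Set (List Bool → Bool) := {O | ¬ Suc O p c n}

/-- The language with advice: at least `val (v ++ guessed bits)` strings of length `|x|` other than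
`x` are accepted. -/
def BP (O : List Bool → Bool) (p : Prog) (c : ℕ) : Set (List Bool) :=
  {s | ∃ x v : List Bool, s = pair x v ∧ v.length + Nat.log 2 (x.length + 1) = x.length + 1 ∧
    val (v ++ kap O c x.length) ≤ cnt x.length fun y => y ∈ LP O p c ∧ y ≠ x}

end Pool.Agent.LibRO74
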