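import Pool.Agent.LibRO74.U0

/-!
[RO74 UC] Second phase: compare the letters of stack `1` with the answers for `s`, `1s`, `11s`, ...
(`s` on stack `3`). Induction on the iteration / on the content of stack `1`; compare `pC_sound`,
`pC_complete` in RO74_LC.lean (in the store).
-/

namespace Pool.Agent.LibRO74

open Function Pool.Agent.LibNexp Pool.Agent.LibBHN

variable {O : List Bool → Bool}

/-- Compare a letter with the answer. -/
def cmp : Prog := .alt (.seq (.pop 1 false) (.query 3 false)) (.seq (.pop 1 true) (.query 3 true))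

/-- Compare all letters. -/
def qC : Prog := .seq (.star (.seq cmp (.push 3 true))) (.empty 1)

private theorem UC_step {t : ℕ} {σ τ : State} :
    Run O (.seq cmp (.push 3 true)) t σ τ ↔ ∃ b l, σ 1 = b :: l ∧ t = 3 ∧
      τ = update (update σ 1 l) 3 (true :: σ 3) ∧ O (σ 3) = b := by
  constructor
  · rintro ⟨t1, t2, τ1, rfl, h1, rfl, rfl⟩
    rcases h1 with h1 | h1
    all_goals
      obtain ⟨t3, t4, τ2, rfl, ⟨rfl, l, h4, rfl⟩, rfl, h3, rfl⟩ := h1
      rw [update_of_ne (by norm_num : (3 : ℕ) ≠ 1)] at h3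
      refine ⟨_, l, h4, rfl, ?_, h3⟩
      rw [update_of_ne (by norm_num : (3 : ℕ) ≠ 1)]
  · rintro ⟨b, l, h4, rfl, rfl, h3⟩
    have h5 : update (update σ 1 l) 3 (true :: σ 3) =
        update (update σ 1 l) 3 (true :: (update σ 1 l) 3) := by
      rw [update_of_ne (by norm_num : (3 : ℕ) ≠ 1)]
    refine ⟨2, 1, update σ 1 l, rfl, ?_, rfl, h5⟩
    cases b
    · refine Or.inl ⟨1, 1, update σ 1 l, rfl, ⟨rfl, l, h4, rfl⟩, rfl, ?_, rfl⟩
      rw [update_of_ne (by norm_num : (3 : ℕ) ≠ 1)]
      exact h3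
    · refine Or.inr ⟨1, 1, update σ 1 l, rfl, ⟨rfl, l, h4, rfl⟩, rfl, ?_, rfl⟩
      rw [update_of_ne (by norm_num : (3 : ℕ) ≠ 1)]
      exact h3

private theorem UC_rep (j : ℕ) (s : List Bool) :
    List.replicate j true ++ true :: s = List.replicate (j + 1) true ++ s := by
  rw [List.replicate_succ', List.append_assoc, List.singleton_append]

private theorem UC_iter {t : ℕ} {σ τ : State}
    (h : Iter (Run O (.seq cmp (.push 3 true))) t σ τ) (hτ : τ 1 = []) :
    ∀ l : List Bool, σ 1 = l → ∀ i (hi : i < l.length),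
      O (List.replicate i true ++ σ 3) = l[i] := by
  induction h with
  | nil σ =>
    intro l h1 i hi
    rw [hτ] at h1
    subst h1
    exact absurd hi (by simp)
  | @cons t t' σ τ1 τ h1 _ ih =>
    obtain ⟨b, l, h4, rfl, rfl, h3⟩ := UC_step.1 h1
    have ih' := ih hτ l (by
      rw [update_of_ne (by norm_num : (1 : ℕ) ≠ 3), update_self])
    rw [update_self] at ih'
    intro l' hl' i hi
    rw [h4] at hl'
    subst hl'
    cases i with
    | zero =>
      simpa using h3
    | succ j =>
      rw [← UC_rep, List.getElem_cons_succ]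
      exact ih' j (by simpa using hi)

private theorem UC_comp : ∀ (l : List Bool) (σ : State), σ 1 = l →
    (∀ i (hi : i < l.length), O (List.replicate i true ++ σ 3) = l[i]) →
    ∃ τ : State, Iter (Run O (.seq cmp (.push 3 true))) (3 * l.length) σ τ ∧ τ 1 = [] := by
  intro l
  induction l with
  | nil =>
    intro σ h1 _
    exact ⟨σ, Iter.nil σ, h1⟩
  | cons b l ih =>
    intro σ h1 h2
    have h3 : O (σ 3) = b := by
      have := h2 0 (by simp)
      simpa using this
    obtain ⟨τ, h6, h7⟩ := ih (update (update σ 1 l) 3 (true :: σ 3))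
      (by rw [update_of_ne (by norm_num : (1 : ℕ) ≠ 3), update_self])
      (by
        intro i hi
        rw [update_self, UC_rep]
        have := h2 (i + 1) (by simpa using hi)
        simpa using this)
    refine ⟨τ, ?_, h7⟩
    have h8 := Iter.cons (R := Run O (.seq cmp (.push 3 true)))
      (UC_step.2 ⟨b, l, h1, rfl, rfl, h3⟩) h6
    rw [List.length_cons, show 3 * (l.length + 1) = 3 + 3 * l.length by ring]
    exact h8

theorem qC_sound {t : ℕ} {σ σ' : State} (h : Run O qC t σ σ') :
    ∀ i (hi : i < (σ 1).length), O (List.replicate i true ++ σ 3) = (σ 1)[i] := by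
  obtain ⟨t1, t2, τ, rfl, h1, rfl, h2, rfl⟩ := h
  exact UC_iter h1 h2 (σ 1) rfl

theorem qC_complete {σ : State}
    (h : ∀ i (hi : i < (σ 1).length), O (List.replicate i true ++ σ 3) = (σ 1)[i]) :
    ∃ t σ', t ≤ 3 * (σ 1).length + 1 ∧ Run O qC t σ σ' := by
  obtain ⟨τ, h1, h2⟩ := UC_comp (O := O) (σ 1) σ rfl h
  exact ⟨3 * (σ 1).length + 1, τ, le_rfl, 3 * (σ 1).length, 1, τ, rfl, h1, rfl, h2, rfl⟩

end Pool.Agent.LibRO74
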