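import Pool.Agent.LibRO74.UA
import Pool.Agent.LibRO74.UC

/-!
[RO74 U1] The program `qA`, `qC`: adapt `nexp_hit` in RO74_L0.lean (in the store).
-/

namespace Pool.Agent.LibRO74

open Function Pool.Agent.LibNexp Pool.Agent.LibBHN

variable {O : List Bool → Bool}

private theorem U1_size (e : Fin 2 → List Bool) : size e = (e 0).length + (e 1).length := by
  unfold size
  rw [Fin.sum_univ_two]

theorem nexp_adr : NEXP O fun e : Fin 2 → List Bool =>
    ∀ i (hi : i < (e 1).length), O (adr (e 0).length i) = (e 1)[i] := by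
  rw [nexp_iff]
  have hexp : PolyB fun n => 8 * n + 8 :=
    ((PolyB.const 8).mul PolyB.id).add (PolyB.const 8)
  refine ⟨fun n => 2 ^ (8 * n + 8) + (3 * n + 1),
    (EP.pow2 hexp).add (EP.of_poly (((PolyB.const 3).mul PolyB.id).add (PolyB.const 1))),
    .seq qA qC, fun e => ⟨?_, ?_⟩⟩
  · rintro t σ' ⟨t1, t2, τ1, -, h1, h2⟩
    obtain ⟨a3, a1⟩ := qA_sound h1
    have c := qC_sound h2
    intro i hi
    have hc := c i (by rw [a1]; exact hi)
    simp only [a3, a1] at hc
    exact hc
  · intro h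
    obtain ⟨t1, τ1, ht1, r1, a3, a1⟩ := qA_complete (O := O) (e := e)
    obtain ⟨t2, τ2, ht2, r2⟩ := qC_complete (O := O) (σ := τ1) (fun i hi => by
      have hi' : i < (e 1).length := by rw [← a1]; exact hi
      have hc := h i hi'
      simp only [a3, a1]
      exact hc)
    refine ⟨t1 + t2, τ2, ?_, t1, t2, τ1, rfl, r1, r2⟩
    have hs := U1_size e
    rw [a1] at ht2
    show t1 + t2 ≤ 2 ^ (8 * size e + 8) + (3 * size e + 1)
    have e4 : t2 ≤ 3 * size e + 1 := by omega
    exact Nat.add_le_add ht1 e4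

end Pool.Agent.LibRO74
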