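import Pool.Agent.LibRO74.U1
import Pool.Agent.LibDual85.Log
import Pool.Agent.LibNexp.Advice

/-!
[RO74 U2] `BP` is in the class if `LP` is. `nexp_count` (LibBHN/Count) with the relation
`R e y := y ∈ LP ∧ y ≠ e 0` (`nexp_ne`, `hL` reindexed; parameters `x`), threshold string
`v ++ u` of length `|x| + 1`. Existentially quantified: `x v u M` and `P` (`nexp_ex` / `nexp_exN` of
LibDual85): `s = pair x v` (`nexp_pair` / `nexp_pair3`, see LibDown92/Down.lean), `|u| = log2(|x|+1)`
(`nexp_log` of LibDual85/Log), `|M| = |x|^c + c + |x|` (`nexp_powAdd`, lengths added by `nexp_append`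
as in the proof of `L2_add` in LibRO74/L2.lean), `nexp_adr` (with `M`, `u`), `t = v ++ u`,
`|v| + |u| = |x| + 1`. `u = kap O c |x|` iff `|u| = log2 (|x| + 1)` and `O (adr (md c |x|) i) = u[i]` for
all `i < |u|` (`List.ext_getElem`).
-/

namespace Pool.Agent.LibRO74

open Pool.Agent.LibNexp Pool.Agent.LibBHN

variable {O : List Bool → Bool}

private theorem U2_low_le {k m : ℕ} (e : Fin (k + m) → List Bool) :
    size (low (Nat.le_add_right k m) e) ≤ size e := by
  unfold size low
  rw [Fin.sum_univ_add]
  exact Nat.le_add_right _ _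

/-- Existential quantification over `m` strings of polynomial length (as in LibDual85). -/
private theorem U2_exN {k m : ℕ} {R : (Fin k → List Bool) → (Fin m → List Bool) → Prop}
    (h : NEXP O fun e : Fin (k + m) → List Bool =>
      R (low (Nat.le_add_right k m) e) (fun j => e (Fin.natAdd k j)))
    {g : ℕ → ℕ} (hg : PolyB g) (hgm : Monotone g)
    (hb : ∀ e z, R e z → ∀ j, (z j).length ≤ g (size e)) :
    NEXP O fun e : Fin k → List Bool => ∃ z, R e z := by
  induction m with
  | zero =>
    refine h.congr fun e => ?_
    constructor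
    · intro h1
      exact ⟨_, h1⟩
    · rintro ⟨z, hz⟩
      have : z = fun j => e (Fin.natAdd k j) := funext fun j => j.elim0
      rw [this] at hz
      exact hz
  | succ m ih =>
    have h1 : NEXP O fun e : Fin (k + m) → List Bool => ∃ b,
        R (low (Nat.le_add_right k m) e)
          (Fin.snoc (α := fun _ => List Bool) (fun j => e (Fin.natAdd k j)) b) := by
      refine nexp_ex (R := fun (e : Fin (k + m) → List Bool) b =>
        R (low (Nat.le_add_right k m) e)
          (Fin.snoc (α := fun _ => List Bool) (fun j => e (Fin.natAdd k j)) b)) ?_ hg ?_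
      · refine h.congr fun e => ?_
        have h2 : (fun j => e (Fin.natAdd k j) : Fin (m + 1) → List Bool) =
            Fin.snoc (α := fun _ => List Bool)
              (fun j => low (Nat.le_add_right (k + m) 1) e (Fin.natAdd k j))
              (e (Fin.last (k + m))) := by
          funext j
          refine Fin.lastCases ?_ (fun j => ?_) j
          · rw [Fin.snoc_last]
            congr 1
          · rw [Fin.snoc_castSucc]
            unfold low
            congr 1
        rw [h2]
        exact Iff.rfl
      · intro e b hR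
        have := hb _ _ hR (Fin.last m)
        rw [Fin.snoc_last] at this
        exact this.trans (hgm (U2_low_le e))
    have h2 := ih (R := fun e z => ∃ b, R e (Fin.snoc (α := fun _ => List Bool) z b)) h1 (by
      rintro e z ⟨b, hR⟩ j
      have := hb _ _ hR j.castSucc
      rw [Fin.snoc_castSucc] at this
      exact this)
    refine h2.congr fun e => ?_
    constructor
    · rintro ⟨z, b, hR⟩
      exact ⟨_, hR⟩
    · rintro ⟨z, hz⟩
      refine ⟨fun j => z j.castSucc, z (Fin.last m), ?_⟩
      have : Fin.snoc (α := fun _ => List Bool) (fun j => z j.castSucc) (z (Fin.last m)) = z := by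
        funext j
        refine Fin.lastCases ?_ (fun j => ?_) j
        · rw [Fin.snoc_last]
        · rw [Fin.snoc_castSucc]
      rw [this]
      exact hz

private theorem U2_add {k : ℕ} (i j l : Fin k) :
    NEXP O fun e : Fin k → List Bool => (e i).length + (e j).length = (e l).length := by
  have h1 : NEXP O fun e : Fin 4 → List Bool => e 3 = e 0 ++ e 1 ∧
      (e 3).length = 1 * (e 2).length + 0 := (nexp_append 0 1 3).and (nexp_lin 1 0 2 3)
  have h2 : NEXP O fun e : Fin 3 → List Bool => ∃ z : List Bool, z = e 0 ++ e 1 ∧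
      z.length = 1 * (e 2).length + 0 := by
    refine nexp_ex (R := fun e z => z = e 0 ++ e 1 ∧ z.length = 1 * (e 2).length + 0) h1
      (g := fun n => n) PolyB.id ?_
    rintro e z ⟨-, h⟩
    have := len_le_size e 2
    omega
  refine (h2.reindex ![i, j, l]).congr fun e => ?_
  simp only [Matrix.cons_val_zero, Matrix.cons_val_one, Matrix.cons_val_two, Matrix.head_cons,
    Matrix.tail_cons, one_mul, add_zero]
  constructor
  · rintro ⟨z, rfl, h⟩
    rw [← h, List.length_append]
  · intro h
    exact ⟨_, rfl, by rw [List.length_append, h]⟩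

/-- The relation between the input and the guessed strings `x v u P M t`. -/
private def U2R (O : List Bool → Bool) (p : Prog) (c : ℕ) (e : Fin 1 → List Bool)
    (z : Fin 6 → List Bool) : Prop :=
  ((e 0 = pair (z 0) (z 1) ∧ (z 2).length = Nat.log 2 ((z 0).length + 1)) ∧
    ((z 3).length = (z 0).length ^ c + c ∧ (z 3).length + (z 0).length = (z 4).length)) ∧
  (((∀ i (hi : i < (z 2).length), O (adr (z 4).length i) = (z 2)[i]) ∧ z 5 = z 1 ++ z 2) ∧
    ((z 5).length = 1 * (z 0).length + 1 ∧
      ∃ n, (z 5).length = n + 1 ∧ val (z 5) ≤ cnt n fun y => y ∈ LP O p c ∧ y ≠ z 0))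

private theorem U2_nexp {p : Prog} {c : ℕ} (hL : LP O p c ∈ NEXPLang O) :
    NEXP O fun e : Fin 1 → List Bool => ∃ z, U2R O p c e z := by
  have hc : NEXP O fun e : Fin 2 → List Bool => ∃ n, (e 1).length = n + 1 ∧
      val (e 1) ≤ cnt n fun y => y ∈ LP O p c ∧ y ≠ e 0 :=
    nexp_count (O := O) (k := 1) (R := fun f y => y ∈ LP O p c ∧ y ≠ f 0)
      ((nexp_mem hL 1).and (nexp_ne 1 0))
  have ha : NEXP O fun e : Fin 7 → List Bool =>
      ∀ i (hi : i < (e 3).length), O (adr (e 5).length i) = (e 3)[i] :=
    (nexp_adr (O := O)).reindex ![5, 3]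
  have hc2 : NEXP O fun e : Fin 7 → List Bool => ∃ n, (e 6).length = n + 1 ∧
      val (e 6) ≤ cnt n fun y => y ∈ LP O p c ∧ y ≠ e 1 := hc.reindex ![1, 6]
  have h1 : NEXP O fun e : Fin (1 + 6) → List Bool =>
      U2R O p c (low (Nat.le_add_right 1 6) e) (fun j => e (Fin.natAdd 1 j)) :=
    (((nexp_pair3 1 2 0).and (Pool.Agent.LibDual85.nexp_log 1 3)).and ((nexp_powAdd c c 1 4).and (U2_add 4 1 5))).and
      ((ha.and (nexp_append 2 3 6)).and ((nexp_lin 1 1 1 6).and hc2))
  refine U2_exN (k := 1) (m := 6) (R := U2R O p c) h1
    (g := fun n => n ^ c + c + n + 1)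
    ((((PolyB.id.pow c).add (PolyB.const c)).add PolyB.id).add (PolyB.const 1))
    (fun m n h => by
      have := Nat.pow_le_pow_left h c
      simp only; omega) ?_
  rintro e z ⟨⟨⟨a1, a2⟩, a3, a4⟩, ⟨-, a5⟩, a6, -⟩ j
  have l0 := len_le_size e 0
  have b1 := congrArg List.length a1
  rw [length_pair] at b1
  have hx : (z 0).length ≤ size e := by omega
  have hp := Nat.pow_le_pow_left hx c
  have b5 := congrArg List.length a5
  rw [List.length_append] at b5
  show _ ≤ (size e) ^ c + c + size e + 1
  fin_cases j
  · show (z 0).length ≤ _; omega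
  · show (z 1).length ≤ _; omega
  · show (z 2).length ≤ _; omega
  · show (z 3).length ≤ _; omega
  · show (z 4).length ≤ _; omega
  · show (z 5).length ≤ _; omega

private theorem U2_kap {c n : ℕ} {u : List Bool} (hu : u.length = Nat.log 2 (n + 1))
    (h : ∀ i (hi : i < u.length), O (adr (md c n) i) = u[i]) : u = kap O c n := by
  refine List.ext_getElem (by simp [kap, hu]) fun i hi hi' => ?_
  rw [← h i hi]
  simp [kap]

theorem bp_mem {p : Prog} {c : ℕ} (hL : LP O p c ∈ NEXPLang O) : BP O p c ∈ NEXPLang O := by
  refine (U2_nexp hL).congr fun e => ?_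
  constructor
  · rintro ⟨z, ⟨⟨a1, a2⟩, a3, a4⟩, ⟨a7, a5⟩, a6, n, a8, a9⟩
    have hM : (z 4).length = md c (z 0).length := by
      unfold md; omega
    rw [hM] at a7
    have hu := U2_kap a2 a7
    have b5 := congrArg List.length a5
    rw [List.length_append] at b5
    have hn : n = (z 0).length := by omega
    refine ⟨z 0, z 1, a1, by omega, ?_⟩
    rw [← hu, ← a5]
    rw [hn] at a9
    exact a9
  · rintro ⟨x, v, h1, h2, h3⟩
    have hk : (kap O c x.length).length = Nat.log 2 (x.length + 1) := by simp [kap]
    refine ⟨![x, v, kap O c x.length, List.replicate (x.length ^ c + c) true,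
      List.replicate (md c x.length) true, v ++ kap O c x.length], ⟨⟨h1, hk⟩, ?_, ?_⟩,
      ⟨?_, rfl⟩, ?_, x.length, ?_, h3⟩
    · show (List.replicate (x.length ^ c + c) true).length = x.length ^ c + c
      rw [List.length_replicate]
    · show (List.replicate (x.length ^ c + c) true).length + x.length =
        (List.replicate (md c x.length) true).length
      rw [List.length_replicate, List.length_replicate]
      rfl
    · intro i hi
      show O (adr (List.replicate (md c x.length) true).length i) = (kap O c x.length)[i]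
      rw [List.length_replicate]
      simp [kap]
    · show (v ++ kap O c x.length).length = 1 * x.length + 1
      rw [List.length_append, hk]; omega
    · show (v ++ kap O c x.length).length = x.length + 1
      rw [List.length_append, hk]; omega

end Pool.Agent.LibRO74
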