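import Pool.Agent.LibRO74.U0

/-!
[RO74 U3] One length: the addresses are different; the event depends on short strings.
`fail_agree`: `Acc` on strings of length `n` by `acc_agree` of LibNexp/Use (reach `n + 2^(n^c+c) ≤
2^(md c n) + n`), so `LP` is the same at length `n`, so `cnt n` is the same (`cnt` counts `bits n t`,
`length_bits`); the guessed bits by the addresses (length `i + 2^(md c n)`, `i < log2 (n+1) ≤ n`).
-/

namespace Pool.Agent.LibRO74

open Pool.Agent.LibNexp Pool.Agent.LibBHN

theorem adr_injective (m b : ℕ) : Function.Injective fun i : Fin b => adr m i := by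
  intro i j hij
  have h := congrArg (List.count true) hij
  simp only [adr, List.count_append, List.count_replicate] at h
  apply Fin.ext
  simpa using h

private theorem U3_LP (p : Prog) (c n : ℕ) {O O' : List Bool → Bool}
    (h : ∀ s, s.length ≤ 2 ^ md c n + n → O s = O' s) (z : List Bool) (hz : z.length = n)
    (hl : z ∈ LP O p c) : z ∈ LP O' p c := by
  refine acc_agree (O := O) (fun s hs => h s ?_) hl
  rw [hz] at hs
  have h1 : 2 ^ (n ^ c + c) ≤ 2 ^ md c n :=
    Nat.pow_le_pow_right (by norm_num) (by unfold md; omega)
  omega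

open Classical in
private theorem U3_suc (p : Prog) (c n : ℕ) {O O' : List Bool → Bool}
    (h : ∀ s, s.length ≤ 2 ^ md c n + n → O s = O' s) (hs : Suc O p c n) : Suc O' p c n := by
  obtain ⟨v, hv, hc⟩ := hs
  refine ⟨v, hv, ?_⟩
  have h1 : kap O' c n = kap O c n := by
    unfold kap
    apply List.map_congr_left
    intro i hi
    rw [List.mem_range] at hi
    symm
    apply h
    have h2 : Nat.log 2 (n + 1) < n + 1 := Nat.log_lt_self 2 (by omega)
    simp only [adr, List.length_append, List.length_replicate]
    omega
  have h2 : (cnt n fun z => z ∈ LP O' p c) = cnt n fun z => z ∈ LP O p c := by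
    unfold cnt
    refine congrArg Finset.card (Finset.ext fun m => ?_)
    simp only [Finset.mem_filter]
    exact and_congr_right fun _ => ⟨U3_LP p c n (fun s hs => (h s hs).symm) _ (length_bits n m),
      U3_LP p c n h _ (length_bits n m)⟩
  rw [h1, h2]
  exact hc

theorem fail_agree (p : Prog) (c n : ℕ) {O O' : List Bool → Bool}
    (h : ∀ s, s.length ≤ 2 ^ md c n + n → O s = O' s) : O ∈ Fail p c n → O' ∈ Fail p c n := by
  intro hf hs
  exact hf (U3_suc p c n (fun s hs => (h s hs).symm) hs)

end Pool.Agent.LibRO74
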