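import Pool.Agent.LibRO74.U0
import Pool.Agent.LibNexp.Witness

/-!
[RO74 UA] First phase: from `M` on stack `0` make `0^(2^|M|)` on stack `3`. Adapt `LibNexp/Witness.lean`
(`load_complete`, `guessInc_complete`, `witLang_mem`) with a push of `false` instead of a guess; or
adapt the finished file RO74_LA.lean (in the store). Stack `1` is not touched.
-/

namespace Pool.Agent.LibRO74

open Function Pool.Agent.LibNexp Pool.Agent.LibBHN

variable {O : List Bool → Bool}

/-- One bit of stack `0` gives one zero of the counter. -/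
def ld0 : Prog := .seq (popAny 0) (.push 2 false)

/-- Push `2^m` zeros on stack `3`, `m` the length of stack `0`. -/
def qA : Prog := .seq (.star ld0) (.seq (.empty 0) (.seq (.star (.seq (.push 3 false) inc))
  (.seq (.push 3 false) (.seq (.star (.pop 2 true)) (.empty 2)))))

private theorem UA_ld {t : ℕ} {σ σ' : State} : Run O ld0 t σ σ' ↔ t = 2 ∧ ∃ b l, σ 0 = b :: l ∧
    σ' = update (update σ 0 l) 2 (false :: σ 2) := by
  have u2 : ∀ l, update σ 0 l 2 = σ 2 := fun l => update_of_ne (by norm_num) _ _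
  constructor
  · rintro ⟨t1, t2, τ, rfl, h1, rfl, rfl⟩
    obtain ⟨b, l, h2, rfl, rfl⟩ := run_popAny.1 h1
    exact ⟨rfl, b, l, h2, by rw [u2]⟩
  · rintro ⟨rfl, b, l, h1, rfl⟩
    exact ⟨1, 1, _, rfl, run_popAny.2 ⟨b, l, h1, rfl, rfl⟩, rfl, by rw [u2]⟩

private theorem UA_ldc : ∀ (x : List Bool) (σ : State), σ 0 = x →
    Iter (Run O ld0) (2 * x.length) σ (update (update σ 0 []) 2
      (List.replicate x.length false ++ σ 2)) := by
  intro x
  induction x with
  | nil =>
    intro σ h
    have e1 : update σ 0 [] = σ := by rw [show [] = σ 0 from h.symm]; simp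
    rw [e1]
    simpa using Iter.nil σ
  | cons b x ih =>
    intro σ h
    have h1 : Run O ld0 2 σ (update (update σ 0 x) 2 (false :: σ 2)) := UA_ld.2 ⟨rfl, b, x, h, rfl⟩
    have h2 := ih (update (update σ 0 x) 2 (false :: σ 2)) (by
      rw [update_of_ne (by norm_num), update_self])
    have h3 := Iter.cons h1 h2
    have e1 : 2 + 2 * x.length = 2 * (b :: x).length := by rw [List.length_cons]; ring
    have e2 : update (update (update (update σ 0 x) 2 (false :: σ 2)) 0 []) 2
        (List.replicate x.length false ++ update (update σ 0 x) 2 (false :: σ 2) 2) =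
        update (update σ 0 []) 2 (List.replicate (b :: x).length false ++ σ 2) := by
      funext r
      by_cases hr2 : r = 2
      · subst hr2
        rw [update_self, update_self, update_self, List.length_cons, List.replicate_succ']
        simp
      · by_cases hr0 : r = 0
        · subst hr0; simp
        · simp [hr0, hr2]
    rw [e1, e2] at h3
    exact h3

private theorem UA_pic : ∀ (k : ℕ) (σ : State), σ 4 = [] →
    val (σ 2) + k < 2 ^ (σ 2).length → ∃ t σ', t ≤ k * (4 * (σ 2).length + 4) ∧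
      Iter (Run O (.seq (.push 3 false) inc)) t σ σ' ∧ val (σ' 2) = val (σ 2) + k ∧
      (σ' 2).length = (σ 2).length ∧ σ' 4 = [] ∧ ∀ r, r ≠ 2 → r ≠ 3 → r ≠ 4 → σ' r = σ r := by
  intro k
  induction k with
  | zero => intro σ h4 _; exact ⟨0, σ, by simp, Iter.nil σ, by simp, rfl, h4, fun _ _ _ _ => rfl⟩
  | succ k ih =>
    intro σ h4 h
    set τ := update σ 3 (false :: σ 3) with hτ
    have a2 : τ 2 = σ 2 := by rw [hτ, update_of_ne (by norm_num)]
    have a4 : τ 4 = [] := by rw [hτ, update_of_ne (by norm_num), h4]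
    obtain ⟨t1, ρ, ht1, h1⟩ := inc_complete (O := O) (σ := τ) a4 (by rw [a2]; omega)
    obtain ⟨b1, b2, b3, b4⟩ := inc_sound a4 h1
    have h2 : Run O (.push 3 false) 1 σ τ := ⟨rfl, rfl⟩
    rw [a2] at b1 b2 ht1
    obtain ⟨t2, σ', ht2, h3, c2, c3, c4, c5⟩ := ih ρ b3 (by rw [b1, b2]; omega)
    refine ⟨(1 + t1) + t2, σ', ?_, Iter.cons ⟨1, t1, τ, rfl, h2, h1⟩ h3, ?_, ?_, c4, ?_⟩
    · rw [b2] at ht2
      rw [Nat.succ_mul]
      omega
    · rw [c2, b1]; ring
    · rw [c3, b2]
    · intro r hr2 hr3 hr4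
      rw [c5 r hr2 hr3 hr4, b4 r hr2 hr4, hτ, update_of_ne hr3]

theorem qA_sound {e : Fin 2 → List Bool} {t : ℕ} {σ : State} (h : Run O qA t (init e) σ) :
    σ 3 = List.replicate (2 ^ (e 0).length) false ∧ σ 1 = e 1 := by
  obtain ⟨t1, t2, τ1, -, h1, t3, t4, τ2, -, ⟨-, h2, rfl⟩, t5, t6, τ3, -, h3,
    t7, t8, τ4, -, ⟨-, rfl⟩, t9, t10, τ5, -, h5, -, h6, rfl⟩ := h
  have hl := iter_inv (P := fun σ => (σ 0).length + (σ 2).length = (e 0).length ∧
    val (σ 2) = 0 ∧ σ 1 = e 1 ∧ σ 3 = [] ∧ σ 4 = []) (by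
      intro t σ τ h ⟨i1, i2, i3, i4, i5⟩
      obtain ⟨-, b, l, h9, rfl⟩ := UA_ld.1 h
      refine ⟨?_, ?_, ?_, ?_, ?_⟩
      · rw [update_of_ne (by norm_num), update_self, update_self, List.length_cons, ← i1, h9,
          List.length_cons]
        omega
      · rw [update_self]
        simp only [val, i2, Bool.toNat_false]
      · rw [update_of_ne (by norm_num), update_of_ne (by norm_num), i3]
      · rw [update_of_ne (by norm_num), update_of_ne (by norm_num), i4]
      · rw [update_of_ne (by norm_num), update_of_ne (by norm_num), i5])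
    h1 ⟨by rw [show init e 0 = e 0 from init_apply e 0, init_ge e (r := 2) le_rfl]; simp,
      by rw [init_ge e (r := 2) le_rfl]; rfl, init_apply e 1, init_ge e (by norm_num),
      init_ge e (by norm_num)⟩
  obtain ⟨i1, i2, i3, i4, i5⟩ := hl
  rw [h2, List.length_nil, zero_add] at i1
  have hg := iter_inv (P := fun σ => σ 1 = e 1 ∧ (σ 2).length = (e 0).length ∧
    val (σ 2) = (σ 3).length ∧ σ 3 = List.replicate (σ 3).length false ∧ σ 4 = []) (by
      rintro t σ τ ⟨t1, t2, υ, -, ⟨-, rfl⟩, h10⟩ ⟨j1, j2, j3, j4, j5⟩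
      obtain ⟨k1, k2, k3, k4⟩ := inc_sound (by rw [update_of_ne (by norm_num)]; exact j5) h10
      rw [update_of_ne (by norm_num)] at k1 k2
      have k5 : τ 3 = false :: σ 3 := by rw [k4 3 (by norm_num) (by norm_num), update_self]
      refine ⟨?_, by rw [k2, j2], ?_, ?_, k3⟩
      · rw [k4 1 (by norm_num) (by norm_num), update_of_ne (by norm_num), j1]
      · rw [k1, k5, List.length_cons, j3]
      · rw [k5, List.length_cons, List.replicate_succ, ← j4])
    h3 ⟨i3, i1, by rw [i2, i4]; rfl, by rw [i4]; rfl, i5⟩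
  obtain ⟨j1, j2, j3, j4, j5⟩ := hg
  obtain ⟨k, k1, k2⟩ := pops_sound h5
  rw [update_of_ne (by norm_num), h6, List.append_nil] at k1
  have e2 : k = (e 0).length := by rw [← j2, k1, List.length_replicate]
  have e3 := val_true k []
  rw [List.append_nil, ← k1] at e3
  simp only [val, zero_add, mul_one] at e3
  refine ⟨?_, ?_⟩
  · rw [k2 3 (by norm_num), update_self, ← e2, ← e3, j3, List.replicate_succ, ← j4]
  · rw [k2 1 (by norm_num), update_of_ne (by norm_num), j1]

theorem qA_complete {e : Fin 2 → List Bool} : ∃ t σ, t ≤ 2 ^ (8 * size e + 8) ∧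
    Run O qA t (init e) σ ∧ σ 3 = List.replicate (2 ^ (e 0).length) false ∧ σ 1 = e 1 := by
  obtain ⟨t, σ, ht, hr⟩ : ∃ t σ, t ≤ 2 ^ (8 * size e + 8) ∧ Run O qA t (init e) σ := by
    set x := e 0 with hx
    set n := x.length with hn
    have hi0 : init e 0 = x := init_apply e 0
    have h1 := UA_ldc (O := O) x (init e) hi0
    rw [init_ge e (r := 2) le_rfl, List.append_nil] at h1
    set τ1 := update (update (init e) 0 []) 2 (List.replicate x.length false) with hτ1
    have a0 : τ1 0 = [] := by rw [hτ1, update_of_ne (by norm_num), update_self]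
    have a2 : τ1 2 = List.replicate n false := by rw [hτ1, update_self]
    have a4 : τ1 4 = [] := by
      rw [hτ1, update_of_ne (by norm_num), update_of_ne (by norm_num)]
      exact init_ge e (by norm_num)
    have a2v : val (τ1 2) = 0 := by
      rw [a2]
      have := val_false n []
      rw [List.append_nil] at this
      rw [this]; rfl
    have a2l : (τ1 2).length = n := by rw [a2, List.length_replicate]
    have hp := Nat.two_pow_pos n
    obtain ⟨t2, τ3, ht2, h3, b2, b3, b4, b5⟩ := UA_pic (O := O) (2 ^ n - 1) τ1 a4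
      (by rw [a2v, a2l]; omega)
    rw [a2l] at ht2 b3
    rw [a2v, zero_add] at b2
    set τ4 := update τ3 3 (false :: τ3 3) with hτ4
    have c2 : τ4 2 = List.replicate n true := by
      rw [hτ4, update_of_ne (by norm_num)]
      have := all_true (l := τ3 2) (by rw [b3, b2]; omega)
      rwa [b3] at this
    have h5 := pops_complete (O := O) (r := 2) (b := true) n τ4 c2
    set τ5 := update τ4 2 [] with hτ5
    have d2 : τ5 2 = [] := by rw [hτ5, update_self]
    refine ⟨2 * x.length + (1 + (t2 + (1 + (n + 1)))), τ5, ?_, _, _, _, rfl, h1, _, _, _, rfl,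
      ⟨rfl, a0, rfl⟩, _, _, _, rfl, h3, _, _, _, rfl, ⟨rfl, rfl⟩, _, _, _, rfl, h5, rfl, d2, rfl⟩
    have hs : size e = n + (e 1).length := by simp [size, hn, hx, Fin.sum_univ_two]
    rw [← hn]
    set N := size e with hN
    have e0 : n ≤ N := by omega
    have e2 : N < 2 ^ N := Nat.lt_two_pow_self
    have e3 : t2 ≤ 2 ^ n * (4 * n + 4) := le_trans ht2 (Nat.mul_le_mul_right _ (Nat.sub_le _ _))
    have e4 : 2 ^ n * (4 * n + 4) ≤ 2 ^ N * (4 * 2 ^ N + 4) :=
      Nat.mul_le_mul (Nat.pow_le_pow_right (by norm_num) e0) (by omega)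
    have e5 : 2 ^ (8 * N + 8) = 256 * (2 ^ N) ^ 8 := by
      rw [pow_add, mul_comm 8 N, pow_mul]; ring
    have e6 : 1 ≤ 2 ^ N := Nat.one_le_two_pow
    have e7 : (2 ^ N) ^ 2 ≤ (2 ^ N) ^ 8 := Nat.pow_le_pow_right e6 (by norm_num)
    have e8 : 2 ^ N ≤ (2 ^ N) ^ 2 := Nat.le_self_pow (by norm_num) _
    rw [e5]
    have e9 : 2 ^ N * (4 * 2 ^ N + 4) = 4 * (2 ^ N) ^ 2 + 4 * 2 ^ N := by ring
    omega
  obtain ⟨h3, h4⟩ := qA_sound hr
  exact ⟨t, σ, ht, hr, h3, h4⟩

end Pool.Agent.LibRO74
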