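import Pool.Agent.LibRO74.U3

/-!
[RO74 UF] One length: at least one value of the guessed bits gives success.
`b = Nat.log 2 (n + 1)`, addresses `adr (md c n) i`, `i < b`, of length `≥ 2^(md c n)`.
`n + 2^(n^c+c) < 2^(md c n)` for `1 ≤ n`, so by `acc_agree` (both directions) the census
`C = cnt n (LP ..)` is the same for all `g` as for `O`. `C ≤ 2^n < 2^(n+1)` (`cnt_le`),
`bits (n+1) C = v ++ u` with `|u| = b` (`List.take_append_drop`, `b ≤ n + 1`), `val_bits`. For
`g i = u[i]` the guessed bits are `u` (`(adr_injective _ _).extend_apply`), so `Suc` holds: at least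
one `g` is not in the event, and `2^b - 1 ≤ (1 - 1/(n+1)) 2^b` as `2^b ≤ n + 1`
(`Nat.pow_log_le_self`). (`F` is any instance: first show that it is the standard one,
`Subsingleton.elim`, or bound the filter by `(univ.erase g₀).card`, `Fintype.card` of a subsingleton
family of instances.)
-/

namespace Pool.Agent.LibRO74

open Pool.Agent.LibNexp Pool.Agent.LibBHN

private theorem UF_reach (c : ℕ) {n : ℕ} (hn : 1 ≤ n) :
    n + 2 ^ (n ^ c + c) < 2 ^ md c n := by
  have h1 : 1 ≤ n ^ c := Nat.one_le_pow _ _ hn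
  have h2 : 2 ^ 1 ≤ 2 ^ (n ^ c + c) := Nat.pow_le_pow_right (by norm_num) (by omega)
  have h3 : 2 ^ md c n = 2 ^ (n ^ c + c) * 2 ^ n := by
    unfold md
    rw [pow_add 2 (n ^ c + c) n]
  have h4 : n + 1 ≤ 2 ^ n := Nat.lt_two_pow_self
  rw [h3]
  have h5 : 2 ^ (n ^ c + c) * (n + 1) ≤ 2 ^ (n ^ c + c) * 2 ^ n := Nat.mul_le_mul_left _ h4
  have h6 : 2 * n ≤ 2 ^ (n ^ c + c) * n := Nat.mul_le_mul_right _ (by simpa using h2)
  rw [Nat.mul_add, Nat.mul_one] at h5
  omega

private theorem UF_ext (c n b : ℕ) (O : List Bool → Bool) (g : Fin b → Bool) (s : List Bool)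
    (hs : s.length < 2 ^ md c n) :
    Function.extend (fun i : Fin b => adr (md c n) i) g O s = O s := by
  refine Function.extend_apply' _ _ _ ?_
  rintro ⟨i, rfl⟩
  simp only [adr, List.length_append, List.length_replicate] at hs
  omega

private theorem UF_cnt (p : Prog) (c : ℕ) {n : ℕ} (hn : 1 ≤ n) (b : ℕ) (O : List Bool → Bool)
    (g : Fin b → Bool) :
    cnt n (fun z => z ∈ LP (Function.extend (fun i : Fin b => adr (md c n) i) g O) p c) =
      cnt n fun z => z ∈ LP O p c := by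
  classical
  unfold cnt
  congr 1
  refine Finset.filter_congr fun m _ => ?_
  have hl : (bits n m).length = n := length_bits n m
  have hr := UF_reach c hn
  constructor
  · intro h
    refine acc_agree (fun s hs => ?_) h
    rw [hl] at hs
    exact UF_ext c n b O g s (by omega)
  · intro h
    refine acc_agree (fun s hs => ?_) h
    rw [hl] at hs
    exact (UF_ext c n b O g s (by omega)).symm

open Classical in
theorem fail_count (p : Prog) (c : ℕ) {n : ℕ} (hn : 1 ≤ n) (O : List Bool → Bool)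
    (F : Fintype (Fin (Nat.log 2 (n + 1)) → Bool)) :
    (((@Finset.univ (Fin (Nat.log 2 (n + 1)) → Bool) F).filter fun g =>
      Function.extend (fun i : Fin (Nat.log 2 (n + 1)) => adr (md c n) i) g O ∈ Fail p c n).card : ℝ) ≤
      (1 - 1 / ((n : ℝ) + 1)) * 2 ^ Fintype.card (Fin (Nat.log 2 (n + 1))) := by
  have hbn : Nat.log 2 (n + 1) ≤ n + 1 := Nat.log_le_self 2 (n + 1)
  have hpow : 2 ^ Nat.log 2 (n + 1) ≤ n + 1 := Nat.pow_log_le_self 2 (by omega)
  have hC : cnt n (fun z => z ∈ LP O p c) < 2 ^ (n + 1) := by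
    refine lt_of_le_of_lt (cnt_le n _) ?_
    exact Nat.pow_lt_pow_right (by norm_num) (by omega)
  obtain ⟨w, hw⟩ : ∃ w, w = bits (n + 1) (cnt n fun z => z ∈ LP O p c) := ⟨_, rfl⟩
  have hwl : w.length = n + 1 := by rw [hw, length_bits]
  have hwv : val w = cnt n fun z => z ∈ LP O p c := by rw [hw, val_bits hC]
  obtain ⟨u, hu⟩ : ∃ u, u = w.drop (n + 1 - Nat.log 2 (n + 1)) := ⟨_, rfl⟩
  have hul : u.length = Nat.log 2 (n + 1) := by
    rw [hu, List.length_drop, hwl]
    omega
  obtain ⟨g₀, hg₀⟩ : ∃ g₀ : Fin (Nat.log 2 (n + 1)) → Bool,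
      g₀ = fun i : Fin (Nat.log 2 (n + 1)) => u[(i : ℕ)]'(by rw [hul]; exact i.2) := ⟨_, rfl⟩
  have hkap : kap (Function.extend (fun i : Fin (Nat.log 2 (n + 1)) => adr (md c n) i) g₀ O) c n =
      u := by
    unfold kap
    refine List.ext_getElem ?_ ?_
    · rw [List.length_map, List.length_range, hul]
    · intro i h1 h2
      rw [List.getElem_map, List.getElem_range]
      have h3 : i < Nat.log 2 (n + 1) := by rw [← hul]; exact h2
      have h4 := (adr_injective (md c n) (Nat.log 2 (n + 1))).extend_apply g₀ O ⟨i, h3⟩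
      simp only at h4
      rw [h4, hg₀]
  have hsuc : Suc (Function.extend (fun i : Fin (Nat.log 2 (n + 1)) => adr (md c n) i) g₀ O) p c
      n := by
    refine ⟨w.take (n + 1 - Nat.log 2 (n + 1)), ?_, ?_⟩
    · rw [List.length_take, hwl]
      omega
    · rw [hkap, hu, List.take_append_drop, hwv, UF_cnt p c hn]
  have hsub : ((Finset.univ : Finset (Fin (Nat.log 2 (n + 1)) → Bool)).filter fun g =>
      Function.extend (fun i : Fin (Nat.log 2 (n + 1)) => adr (md c n) i) g O ∈ Fail p c n) ⊆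
      Finset.univ.erase g₀ := by
    intro g hg
    rw [Finset.mem_filter] at hg
    rw [Finset.mem_erase]
    refine ⟨?_, Finset.mem_univ _⟩
    rintro rfl
    exact hg.2 hsuc
  have hcard : ((Finset.univ : Finset (Fin (Nat.log 2 (n + 1)) → Bool)).filter fun g =>
      Function.extend (fun i : Fin (Nat.log 2 (n + 1)) => adr (md c n) i) g O ∈
        Fail p c n).card + 1 ≤ 2 ^ Nat.log 2 (n + 1) := by
    have h1 := Finset.card_le_card hsub
    have h2 := Finset.card_erase_add_one (Finset.mem_univ g₀)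
    have h3 : (Finset.univ : Finset (Fin (Nat.log 2 (n + 1)) → Bool)).card =
        2 ^ Nat.log 2 (n + 1) := by
      rw [Finset.card_univ, ← Nat.card_eq_fintype_card, Nat.card_fun, Nat.card_eq_fintype_card,
        Nat.card_eq_fintype_card, Fintype.card_bool, Fintype.card_fin]
    omega
  have h5 : ((((Finset.univ : Finset (Fin (Nat.log 2 (n + 1)) → Bool)).filter fun g =>
      Function.extend (fun i : Fin (Nat.log 2 (n + 1)) => adr (md c n) i) g O ∈
        Fail p c n).card : ℕ) : ℝ) + 1 ≤ 2 ^ Nat.log 2 (n + 1) := by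
    exact_mod_cast hcard
  have h6 : (2 : ℝ) ^ Nat.log 2 (n + 1) ≤ (n : ℝ) + 1 := by exact_mod_cast hpow
  have h7 : (0 : ℝ) < (n : ℝ) + 1 := by positivity
  rw [Fintype.card_fin]
  have h8 : (1 - 1 / ((n : ℝ) + 1)) * 2 ^ Nat.log 2 (n + 1) =
      2 ^ Nat.log 2 (n + 1) - 2 ^ Nat.log 2 (n + 1) / ((n : ℝ) + 1) := by
    ring
  have h9 : (2 : ℝ) ^ Nat.log 2 (n + 1) / ((n : ℝ) + 1) ≤ 1 := (div_le_one h7).2 h6
  rw [h8]
  linarith

end Pool.Agent.LibRO74
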